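import Mathlib
import Pool.Agent.Helper183.Gar.Mean

/-!
Averages of bounded operator valued functions on commutative groups.
-/

set_option autoImplicit false
set_option linter.unusedSectionVars false

open scoped InnerProductSpace ComplexConjugate

noncomputable section

namespace Pool.Agent.N242.KK

/-- bounded complex functions -/
def CB {G : Type*} (f : G → ℂ) : Prop := ∃ C : ℝ, ∀ x, ‖f x‖ ≤ C

/-- complex invariant means -/
structure IsCMean {G : Type*} [CommGroup G] (m : (G → ℂ) → ℂ) : Prop where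
  add : ∀ f g, CB f → CB g → m (fun x => f x + g x) = m f + m g
  smul : ∀ (c : ℂ) f, CB f → m (fun x => c * f x) = c * m f
  one : m (fun _ => 1) = 1
  le : ∀ f C, (∀ x, ‖f x‖ ≤ C) → ‖m f‖ ≤ C
  inv : ∀ f a, CB f → m (fun x => f (a * x)) = m f
  cnj : ∀ f, CB f → m (fun x => conj (f x)) = conj (m f)

theorem real_smul {Γ : Type*} (M : (Γ → ℝ) → ℝ)
    (hadd : ∀ f g, Gardner.Bdd f → Gardner.Bdd g → M (f + g) = M f + M g)
    (hle : ∀ f C, (∀ x, |f x| ≤ C) → |M f| ≤ C) (f : Γ → ℝ) (hf : Gardner.Bdd f) (c : ℝ) :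
    M (fun x => c * f x) = c * M f := by
  obtain ⟨C, hC⟩ := hf
  have hb : ∀ a : ℝ, Gardner.Bdd (fun x => a * f x) := fun a =>
    ⟨|a| * C, fun x => by rw [abs_mul]; exact mul_le_mul_of_nonneg_left (hC x) (abs_nonneg _)⟩
  let φ : ℝ →+ ℝ := AddMonoidHom.mk' (fun a => M (fun x => a * f x)) (by
    intro a b
    rw [← hadd _ _ (hb a) (hb b)]
    congr 1
    funext x
    simp only [Pi.add_apply]
    ring)
  have hφ : ∀ a, |φ a| ≤ |C| * |a| := by
    intro a
    refine hle _ _ fun x => ?_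
    rw [abs_mul, mul_comm]
    exact mul_le_mul_of_nonneg_right ((hC x).trans (le_abs_self C)) (abs_nonneg _)
  have hcont : Continuous φ := by
    refine AddMonoidHomClass.continuous_of_bound φ |C| fun x => ?_
    rw [Real.norm_eq_abs, Real.norm_eq_abs]
    exact hφ x
  have h1 := map_real_smul φ hcont c 1
  simp only [smul_eq_mul, mul_one] at h1
  have h2 : φ c = M (fun x => c * f x) := rfl
  have h3 : φ 1 = M f := by
    show M (fun x => 1 * f x) = M f
    congr 1
    funext x
    ring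
  rw [h2, h3] at h1
  exact h1

theorem exists_cmean (G : Type*) [CommGroup G] : ∃ m : (G → ℂ) → ℂ, IsCMean m := by
  obtain ⟨M, hadd, hnn, hone, hle, hinv⟩ := Gardner.exists_mean (Additive G)
  have hsm := real_smul M hadd hle
  have hre : ∀ f : G → ℂ, CB f → Gardner.Bdd (fun x : Additive G => (f x.toMul).re) :=
    fun f ⟨C, hC⟩ => ⟨C, fun x => (Complex.abs_re_le_norm _).trans (hC _)⟩
  have him : ∀ f : G → ℂ, CB f → Gardner.Bdd (fun x : Additive G => (f x.toMul).im) :=
    fun f ⟨C, hC⟩ => ⟨C, fun x => (Complex.abs_im_le_norm _).trans (hC _)⟩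
  let m : (G → ℂ) → ℂ := fun f =>
    (M (fun x => (f x.toMul).re) : ℂ) + (M (fun x => (f x.toMul).im) : ℂ) * Complex.I
  have madd : ∀ f g, CB f → CB g → m (fun x => f x + g x) = m f + m g := by
    intro f g hf hg
    show ((M (fun x => (f x.toMul + g x.toMul).re) : ℝ) : ℂ) +
      ((M (fun x => (f x.toMul + g x.toMul).im) : ℝ) : ℂ) * Complex.I = _
    have e1 : (fun x : Additive G => (f x.toMul + g x.toMul).re) =
      (fun x : Additive G => (f x.toMul).re) + fun x : Additive G => (g x.toMul).re := by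
      funext x; simp
    have e2 : (fun x : Additive G => (f x.toMul + g x.toMul).im) =
      (fun x : Additive G => (f x.toMul).im) + fun x : Additive G => (g x.toMul).im := by
      funext x; simp
    rw [e1, e2, hadd _ _ (hre f hf) (hre g hg), hadd _ _ (him f hf) (him g hg)]
    show _ = ((M (fun x => (f x.toMul).re) : ℂ) + (M (fun x => (f x.toMul).im) : ℂ) * Complex.I) +
      ((M (fun x => (g x.toMul).re) : ℂ) + (M (fun x => (g x.toMul).im) : ℂ) * Complex.I)
    push_cast
    ring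
  have msmul : ∀ (c : ℂ) f, CB f → m (fun x => c * f x) = c * m f := by
    intro c f hf
    show ((M (fun x => (c * f x.toMul).re) : ℝ) : ℂ) +
      ((M (fun x => (c * f x.toMul).im) : ℝ) : ℂ) * Complex.I =
      c * ((M (fun x => (f x.toMul).re) : ℂ) + (M (fun x => (f x.toMul).im) : ℂ) * Complex.I)
    have b1 : ∀ a : ℝ, Gardner.Bdd (fun x : Additive G => a * (f x.toMul).re) := by
      intro a
      obtain ⟨C, hC⟩ := hre f hf
      exact ⟨|a| * C, fun x => by
        rw [abs_mul]; exact mul_le_mul_of_nonneg_left (hC x) (abs_nonneg _)⟩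
    have b2 : ∀ a : ℝ, Gardner.Bdd (fun x : Additive G => a * (f x.toMul).im) := by
      intro a
      obtain ⟨C, hC⟩ := him f hf
      exact ⟨|a| * C, fun x => by
        rw [abs_mul]; exact mul_le_mul_of_nonneg_left (hC x) (abs_nonneg _)⟩
    have e1 : (fun x : Additive G => (c * f x.toMul).re) =
      (fun x : Additive G => c.re * (f x.toMul).re) +
        fun x : Additive G => (-c.im) * (f x.toMul).im := by
      funext x; simp [Complex.mul_re]; ring
    have e2 : (fun x : Additive G => (c * f x.toMul).im) =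
      (fun x : Additive G => c.re * (f x.toMul).im) +
        fun x : Additive G => c.im * (f x.toMul).re := by
      funext x; simp [Complex.mul_im]
    rw [e1, e2, hadd _ _ (b1 _) (b2 _), hadd _ _ (b2 _) (b1 _), hsm _ (hre f hf),
      hsm _ (him f hf), hsm _ (him f hf), hsm _ (hre f hf)]
    apply Complex.ext
    · simp [Complex.mul_re, sub_eq_add_neg]
    · simp [Complex.mul_im]; try ring
  refine ⟨m, madd, msmul, ?_, ?_, ?_, ?_⟩
  · show ((M (fun _ => (1 : ℂ).re) : ℝ) : ℂ) + ((M (fun _ => (1 : ℂ).im) : ℝ) : ℂ) * Complex.I = 1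
    have h0 : M (fun _ => (0 : ℝ)) = 0 := by
      have := hle (fun _ => 0) 0 (fun x => by simp)
      exact abs_nonpos_iff.1 this
    simp only [Complex.one_re, Complex.one_im, hone, h0]
    simp
  · intro f C hC
    have hf : CB f := ⟨C, hC⟩
    by_cases h0 : m f = 0
    · rw [h0, norm_zero]
      have h1 := hle (fun x : Additive G => (f x.toMul).re) C
        fun x => (Complex.abs_re_le_norm _).trans (hC _)
      exact (abs_nonneg _).trans h1
    · set z : ℂ := (starRingEnd ℂ) (m f) / ‖m f‖ with hz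
      have hn : (‖m f‖ : ℂ) ≠ 0 := by
        exact_mod_cast norm_ne_zero_iff.2 h0
      have h1 : z * m f = (‖m f‖ : ℂ) := by
        rw [hz, div_mul_eq_mul_div, ← Complex.normSq_eq_conj_mul_self, div_eq_iff hn,
          Complex.normSq_eq_norm_sq]
        push_cast
        ring
      have hz1 : ‖z‖ = 1 := by
        rw [hz, norm_div, RCLike.norm_conj, Complex.norm_real, norm_norm]
        exact div_self (norm_ne_zero_iff.2 h0)
      have h2 := msmul z f hf
      rw [h1] at h2
      have h3 := congrArg Complex.re h2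
      have h4 : (m fun x => z * f x).re = M (fun x => (z * f x.toMul).re) := by
        show (((M (fun x => (z * f x.toMul).re) : ℝ) : ℂ) +
          ((M (fun x => (z * f x.toMul).im) : ℝ) : ℂ) * Complex.I).re = _
        simp
      rw [h4, Complex.ofReal_re] at h3
      rw [← h3]
      refine (le_abs_self _).trans (hle _ C fun x => ?_)
      refine (Complex.abs_re_le_norm _).trans ?_
      rw [norm_mul, hz1, one_mul]
      exact hC _
  · intro f a hf
    have h1 := hinv _ (Additive.ofMul a) (hre f hf)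
    have h2 := hinv _ (Additive.ofMul a) (him f hf)
    show ((M (fun x => (f (a * x.toMul)).re) : ℝ) : ℂ) +
      ((M (fun x => (f (a * x.toMul)).im) : ℝ) : ℂ) * Complex.I =
      ((M (fun x => (f x.toMul).re) : ℂ) + (M (fun x => (f x.toMul).im) : ℂ) * Complex.I)
    have e1 : M (fun x => (f (a * x.toMul)).re) = M (fun x => (f x.toMul).re) := h1
    have e2 : M (fun x => (f (a * x.toMul)).im) = M (fun x => (f x.toMul).im) := h2
    rw [e1, e2]
  · intro f hf
    show ((M (fun x => (conj (f x.toMul)).re) : ℝ) : ℂ) +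
      ((M (fun x => (conj (f x.toMul)).im) : ℝ) : ℂ) * Complex.I =
      conj ((M (fun x => (f x.toMul).re) : ℂ) + (M (fun x => (f x.toMul).im) : ℂ) * Complex.I)
    have e2 : (fun x : Additive G => (conj (f x.toMul)).im) =
        fun x => (-1 : ℝ) * (f x.toMul).im := by
      funext x; simp
    have e1 : (fun x : Additive G => (conj (f x.toMul)).re) = fun x => (f x.toMul).re := by
      funext x; simp
    rw [e1, e2, hsm _ (him f hf)]
    apply Complex.ext <;> simp

section avg

variable {H : Type*} [NormedAddCommGroup H] [InnerProductSpace ℂ H] [CompleteSpace H]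
variable {G : Type*} [CommGroup G]

/-- bounded operator valued functions -/
def BF (F : G → (H →L[ℂ] H)) : Prop := ∃ C : ℝ, ∀ g, ‖F g‖ ≤ C

theorem exists_av {m : (G → ℂ) → ℂ} (hm : IsCMean m) (F : G → (H →L[ℂ] H)) (C : ℝ)
    (hC : ∀ g, ‖F g‖ ≤ C) :
    ∃ T : H →L[ℂ] H, ‖T‖ ≤ C ∧ ∀ v w, ⟪T v, w⟫_ℂ = m (fun g => ⟪F g v, w⟫_ℂ) := by
  have hb : ∀ v w g, ‖⟪F g v, w⟫_ℂ‖ ≤ C * ‖v‖ * ‖w‖ := by
    intro v w g
    refine (norm_inner_le_norm _ _).trans ?_
    refine mul_le_mul_of_nonneg_right ?_ (norm_nonneg _)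
    exact ((F g).le_opNorm v).trans (mul_le_mul_of_nonneg_right (hC g) (norm_nonneg _))
  have hcb : ∀ v w, CB (fun g => ⟪F g v, w⟫_ℂ) := fun v w => ⟨_, hb v w⟩
  let B : H →L⋆[ℂ] H →L[ℂ] ℂ := LinearMap.mkContinuous₂
    (LinearMap.mk₂'ₛₗ (starRingEnd ℂ) (RingHom.id ℂ) (fun v w => m (fun g => ⟪F g v, w⟫_ℂ))
      (by
        intro v v' w
        rw [← hm.add _ _ (hcb v w) (hcb v' w)]
        congr 1
        funext g
        rw [map_add, inner_add_left])
      (by
        intro c v w
        rw [smul_eq_mul, ← hm.smul _ _ (hcb v w)]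
        congr 1
        funext g
        rw [map_smul, inner_smul_left])
      (by
        intro v w w'
        rw [← hm.add _ _ (hcb v w) (hcb v w')]
        congr 1
        funext g
        rw [inner_add_right])
      (by
        intro c v w
        rw [RingHom.id_apply, smul_eq_mul, ← hm.smul _ _ (hcb v w)]
        congr 1
        funext g
        rw [inner_smul_right])) C (by
        intro v w
        exact hm.le _ _ (hb v w))
  refine ⟨InnerProductSpace.continuousLinearMapOfBilin B, ?_, ?_⟩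
  · have hC0 : 0 ≤ C := (norm_nonneg _).trans (hC 1)
    refine ContinuousLinearMap.opNorm_le_bound _ hC0 fun v => ?_
    set T := InnerProductSpace.continuousLinearMapOfBilin B
    have h1 : ‖⟪T v, T v⟫_ℂ‖ ≤ C * ‖v‖ * ‖T v‖ := by
      rw [InnerProductSpace.continuousLinearMapOfBilin_apply]
      exact hm.le _ _ (hb v (T v))
    rw [inner_self_eq_norm_sq_to_K, norm_pow] at h1
    have h2 : ‖((‖T v‖ : ℝ) : ℂ)‖ = ‖T v‖ := by simp
    have h1 : ‖T v‖ ^ 2 ≤ C * ‖v‖ * ‖T v‖ := by
      have e : ‖((‖T v‖ : ℝ) : ℂ)‖ ^ 2 ≤ C * ‖v‖ * ‖T v‖ := h1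
      rwa [h2] at e
    by_cases h0 : ‖T v‖ = 0
    · rw [h0]
      positivity
    · have hp : 0 < ‖T v‖ := lt_of_le_of_ne (norm_nonneg _) (Ne.symm h0)
      nlinarith
  · intro v w
    rw [InnerProductSpace.continuousLinearMapOfBilin_apply]
    rfl

open Classical in
/-- The average of an operator valued function. -/
def av (m : (G → ℂ) → ℂ) (F : G → (H →L[ℂ] H)) : H →L[ℂ] H :=
  if h : ∃ T : H →L[ℂ] H, ∀ v w, ⟪T v, w⟫_ℂ = m (fun g => ⟪F g v, w⟫_ℂ) then h.choose else 0

variable {m : (G → ℂ) → ℂ} (hm : IsCMean m)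

include hm

theorem av_inner {F : G → (H →L[ℂ] H)} (hF : BF F) (v w : H) :
    ⟪av m F v, w⟫_ℂ = m (fun g => ⟪F g v, w⟫_ℂ) := by
  obtain ⟨C, hC⟩ := hF
  obtain ⟨T, -, hT⟩ := exists_av hm F C hC
  have h : ∃ T : H →L[ℂ] H, ∀ v w, ⟪T v, w⟫_ℂ = m (fun g => ⟪F g v, w⟫_ℂ) := ⟨T, hT⟩
  rw [av, dif_pos h]
  exact h.choose_spec v w

theorem av_unique {F : G → (H →L[ℂ] H)} (hF : BF F) {T : H →L[ℂ] H}
    (hT : ∀ v w, ⟪T v, w⟫_ℂ = m (fun g => ⟪F g v, w⟫_ℂ)) : av m F = T := by
  ext v
  refine ext_inner_right ℂ fun w => ?_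
  rw [av_inner hm hF, hT]

theorem av_norm_le {F : G → (H →L[ℂ] H)} {C : ℝ} (hC : ∀ g, ‖F g‖ ≤ C) : ‖av m F‖ ≤ C := by
  obtain ⟨T, hn, hT⟩ := exists_av hm F C hC
  rwa [av_unique hm ⟨C, hC⟩ hT]

omit [CompleteSpace H] hm in
theorem BF.cb {F : G → (H →L[ℂ] H)} (hF : BF F) (v w : H) : CB (fun g => ⟪F g v, w⟫_ℂ) := by
  obtain ⟨C, hC⟩ := hF
  refine ⟨C * ‖v‖ * ‖w‖, fun g => ?_⟩
  refine (norm_inner_le_norm _ _).trans ?_
  refine mul_le_mul_of_nonneg_right ?_ (norm_nonneg _)
  exact ((F g).le_opNorm v).trans (mul_le_mul_of_nonneg_right (hC g) (norm_nonneg _))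

omit [CompleteSpace H] hm in
theorem BF.add {F F' : G → (H →L[ℂ] H)} (hF : BF F) (hF' : BF F') : BF (fun g => F g + F' g) := by
  obtain ⟨C, hC⟩ := hF
  obtain ⟨C', hC'⟩ := hF'
  exact ⟨C + C', fun g => (norm_add_le _ _).trans (add_le_add (hC g) (hC' g))⟩

omit [CompleteSpace H] hm in
theorem BF.neg {F : G → (H →L[ℂ] H)} (hF : BF F) : BF (fun g => - F g) := by
  obtain ⟨C, hC⟩ := hF
  exact ⟨C, fun g => by rw [norm_neg]; exact hC g⟩

omit [CompleteSpace H] hm in
theorem BF.sub {F F' : G → (H →L[ℂ] H)} (hF : BF F) (hF' : BF F') : BF (fun g => F g - F' g) := by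
  obtain ⟨C, hC⟩ := hF
  obtain ⟨C', hC'⟩ := hF'
  exact ⟨C + C', fun g => (norm_sub_le _ _).trans (add_le_add (hC g) (hC' g))⟩

omit [CompleteSpace H] hm in
theorem BF.mul {F F' : G → (H →L[ℂ] H)} (hF : BF F) (hF' : BF F') : BF (fun g => F g * F' g) := by
  obtain ⟨C, hC⟩ := hF
  obtain ⟨C', hC'⟩ := hF'
  refine ⟨C * C', fun g => (norm_mul_le _ _).trans ?_⟩
  exact mul_le_mul (hC g) (hC' g) (norm_nonneg _) ((norm_nonneg _).trans (hC g))

omit [CompleteSpace H] hm in
theorem BF.const (T : H →L[ℂ] H) : BF (fun _ : G => T) := ⟨‖T‖, fun _ => le_rfl⟩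

omit hm in
theorem BF.star {F : G → (H →L[ℂ] H)} (hF : BF F) : BF (fun g => star (F g)) := by
  obtain ⟨C, hC⟩ := hF
  exact ⟨C, fun g => by rw [norm_star]; exact hC g⟩

omit [CompleteSpace H] hm in
theorem BF.shift {F : G → (H →L[ℂ] H)} (hF : BF F) (a : G) : BF (fun g => F (a * g)) := by
  obtain ⟨C, hC⟩ := hF
  exact ⟨C, fun g => hC _⟩

theorem av_add {F F' : G → (H →L[ℂ] H)} (hF : BF F) (hF' : BF F') :
    av m (fun g => F g + F' g) = av m F + av m F' := by
  refine av_unique hm (hF.add hF') fun v w => ?_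
  have h1 : ⟪(av m F + av m F') v, w⟫_ℂ = ⟪av m F v, w⟫_ℂ + ⟪av m F' v, w⟫_ℂ := inner_add_left _ _ _
  rw [h1, av_inner hm hF, av_inner hm hF', ← hm.add _ _ (hF.cb v w) (hF'.cb v w)]
  congr 1
  funext g
  exact (inner_add_left (F g v) (F' g v) w).symm

theorem av_mul_left (T : H →L[ℂ] H) {F : G → (H →L[ℂ] H)} (hF : BF F) :
    av m (fun g => T * F g) = T * av m F := by
  refine av_unique hm ((BF.const T).mul hF) fun v w => ?_
  have h1 : ⟪(T * av m F) v, w⟫_ℂ = ⟪av m F v, ContinuousLinearMap.adjoint T w⟫_ℂ :=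
    (ContinuousLinearMap.adjoint_inner_right T (av m F v) w).symm
  rw [h1, av_inner hm hF]
  congr 1
  funext g
  exact ContinuousLinearMap.adjoint_inner_right T (F g v) w

theorem av_mul_right (T : H →L[ℂ] H) {F : G → (H →L[ℂ] H)} (hF : BF F) :
    av m (fun g => F g * T) = av m F * T := by
  refine av_unique hm (hF.mul (BF.const T)) fun v w => ?_
  exact av_inner hm hF (T v) w

theorem av_const (T : H →L[ℂ] H) : av m (fun _ : G => T) = T := by
  refine av_unique hm (BF.const T) fun v w => ?_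
  have h := hm.smul ⟪T v, w⟫_ℂ (fun _ => 1) ⟨1, fun _ => by simp⟩
  simp only [hm.one, mul_one] at h
  exact h.symm

theorem av_neg {F : G → (H →L[ℂ] H)} (hF : BF F) : av m (fun g => - F g) = - av m F := by
  have h := av_mul_left hm (-1) hF
  simpa using h

theorem av_sub {F F' : G → (H →L[ℂ] H)} (hF : BF F) (hF' : BF F') :
    av m (fun g => F g - F' g) = av m F - av m F' := by
  have h := av_add hm hF hF'.neg
  rw [av_neg hm hF'] at h
  simpa [sub_eq_add_neg] using h

theorem av_inv (a : G) {F : G → (H →L[ℂ] H)} (hF : BF F) :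
    av m (fun g => F (a * g)) = av m F := by
  refine av_unique hm (hF.shift a) fun v w => ?_
  rw [av_inner hm hF]
  exact (hm.inv (fun g => ⟪F g v, w⟫_ℂ) a (hF.cb v w)).symm

theorem av_star {F : G → (H →L[ℂ] H)} (hF : BF F) :
    av m (fun g => star (F g)) = star (av m F) := by
  refine av_unique hm hF.star fun v w => ?_
  rw [ContinuousLinearMap.star_eq_adjoint, ContinuousLinearMap.adjoint_inner_left,
    ← inner_conj_symm, av_inner hm hF, ← hm.cnj _ (hF.cb w v)]
  congr 1
  funext g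
  rw [inner_conj_symm, ContinuousLinearMap.star_eq_adjoint,
    ContinuousLinearMap.adjoint_inner_left]

theorem av_comm {F : G → (H →L[ℂ] H)} (hF : BF F) (T : H →L[ℂ] H)
    (h : ∀ g, T * F g = F g * T) : T * av m F = av m F * T := by
  rw [← av_mul_left hm T hF, ← av_mul_right hm T hF]
  congr 1
  funext g
  exact h g

/-- averages stay in a von Neumann algebra -/
theorem av_mem {F : G → (H →L[ℂ] H)} (hF : BF F) (P : VonNeumannAlgebra H)
    (h : ∀ g, F g ∈ P) : av m F ∈ P := by
  rw [← P.commutant_commutant, VonNeumannAlgebra.mem_commutant_iff]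
  intro z hz
  refine av_comm hm hF z fun g => ?_
  rw [VonNeumannAlgebra.mem_commutant_iff] at hz
  exact (hz (F g) (h g)).symm

end avg

end Pool.Agent.N242.KK
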