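import Mathlib
import Pool.Agent.N242.KK.Av

/-!
Almost multiplicative maps from commutative groups to von Neumann algebras.
-/

set_option autoImplicit false
set_option linter.unusedSectionVars false

open scoped InnerProductSpace ComplexConjugate
open Filter Topology

noncomputable section

namespace Pool.Agent.N242.KK

variable {H : Type*} [NormedAddCommGroup H] [InnerProductSpace ℂ H] [CompleteSpace H]

/-- inverses of operators close to invertible ones -/
theorem inv_near (P : VonNeumannAlgebra H) (U V T : H →L[ℂ] H) (hUV : U * V = 1)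
    (hVU : V * U = 1) (hV : ‖V‖ ≤ 1) (hT : T ∈ P) (h : ‖T - U‖ ≤ 1 / 2) :
    ∃ S ∈ P, T * S = 1 ∧ S * T = 1 ∧ ‖S‖ ≤ 2 := by
  have h1 : ‖1 - V * T‖ < 1 := by
    have e : 1 - V * T = V * (U - T) := by rw [mul_sub, hVU]
    rw [e]
    refine (norm_mul_le _ _).trans_lt ?_
    rw [norm_sub_rev]
    have : ‖V‖ * ‖T - U‖ ≤ 1 * (1 / 2) := mul_le_mul hV h (norm_nonneg _) zero_le_one
    linarith
  let u : (H →L[ℂ] H)ˣ := Units.oneSub (1 - V * T) h1
  have hu : (u : H →L[ℂ] H) = V * T := by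
    rw [Units.val_oneSub]; abel
  set S : H →L[ℂ] H := (↑u⁻¹ : H →L[ℂ] H) * V with hS
  have hST : S * T = 1 := by
    rw [hS, mul_assoc, ← hu]
    exact u.inv_mul
  have hTS : T * S = 1 := by
    have h2 : V * T * ↑u⁻¹ = 1 := by rw [← hu]; exact u.mul_inv
    calc T * S = U * (V * T * ↑u⁻¹) * V := by
          rw [hS, ← mul_assoc, ← mul_assoc, ← mul_assoc, hUV, one_mul]
      _ = 1 := by rw [h2, mul_one, hUV]
  refine ⟨S, ?_, hTS, hST, ?_⟩
  · rw [← P.commutant_commutant, VonNeumannAlgebra.mem_commutant_iff]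
    intro z hz
    rw [VonNeumannAlgebra.mem_commutant_iff] at hz
    have hzT := hz T hT
    calc z * S = (S * T) * z * S := by rw [hST, one_mul]
      _ = S * (T * z) * S := by noncomm_ring
      _ = S * (z * T) * S := by rw [hzT]
      _ = S * z * (T * S) := by noncomm_ring
      _ = S * z := by rw [hTS, mul_one]
  · have e : S = V + S * (U - T) * V := by
      rw [mul_sub, hST, sub_mul, one_mul, mul_assoc, hUV, mul_one]; abel
    have h3 : ‖S‖ ≤ 1 + ‖S‖ * (1 / 2) := by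
      calc ‖S‖ = ‖V + S * (U - T) * V‖ := by rw [← e]
        _ ≤ ‖V‖ + ‖S * (U - T) * V‖ := norm_add_le _ _
        _ ≤ 1 + ‖S‖ * (1 / 2) := by
          refine add_le_add hV ?_
          refine (norm_mul_le _ _).trans ?_
          have h4 : ‖S * (U - T)‖ ≤ ‖S‖ * (1 / 2) := by
            refine (norm_mul_le _ _).trans ?_
            rw [norm_sub_rev U T]
            exact mul_le_mul_of_nonneg_left h (norm_nonneg _)
          calc ‖S * (U - T)‖ * ‖V‖ ≤ (‖S‖ * (1 / 2)) * 1 :=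
                mul_le_mul h4 hV (norm_nonneg _) (by positivity)
            _ = ‖S‖ * (1 / 2) := mul_one _
    linarith

variable {G : Type*} [CommGroup G]

/-- unitary as operator: norm at most one -/
theorem unitary_norm_le (u : unitary (H →L[ℂ] H)) : ‖(u : H →L[ℂ] H)‖ ≤ 1 := by
  refine ContinuousLinearMap.opNorm_le_bound _ zero_le_one fun x => ?_
  rw [one_mul]
  have h : ‖(u : H →L[ℂ] H) x‖ = ‖x‖ := by
    have h1 : ⟪(u : H →L[ℂ] H) x, (u : H →L[ℂ] H) x⟫_ℂ = ⟪x, x⟫_ℂ := by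
      rw [← ContinuousLinearMap.adjoint_inner_right, ← ContinuousLinearMap.star_eq_adjoint]
      have h2 : star (u : H →L[ℂ] H) ((u : H →L[ℂ] H) x) = x := by
        have := congrArg (fun T : H →L[ℂ] H => T x) (Unitary.star_mul_self_of_mem u.2)
        exact this
      rw [h2]
    have h3 := congrArg Complex.re h1
    have h4 : ‖(u : H →L[ℂ] H) x‖ ^ 2 = ‖x‖ ^ 2 := by
      rw [← inner_self_eq_norm_sq (𝕜 := ℂ), ← inner_self_eq_norm_sq (𝕜 := ℂ)]
      exact h3
    exact (pow_left_inj₀ (norm_nonneg _) (norm_nonneg _) two_ne_zero).1 h4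
  rw [h]

theorem step (P : VonNeumannAlgebra H) (ρ : G →* unitary (H →L[ℂ] H)) (f : G → (H →L[ℂ] H))
    (hf : ∀ g, f g ∈ P) (hρ : ∀ g, ‖f g - (ρ g : H →L[ℂ] H)‖ ≤ 1 / 2) (δ : ℝ)
    (hδ : ∀ g h, ‖f (g * h) - f g * f h‖ ≤ δ) :
    ∃ f' : G → (H →L[ℂ] H), (∀ g, f' g ∈ P) ∧ (∀ g, ‖f' g - f g‖ ≤ 2 * δ) ∧
      ∀ g h, ‖f' (g * h) - f' g * f' h‖ ≤ 16 * δ ^ 2 := by
  obtain ⟨m, hm⟩ := exists_cmean G
  have hinv : ∀ g, ∃ S ∈ P, f g * S = 1 ∧ S * f g = 1 ∧ ‖S‖ ≤ 2 := by
    intro g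
    refine inv_near P (ρ g) (star (ρ g : H →L[ℂ] H)) (f g) ?_ ?_ ?_ (hf g) (hρ g)
    · exact Unitary.mul_star_self_of_mem (ρ g).2
    · exact Unitary.star_mul_self_of_mem (ρ g).2
    · rw [norm_star]; exact unitary_norm_le _
  choose S hSP hfS hSf hSn using hinv
  have hδ0 : 0 ≤ δ := (norm_nonneg _).trans (hδ 1 1)
  -- the cocycle
  let c : G → G → (H →L[ℂ] H) := fun g h => f (g * h) * S h
  have hcf : ∀ g h, ‖c g h - f g‖ ≤ 2 * δ := by
    intro g h
    have e : c g h - f g = (f (g * h) - f g * f h) * S h := by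
      rw [sub_mul, mul_assoc, hfS, mul_one]
    rw [e]
    refine (norm_mul_le _ _).trans ?_
    calc ‖f (g * h) - f g * f h‖ * ‖S h‖ ≤ δ * 2 :=
          mul_le_mul (hδ g h) (hSn h) (norm_nonneg _) hδ0
      _ = 2 * δ := by ring
  have hcB : ∀ g, BF (c g) := by
    intro g
    refine ⟨2 * δ + ‖f g‖, fun h => ?_⟩
    calc ‖c g h‖ = ‖(c g h - f g) + f g‖ := by rw [sub_add_cancel]
      _ ≤ _ := (norm_add_le _ _).trans (add_le_add (hcf g h) le_rfl)
  have hcP : ∀ g h, c g h ∈ P := fun g h => mul_mem (hf _) (hSP _)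
  let F : G → (H →L[ℂ] H) := fun g => av m (c g)
  have hFf : ∀ g, ‖F g - f g‖ ≤ 2 * δ := by
    intro g
    have e : F g - f g = av m (fun h => c g h - f g) := by
      rw [av_sub hm (hcB g) (BF.const _), av_const hm]
    rw [e]
    exact av_norm_le hm (hcf g)
  have hcF : ∀ g h, ‖c g h - F g‖ ≤ 4 * δ := by
    intro g h
    calc ‖c g h - F g‖ = ‖(c g h - f g) - (F g - f g)‖ := by rw [sub_sub_sub_cancel_right]
      _ ≤ ‖c g h - f g‖ + ‖F g - f g‖ := norm_sub_le _ _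
      _ ≤ 4 * δ := by linarith [hcf g h, hFf g]
  refine ⟨F, fun g => av_mem hm (hcB g) P (hcP g), hFf, ?_⟩
  intro g k
  -- key identity
  have hcm : ∀ h, c g (k * h) * c k h = c (g * k) h := by
    intro h
    show f (g * (k * h)) * S (k * h) * (f (k * h) * S h) = f (g * k * h) * S h
    calc f (g * (k * h)) * S (k * h) * (f (k * h) * S h)
        = f (g * (k * h)) * (S (k * h) * f (k * h)) * S h := by noncomm_ring
      _ = f (g * (k * h)) * S h := by rw [hSf, mul_one]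
      _ = f (g * k * h) * S h := by rw [mul_assoc g k h]
  have hsh : BF (fun h => c g (k * h)) := (hcB g).shift k
  have e1 : av m (fun h => (c g (k * h) - F g) * (c k h - F k)) = F (g * k) - F g * F k := by
    have e2 : (fun h => (c g (k * h) - F g) * (c k h - F k)) =
        fun h => (c (g * k) h - F g * c k h) - (c g (k * h) * F k - F g * F k) := by
      funext h
      rw [sub_mul, mul_sub, mul_sub, hcm]
      abel
    have b1 : BF (fun h => F g * c k h) := (BF.const (F g)).mul (hcB k)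
    have b2 : BF (fun h => c g (k * h) * F k) := hsh.mul (BF.const (F k))
    rw [e2, av_sub hm ((hcB _).sub b1) (b2.sub (BF.const _)), av_sub hm (hcB _) b1,
      av_sub hm b2 (BF.const _), av_mul_left hm (F g) (hcB k), av_mul_right hm (F k) hsh,
      av_inv hm k (hcB g), av_const hm]
    show F (g * k) - F g * F k - (F g * F k - F g * F k) = _
    abel
  rw [← e1]
  refine av_norm_le hm fun h => ?_
  refine (norm_mul_le _ _).trans ?_
  calc ‖c g (k * h) - F g‖ * ‖c k h - F k‖ ≤ (4 * δ) * (4 * δ) :=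
        mul_le_mul (hcF g _) (hcF k h) (norm_nonneg _) (by positivity)
    _ = 16 * δ ^ 2 := by ring

/-- The limit: a multiplicative map. -/
theorem exists_mult (P : VonNeumannAlgebra H) (ρ : G →* unitary (H →L[ℂ] H)) (ε : ℝ)
    (hε : 0 ≤ ε) (hε1 : ε ≤ 1 / 128) (hnear : ∀ g, ∃ y ∈ P, ‖(ρ g : H →L[ℂ] H) - y‖ ≤ ε) :
    ∃ π : G → (H →L[ℂ] H), (∀ g, π g ∈ P) ∧ (∀ g, ‖π g - (ρ g : H →L[ℂ] H)‖ ≤ 17 * ε) ∧
      ∀ g h, π (g * h) = π g * π h := by
  choose y hy hyε using hnear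
  have hρn : ∀ g, ‖(ρ g : H →L[ℂ] H)‖ ≤ 1 := fun g => unitary_norm_le _
  -- the property of stage `n`
  let Q : ℕ → (G → (H →L[ℂ] H)) → Prop := fun n f => (∀ g, f g ∈ P) ∧
    (∀ g, ‖f g - (ρ g : H →L[ℂ] H)‖ ≤ ε + 16 * ε * (1 - (1 / 2) ^ n)) ∧
    ∀ g h, ‖f (g * h) - f g * f h‖ ≤ 4 * ε * (1 / 2) ^ n
  have h0 : Q 0 y := by
    refine ⟨hy, fun g => ?_, fun g h => ?_⟩
    · rw [norm_sub_rev]
      simpa using hyε g
    · have e : y (g * h) - y g * y h = (y (g * h) - (ρ (g * h) : H →L[ℂ] H)) +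
          (((ρ g : H →L[ℂ] H) - y g) * (ρ h : H →L[ℂ] H) +
            y g * ((ρ h : H →L[ℂ] H) - y h)) := by
        rw [map_mul]
        show _ = (y (g * h) - ((ρ g : H →L[ℂ] H) * (ρ h : H →L[ℂ] H))) + _
        noncomm_ring
      have hyn : ‖y g‖ ≤ 1 + ε := by
        calc ‖y g‖ = ‖(ρ g : H →L[ℂ] H) - ((ρ g : H →L[ℂ] H) - y g)‖ := by rw [sub_sub_cancel]
          _ ≤ 1 + ε := (norm_sub_le _ _).trans (add_le_add (hρn g) (hyε g))
      rw [e]
      have t1 : ‖y (g * h) - (ρ (g * h) : H →L[ℂ] H)‖ ≤ ε := by rw [norm_sub_rev]; exact hyε _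
      have t2 : ‖((ρ g : H →L[ℂ] H) - y g) * (ρ h : H →L[ℂ] H)‖ ≤ ε := by
        refine (norm_mul_le _ _).trans ?_
        calc _ ≤ ε * 1 := mul_le_mul (hyε g) (hρn h) (norm_nonneg _) hε
          _ = ε := mul_one _
      have t3 : ‖y g * ((ρ h : H →L[ℂ] H) - y h)‖ ≤ (1 + ε) * ε := by
        refine (norm_mul_le _ _).trans ?_
        exact mul_le_mul hyn (hyε h) (norm_nonneg _) (by linarith)
      calc _ ≤ ε + (ε + (1 + ε) * ε) :=
            (norm_add_le _ _).trans (add_le_add t1 ((norm_add_le _ _).trans (add_le_add t2 t3)))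
        _ ≤ 4 * ε * (1 / 2) ^ 0 := by
          rw [pow_zero, mul_one]
          nlinarith
  have hstep : ∀ n f, Q n f → ∃ f', Q (n + 1) f' ∧ ∀ g, ‖f' g - f g‖ ≤ 8 * ε * (1 / 2) ^ n := by
    rintro n f ⟨h1, h2, h3⟩
    have hp : (0 : ℝ) < (1 / 2) ^ n := by positivity
    have hp1 : ((1 : ℝ) / 2) ^ n ≤ 1 := pow_le_one₀ (by norm_num) (by norm_num)
    have h4 : ∀ g, ‖f g - (ρ g : H →L[ℂ] H)‖ ≤ 1 / 2 := by
      intro g
      refine (h2 g).trans ?_
      nlinarith
    obtain ⟨f', g1, g2, g3⟩ := step P ρ f h1 h4 _ h3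
    refine ⟨f', ⟨g1, fun g => ?_, fun g h => ?_⟩, fun g => ?_⟩
    · calc ‖f' g - (ρ g : H →L[ℂ] H)‖ = ‖(f' g - f g) + (f g - (ρ g : H →L[ℂ] H))‖ := by
            rw [sub_add_sub_cancel]
        _ ≤ 2 * (4 * ε * (1 / 2) ^ n) + (ε + 16 * ε * (1 - (1 / 2) ^ n)) :=
          (norm_add_le _ _).trans (add_le_add (g2 g) (h2 g))
        _ ≤ ε + 16 * ε * (1 - (1 / 2) ^ (n + 1)) := by
          rw [pow_succ]
          linarith
    · refine (g3 g h).trans ?_
      have e7 : ((1 : ℝ) / 2) ^ (n + 1) = (1 / 2) ^ n * (1 / 2) := pow_succ _ _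
      rw [e7]
      have : 16 * (4 * ε * (1 / 2) ^ n) ^ 2 = 4 * ε * (1 / 2) ^ n * (64 * ε * (1 / 2) ^ n) := by ring
      rw [this]
      have h5 : 64 * ε * (1 / 2) ^ n ≤ 1 / 2 := by nlinarith
      have h6 : 0 ≤ 4 * ε * (1 / 2) ^ n := by positivity
      nlinarith
    · refine (g2 g).trans ?_
      linarith
  choose! nx hnx1 hnx2 using hstep
  let F : ℕ → (G → (H →L[ℂ] H)) := fun n => Nat.rec y (fun n f => nx n f) n
  have hF : ∀ n, Q n (F n) := by
    intro n
    induction n with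
    | zero => exact h0
    | succ n ih => exact hnx1 n _ ih
  have hFd : ∀ n g, ‖F (n + 1) g - F n g‖ ≤ 8 * ε * (1 / 2) ^ n := fun n g => hnx2 n _ (hF n) g
  have hcau : ∀ g, CauchySeq (fun n => F n g) := by
    intro g
    refine cauchySeq_of_le_geometric (1 / 2) (8 * ε) (by norm_num) fun n => ?_
    rw [dist_comm, dist_eq_norm]
    exact hFd n g
  have hlim : ∀ g, ∃ T, Tendsto (fun n => F n g) atTop (𝓝 T) := fun g =>
    cauchySeq_tendsto_of_complete (hcau g)
  choose π hπ using hlim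
  have hclosed : IsClosed (P : Set (H →L[ℂ] H)) := by
    have h : (P : Set (H →L[ℂ] H)) = Set.centralizer (Set.centralizer (P : Set (H →L[ℂ] H))) :=
      (VonNeumannAlgebra.centralizer_centralizer P).symm
    rw [h]
    exact Set.isClosed_centralizer _
  refine ⟨π, fun g => ?_, fun g => ?_, fun g h => ?_⟩
  · exact hclosed.mem_of_tendsto (hπ g) (Eventually.of_forall fun n => (hF n).1 g)
  · have h1 : Tendsto (fun n => ‖F n g - (ρ g : H →L[ℂ] H)‖) atTop
        (𝓝 ‖π g - (ρ g : H →L[ℂ] H)‖) := ((hπ g).sub_const _).norm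
    refine le_of_tendsto h1 (Eventually.of_forall fun n => ?_)
    refine ((hF n).2.1 g).trans ?_
    have hp : (0 : ℝ) < (1 / 2) ^ n := by positivity
    nlinarith
  · have h1 : Tendsto (fun n => F n (g * h) - F n g * F n h) atTop
        (𝓝 (π (g * h) - π g * π h)) := (hπ (g * h)).sub ((hπ g).mul (hπ h))
    have h2 : Tendsto (fun n => F n (g * h) - F n g * F n h) atTop (𝓝 0) := by
      refine squeeze_zero_norm (fun n => (hF n).2.2 g h) ?_
      have := (tendsto_pow_atTop_nhds_zero_of_lt_one (r := (1 : ℝ) / 2) (by norm_num)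
        (by norm_num)).const_mul (4 * ε)
      simpa using this
    exact sub_eq_zero.1 (tendsto_nhds_unique h1 h2)

end Pool.Agent.N242.KK
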