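import Mathlib
import Pool.Agent.N242.KK.Kazh

/-!
Unitary perturbations: commuting unitaries close to a von Neumann algebra can be moved into it by
a unitary close to the identity.
-/

set_option autoImplicit false
set_option linter.unusedSectionVars false

open scoped InnerProductSpace ComplexConjugate
open Filter Topology

noncomputable section

namespace Pool.Agent.N242.KK

variable {H : Type*} [NormedAddCommGroup H] [InnerProductSpace ℂ H] [CompleteSpace H]

/-- square roots of operators close to the identity -/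
theorem sqrt_near [Nontrivial H] (S : H →L[ℂ] H) (hS : IsSelfAdjoint S) (t : ℝ)
    (ht : t ≤ 1 / 2) (h : ‖S - 1‖ ≤ t) :
    ∃ R R' : H →L[ℂ] H, star R = R ∧ R * R = S ∧ ‖R - 1‖ ≤ t ∧ R * R' = 1 ∧ R' * R = 1 ∧
      star R' = R' ∧ ‖R'‖ ≤ 2 ∧ (∀ z, z * S = S * z → z * R = R * z) ∧
      (∀ z, z * S = S * z → z * R' = R' * z) := by
  have ht0 : 0 ≤ t := (norm_nonneg _).trans h
  have hsp : ∀ x ∈ spectrum ℝ S, |x - 1| ≤ t := by
    intro x hx
    have h1 : x - 1 ∈ spectrum ℝ (S - 1) := by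
      have h2 := spectrum.sub_singleton_eq (R := ℝ) S 1
      rw [Algebra.algebraMap_eq_smul_one, one_smul] at h2
      rw [← h2]
      exact Set.sub_mem_sub hx (Set.mem_singleton 1)
    have h3 := spectrum.norm_le_norm_of_mem h1
    rw [Real.norm_eq_abs] at h3
    exact h3.trans h
  have hpos : ∀ x ∈ spectrum ℝ S, 0 ≤ x := by
    intro x hx
    have := hsp x hx
    rw [abs_le] at this
    linarith [this.1]
  set R : H →L[ℂ] H := cfc (fun x : ℝ => Real.sqrt x) S with hR
  have hRs : IsSelfAdjoint R := cfc_predicate _ S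
  have hRR : R * R = S := by
    rw [hR, ← cfc_mul (fun x : ℝ => Real.sqrt x) (fun x : ℝ => Real.sqrt x) S]
    have e : cfc (fun x : ℝ => Real.sqrt x * Real.sqrt x) S = cfc (fun x : ℝ => x) S :=
      cfc_congr fun x hx => Real.mul_self_sqrt (hpos x hx)
    rw [e, cfc_id' ℝ S]
  have hR1 : ‖R - 1‖ ≤ t := by
    have e : R - 1 = cfc (fun x : ℝ => Real.sqrt x - 1) S := by
      rw [cfc_sub (fun x : ℝ => Real.sqrt x) (fun _ : ℝ => (1 : ℝ)) S, cfc_const_one ℝ S]
    rw [e]
    refine norm_cfc_le ht0 fun x hx => ?_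
    rw [Real.norm_eq_abs]
    have h0 := hpos x hx
    have h1 := hsp x hx
    have h2 : x - 1 = (Real.sqrt x - 1) * (Real.sqrt x + 1) := by
      have := Real.mul_self_sqrt h0
      ring_nf
      rw [Real.sq_sqrt h0]
    rw [h2, abs_mul, abs_of_pos (by positivity : 0 < Real.sqrt x + 1)] at h1
    have h3 := Real.sqrt_nonneg x
    nlinarith [abs_nonneg (Real.sqrt x - 1)]
  have hcomm : ∀ z, z * S = S * z → z * R = R * z := by
    intro z hz
    have h1 : Commute S z := hz.symm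
    exact ((h1.cfc_real (fun x : ℝ => Real.sqrt x)).eq).symm
  have hlt : ‖1 - R‖ < 1 := by
    rw [norm_sub_rev]
    linarith
  let u : (H →L[ℂ] H)ˣ := Units.oneSub (1 - R) hlt
  have hu : (u : H →L[ℂ] H) = R := by
    rw [Units.val_oneSub]; abel
  set R' : H →L[ℂ] H := (↑u⁻¹ : H →L[ℂ] H) with hR'
  have e1 : R * R' = 1 := by rw [← hu]; exact u.mul_inv
  have e2 : R' * R = 1 := by rw [← hu]; exact u.inv_mul
  have e3 : star R' = R' := by
    have h1 := congrArg star e1
    rw [star_mul, star_one, hRs.star_eq] at h1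
    calc star R' = star R' * (R * R') := by rw [e1, mul_one]
      _ = R' := by rw [← mul_assoc, h1, one_mul]
  have e4 : ‖R'‖ ≤ 2 := by
    have h1 : R' = 1 - R' * (R - 1) := by rw [mul_sub, e2, mul_one]; abel
    have h2 : ‖R'‖ ≤ 1 + ‖R'‖ * (1 / 2) := by
      calc ‖R'‖ = ‖1 - R' * (R - 1)‖ := by rw [← h1]
        _ ≤ ‖(1 : H →L[ℂ] H)‖ + ‖R' * (R - 1)‖ := norm_sub_le _ _
        _ ≤ 1 + ‖R'‖ * (1 / 2) := by
          refine add_le_add (by rw [norm_one]) ((norm_mul_le _ _).trans ?_)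
          exact mul_le_mul_of_nonneg_left (hR1.trans ht) (norm_nonneg _)
    linarith
  refine ⟨R, R', hRs.star_eq, hRR, hR1, e1, e2, e3, e4, hcomm, fun z hz => ?_⟩
  have h1 := hcomm z hz
  calc z * R' = (R' * R) * z * R' := by rw [e2, one_mul]
    _ = R' * (R * z) * R' := by noncomm_ring
    _ = R' * (z * R) * R' := by rw [h1]
    _ = R' * z * (R * R') := by noncomm_ring
    _ = R' * z := by rw [e1, mul_one]

variable {G : Type*} [CommGroup G]

/-- **Perturbation theorem.** -/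
theorem pert [Nontrivial H] (P : VonNeumannAlgebra H) (ρ : G →* unitary (H →L[ℂ] H)) (ε : ℝ)
    (hε : 0 ≤ ε) (hε1 : ε ≤ 1 / 10000) (hnear : ∀ g, ∃ y ∈ P, ‖(ρ g : H →L[ℂ] H) - y‖ ≤ ε) :
    ∃ u : unitary (H →L[ℂ] H), ‖(u : H →L[ℂ] H) - 1‖ ≤ 3000 * ε ∧
      (∀ g, (u : H →L[ℂ] H) * (ρ g : H →L[ℂ] H) * star (u : H →L[ℂ] H) ∈ P) ∧
      ∀ z : H →L[ℂ] H, (∀ g, z * (ρ g : H →L[ℂ] H) = (ρ g : H →L[ℂ] H) * z) →
        (∀ y ∈ P, z * y = y * z) → z * (u : H →L[ℂ] H) = (u : H →L[ℂ] H) * z := by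
  obtain ⟨m, hm⟩ := exists_cmean G
  obtain ⟨π, hπP, hπρ, hπm⟩ := exists_mult P ρ ε hε (by linarith) hnear
  have hρn : ∀ g, ‖(ρ g : H →L[ℂ] H)‖ ≤ 1 := fun g => unitary_norm_le _
  have hρs : ∀ g, (ρ g : H →L[ℂ] H) * star (ρ g : H →L[ℂ] H) = 1 := fun g =>
    Unitary.mul_star_self_of_mem (ρ g).2
  have hρs' : ∀ g, star (ρ g : H →L[ℂ] H) * (ρ g : H →L[ℂ] H) = 1 := fun g =>
    Unitary.star_mul_self_of_mem (ρ g).2
  set r : ℝ := 17 * ε with hr
  have hr0 : 0 ≤ r := by positivity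
  have hr1 : r ≤ 17 / 10000 := by rw [hr]; linarith
  have hπn : ∀ g, ‖π g‖ ≤ 1 + r := by
    intro g
    calc ‖π g‖ = ‖(π g - (ρ g : H →L[ℂ] H)) + (ρ g : H →L[ℂ] H)‖ := by rw [sub_add_cancel]
      _ ≤ r + 1 := (norm_add_le _ _).trans (add_le_add (hπρ g) (hρn g))
      _ = 1 + r := add_comm _ _
  have hπ1 : π 1 = 1 := by
    obtain ⟨S, -, hS1, hS2, -⟩ := inv_near P (ρ 1) (star (ρ 1 : H →L[ℂ] H)) (π 1) (hρs 1) (hρs' 1)
      (by rw [norm_star]; exact hρn 1) (hπP 1) ((hπρ 1).trans (by linarith))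
    have h1 : π 1 * π 1 = π 1 := by rw [← hπm, mul_one]
    calc π 1 = S * π 1 * π 1 := by rw [hS2, one_mul]
      _ = S * π 1 := by rw [mul_assoc, h1]
      _ = 1 := hS2
  have hB : BF (fun g => π g * star (π g)) := by
    refine ⟨(1 + r) * (1 + r), fun g => (norm_mul_le _ _).trans ?_⟩
    rw [norm_star]
    exact mul_le_mul (hπn g) (hπn g) (norm_nonneg _) (by linarith)
  set S := av m (fun g => π g * star (π g)) with hSdef
  have hSP : S ∈ P := av_mem hm hB P fun g => mul_mem (hπP g) (star_mem (hπP g))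
  have hSs : star S = S := by
    rw [hSdef, ← av_star hm hB]
    congr 1
    funext g
    rw [star_mul, star_star]
  have hSinv : ∀ h, π h * S * star (π h) = S := by
    intro h
    rw [hSdef, ← av_mul_left hm (π h) hB, ← av_mul_right hm _ ((BF.const (π h)).mul hB),
      ← av_inv hm h hB]
    congr 1
    funext g
    rw [hπm, star_mul]
    noncomm_ring
  have hS1 : ‖S - 1‖ ≤ 3 * r := by
    have e : S - 1 = av m (fun g => π g * star (π g) - 1) := by
      rw [av_sub hm hB (BF.const _), av_const hm]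
    rw [e]
    refine av_norm_le hm fun g => ?_
    have e2 : π g * star (π g) - 1 = (π g - (ρ g : H →L[ℂ] H)) * star (π g) +
        (ρ g : H →L[ℂ] H) * star (π g - (ρ g : H →L[ℂ] H)) := by
      rw [star_sub, mul_sub, hρs, sub_mul]
      abel
    rw [e2]
    have t1 : ‖(π g - (ρ g : H →L[ℂ] H)) * star (π g)‖ ≤ r * (1 + r) := by
      refine (norm_mul_le _ _).trans ?_
      rw [norm_star]
      exact mul_le_mul (hπρ g) (hπn g) (norm_nonneg _) hr0
    have t2 : ‖(ρ g : H →L[ℂ] H) * star (π g - (ρ g : H →L[ℂ] H))‖ ≤ 1 * r := by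
      refine (norm_mul_le _ _).trans ?_
      rw [norm_star]
      exact mul_le_mul (hρn g) (hπρ g) (norm_nonneg _) zero_le_one
    calc _ ≤ r * (1 + r) + 1 * r := (norm_add_le _ _).trans (add_le_add t1 t2)
      _ ≤ 3 * r := by nlinarith
  obtain ⟨R, R', hRs, hRR, hR1, hRR', hR'R, hR's, hR'n, hRc, hR'c⟩ :=
    sqrt_near S hSs (3 * r) (by linarith) hS1
  -- elements commuting with everything commute with `R`
  have hmemP : ∀ T : H →L[ℂ] H, (∀ z ∈ P.commutant, z * T = T * z) → T ∈ P := by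
    intro T hT
    rw [← P.commutant_commutant, VonNeumannAlgebra.mem_commutant_iff]
    exact hT
  have hcP : ∀ z ∈ P.commutant, ∀ y ∈ P, z * y = y * z := by
    intro z hz y hy
    rw [VonNeumannAlgebra.mem_commutant_iff] at hz
    exact (hz y hy).symm
  have hRP : R ∈ P := hmemP R fun z hz => hRc z (hcP z hz S hSP)
  have hR'P : R' ∈ P := hmemP R' fun z hz => hR'c z (hcP z hz S hSP)
  have hRn : ‖R‖ ≤ 2 := by
    calc ‖R‖ = ‖(R - 1) + 1‖ := by rw [sub_add_cancel]
      _ ≤ 3 * r + 1 := (norm_add_le _ _).trans (add_le_add hR1 (by rw [norm_one]))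
      _ ≤ 2 := by linarith
  -- the unitary representation in `P`
  let σ : G → (H →L[ℂ] H) := fun g => R' * π g * R
  have hσP : ∀ g, σ g ∈ P := fun g => mul_mem (mul_mem hR'P (hπP g)) hRP
  have hσm : ∀ g h, σ (g * h) = σ g * σ h := by
    intro g h
    show R' * π (g * h) * R = R' * π g * R * (R' * π h * R)
    calc R' * π (g * h) * R = R' * π g * (R * R') * π h * R := by
          rw [hRR', mul_one, hπm]; noncomm_ring
      _ = _ := by noncomm_ring
  have hσ1 : σ 1 = 1 := by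
    show R' * π 1 * R = 1
    rw [hπ1, mul_one, hR'R]
  have hσs : ∀ g, σ g * star (σ g) = 1 := by
    intro g
    show R' * π g * R * star (R' * π g * R) = 1
    rw [star_mul, star_mul, hRs, hR's]
    calc R' * π g * R * (R * (star (π g) * R')) = R' * (π g * (R * R) * star (π g)) * R' := by
          noncomm_ring
      _ = R' * (R * R) * R' := by rw [hRR, hSinv]
      _ = (R' * R) * (R * R') := by noncomm_ring
      _ = 1 := by rw [hR'R, hRR', one_mul]
  have hσs' : ∀ g, star (σ g) * σ g = 1 := by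
    intro g
    have h1 : σ g⁻¹ * σ g = 1 := by rw [← hσm, inv_mul_cancel, hσ1]
    have h2 : star (σ g) = σ g⁻¹ := by
      calc star (σ g) = (σ g⁻¹ * σ g) * star (σ g) := by rw [h1, one_mul]
        _ = σ g⁻¹ := by rw [mul_assoc, hσs, mul_one]
    rw [h2, h1]
  have hσρ : ∀ g, ‖σ g - (ρ g : H →L[ℂ] H)‖ ≤ 14 * r := by
    intro g
    have e : σ g - (ρ g : H →L[ℂ] H) = R' * (π g * (R - 1) - (R - 1) * π g) +
        (π g - (ρ g : H →L[ℂ] H)) := by
      have : R' * (π g * (R - 1) - (R - 1) * π g) = R' * π g * R - (R' * R) * π g := by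
        noncomm_ring
      rw [this, hR'R, one_mul]
      abel
    rw [e]
    have t0 : ‖π g * (R - 1) - (R - 1) * π g‖ ≤ (1 + r) * (3 * r) + (3 * r) * (1 + r) := by
      refine (norm_sub_le _ _).trans (add_le_add ?_ ?_)
      · exact (norm_mul_le _ _).trans (mul_le_mul (hπn g) hR1 (norm_nonneg _) (by linarith))
      · exact (norm_mul_le _ _).trans (mul_le_mul hR1 (hπn g) (norm_nonneg _) (by linarith))
    have t1 : ‖R' * (π g * (R - 1) - (R - 1) * π g)‖ ≤
        2 * ((1 + r) * (3 * r) + (3 * r) * (1 + r)) :=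
      (norm_mul_le _ _).trans (mul_le_mul hR'n t0 (norm_nonneg _) (by norm_num))
    calc _ ≤ 2 * ((1 + r) * (3 * r) + (3 * r) * (1 + r)) + r :=
          (norm_add_le _ _).trans (add_le_add t1 (hπρ g))
      _ ≤ 14 * r := by nlinarith
  -- the intertwiner
  set t : ℝ := 14 * r with ht
  have ht0 : 0 ≤ t := by positivity
  have ht1 : t ≤ 238 / 10000 := by rw [ht]; linarith
  have hσn : ∀ g, ‖σ g‖ ≤ 1 := by
    intro g
    exact unitary_norm_le ⟨σ g, Unitary.mem_iff.2 ⟨hσs' g, hσs g⟩⟩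
  have hB2 : BF (fun g => σ g * star (ρ g : H →L[ℂ] H)) := by
    refine ⟨1 * 1, fun g => (norm_mul_le _ _).trans ?_⟩
    rw [norm_star]
    exact mul_le_mul (hσn g) (hρn g) (norm_nonneg _) zero_le_one
  set T := av m (fun g => σ g * star (ρ g : H →L[ℂ] H)) with hTdef
  have hTi : ∀ h, σ h * T = T * (ρ h : H →L[ℂ] H) := by
    intro h
    have h1 : σ h * T * star (ρ h : H →L[ℂ] H) = T := by
      rw [hTdef, ← av_mul_left hm (σ h) hB2, ← av_mul_right hm _ ((BF.const (σ h)).mul hB2),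
        ← av_inv hm h hB2]
      congr 1
      funext g
      rw [hσm, map_mul]
      show σ h * (σ g * star (ρ g : H →L[ℂ] H)) * star (ρ h : H →L[ℂ] H) =
        σ h * σ g * star ((ρ h : H →L[ℂ] H) * (ρ g : H →L[ℂ] H))
      rw [star_mul]
      noncomm_ring
    calc σ h * T = σ h * T * (star (ρ h : H →L[ℂ] H) * (ρ h : H →L[ℂ] H)) := by
          rw [hρs', mul_one]
      _ = (σ h * T * star (ρ h : H →L[ℂ] H)) * (ρ h : H →L[ℂ] H) := by noncomm_ring
      _ = T * (ρ h : H →L[ℂ] H) := by rw [h1]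
  have hT1 : ‖T - 1‖ ≤ t := by
    have e : T - 1 = av m (fun g => σ g * star (ρ g : H →L[ℂ] H) - 1) := by
      rw [av_sub hm hB2 (BF.const _), av_const hm]
    rw [e]
    refine av_norm_le hm fun g => ?_
    have e2 : σ g * star (ρ g : H →L[ℂ] H) - 1 = (σ g - (ρ g : H →L[ℂ] H)) *
        star (ρ g : H →L[ℂ] H) := by
      rw [sub_mul, hρs]
    rw [e2]
    refine (norm_mul_le _ _).trans ?_
    rw [norm_star]
    calc _ ≤ t * 1 := mul_le_mul (hσρ g) (hρn g) (norm_nonneg _) ht0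
      _ = t := mul_one _
  have hTn : ‖T‖ ≤ 1 + t := by
    calc ‖T‖ = ‖(T - 1) + 1‖ := by rw [sub_add_cancel]
      _ ≤ t + 1 := (norm_add_le _ _).trans (add_le_add hT1 (by rw [norm_one]))
      _ = 1 + t := add_comm _ _
  have hQ1 : ‖star T * T - 1‖ ≤ 3 * t := by
    have e : star T * T - 1 = star (T - 1) * T + (T - 1) := by
      rw [star_sub, star_one, sub_mul, one_mul]
      abel
    rw [e]
    have t1 : ‖star (T - 1) * T‖ ≤ t * (1 + t) := by
      refine (norm_mul_le _ _).trans ?_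
      rw [norm_star]
      exact mul_le_mul hT1 hTn (norm_nonneg _) ht0
    calc _ ≤ t * (1 + t) + t := (norm_add_le _ _).trans (add_le_add t1 hT1)
      _ ≤ 3 * t := by nlinarith
  have hQs : IsSelfAdjoint (star T * T) := IsSelfAdjoint.star_mul_self T
  obtain ⟨V, V', hVs, hVV, hV1, hVV', hV'V, hV's, hV'n, hVc, hV'c⟩ :=
    sqrt_near (star T * T) hQs (3 * t) (by linarith) hQ1
  -- `star T * T` commutes with `ρ h`
  have hTi' : ∀ h, star T * σ h = (ρ h : H →L[ℂ] H) * star T := by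
    intro h
    have h1 : star (ρ h : H →L[ℂ] H) * star T = star T * star (σ h) := by
      have h0 := congrArg star (hTi h)
      rw [star_mul (σ h) T, star_mul T (ρ h : H →L[ℂ] H)] at h0
      exact h0.symm
    calc star T * σ h = ((ρ h : H →L[ℂ] H) * star (ρ h : H →L[ℂ] H)) * star T * σ h := by
          rw [hρs, one_mul]
      _ = (ρ h : H →L[ℂ] H) * (star (ρ h : H →L[ℂ] H) * star T) * σ h := by noncomm_ring
      _ = (ρ h : H →L[ℂ] H) * (star T * star (σ h)) * σ h := by rw [h1]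
      _ = (ρ h : H →L[ℂ] H) * star T * (star (σ h) * σ h) := by noncomm_ring
      _ = (ρ h : H →L[ℂ] H) * star T := by rw [hσs', mul_one]
  have hQρ : ∀ h, (ρ h : H →L[ℂ] H) * (star T * T) = (star T * T) * (ρ h : H →L[ℂ] H) := by
    intro h
    calc (ρ h : H →L[ℂ] H) * (star T * T) = ((ρ h : H →L[ℂ] H) * star T) * T := by noncomm_ring
      _ = star T * (σ h * T) := by rw [← hTi']; noncomm_ring
      _ = (star T * T) * (ρ h : H →L[ℂ] H) := by rw [hTi]; noncomm_ring
  set U := T * V' with hU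
  have hUU : star U * U = 1 := by
    rw [hU, star_mul, hV's]
    calc V' * star T * (T * V') = V' * (star T * T) * V' := by noncomm_ring
      _ = V' * (V * V) * V' := by rw [hVV]
      _ = (V' * V) * (V * V') := by noncomm_ring
      _ = 1 := by rw [hV'V, hVV', one_mul]
  -- `T` is invertible
  have hTlt : ‖1 - T‖ < 1 := by
    rw [norm_sub_rev]
    linarith
  let w : (H →L[ℂ] H)ˣ := Units.oneSub (1 - T) hTlt
  have hw : (w : H →L[ℂ] H) = T := by
    rw [Units.val_oneSub]; abel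
  have hTT : T * (↑w⁻¹ : H →L[ℂ] H) = 1 := by rw [← hw]; exact w.mul_inv
  have hUU' : U * star U = 1 := by
    have h1 : U * (V * (↑w⁻¹ : H →L[ℂ] H)) = 1 := by
      rw [hU]
      calc T * V' * (V * (↑w⁻¹ : H →L[ℂ] H)) = T * (V' * V) * (↑w⁻¹ : H →L[ℂ] H) := by
            noncomm_ring
        _ = 1 := by rw [hV'V, mul_one, hTT]
    have h2 : star U = V * (↑w⁻¹ : H →L[ℂ] H) := by
      calc star U = star U * (U * (V * (↑w⁻¹ : H →L[ℂ] H))) := by rw [h1, mul_one]
        _ = V * (↑w⁻¹ : H →L[ℂ] H) := by rw [← mul_assoc, hUU, one_mul]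
    rw [h2, h1]
  refine ⟨⟨U, Unitary.mem_iff.2 ⟨hUU, hUU'⟩⟩, ?_, ?_, ?_⟩
  · show ‖U - 1‖ ≤ 3000 * ε
    have e : U - 1 = (T - 1) * V' - V' * (V - 1) := by
      rw [hU, sub_mul, mul_sub, hV'V]
      noncomm_ring
    rw [e]
    have t1 : ‖(T - 1) * V'‖ ≤ t * 2 :=
      (norm_mul_le _ _).trans (mul_le_mul hT1 hV'n (norm_nonneg _) ht0)
    have t2 : ‖V' * (V - 1)‖ ≤ 2 * (3 * t) :=
      (norm_mul_le _ _).trans (mul_le_mul hV'n hV1 (norm_nonneg _) (by norm_num))
    calc _ ≤ t * 2 + 2 * (3 * t) := (norm_sub_le _ _).trans (add_le_add t1 t2)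
      _ ≤ 3000 * ε := by rw [ht, hr]; linarith
  · intro g
    show U * (ρ g : H →L[ℂ] H) * star U ∈ P
    have h1 : U * (ρ g : H →L[ℂ] H) = σ g * U := by
      rw [hU]
      calc T * V' * (ρ g : H →L[ℂ] H) = T * (V' * (ρ g : H →L[ℂ] H)) := by noncomm_ring
        _ = T * ((ρ g : H →L[ℂ] H) * V') := by rw [hV'c _ (hQρ g)]
        _ = (T * (ρ g : H →L[ℂ] H)) * V' := by noncomm_ring
        _ = σ g * (T * V') := by rw [← hTi]; noncomm_ring
    rw [h1, mul_assoc, hUU', mul_one]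
    exact hσP g
  · intro z hzρ hzP
    show z * U = U * z
    have hzρ' : ∀ g, z * star (ρ g : H →L[ℂ] H) = star (ρ g : H →L[ℂ] H) * z := by
      intro g
      calc z * star (ρ g : H →L[ℂ] H)
          = (star (ρ g : H →L[ℂ] H) * (ρ g : H →L[ℂ] H)) * z * star (ρ g : H →L[ℂ] H) := by
            rw [hρs', one_mul]
        _ = star (ρ g : H →L[ℂ] H) * ((ρ g : H →L[ℂ] H) * z) * star (ρ g : H →L[ℂ] H) := by
            noncomm_ring
        _ = star (ρ g : H →L[ℂ] H) * (z * (ρ g : H →L[ℂ] H)) * star (ρ g : H →L[ℂ] H) := by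
            rw [hzρ]
        _ = star (ρ g : H →L[ℂ] H) * z * ((ρ g : H →L[ℂ] H) * star (ρ g : H →L[ℂ] H)) := by
            noncomm_ring
        _ = star (ρ g : H →L[ℂ] H) * z := by rw [hρs, mul_one]
    have hzT : z * T = T * z := by
      refine av_comm hm hB2 z fun g => ?_
      calc z * (σ g * star (ρ g : H →L[ℂ] H)) = (z * σ g) * star (ρ g : H →L[ℂ] H) := by
            noncomm_ring
        _ = (σ g * z) * star (ρ g : H →L[ℂ] H) := by rw [hzP _ (hσP g)]
        _ = σ g * (z * star (ρ g : H →L[ℂ] H)) := by noncomm_ring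
        _ = σ g * (star (ρ g : H →L[ℂ] H) * z) := by rw [hzρ']
        _ = _ := by noncomm_ring
    have hzTs : z * star T = star T * z := by
      rw [hTdef, ← av_star hm hB2]
      refine av_comm hm hB2.star z fun g => ?_
      rw [star_mul, star_star]
      calc z * ((ρ g : H →L[ℂ] H) * star (σ g)) = (z * (ρ g : H →L[ℂ] H)) * star (σ g) := by
            noncomm_ring
        _ = ((ρ g : H →L[ℂ] H) * z) * star (σ g) := by rw [hzρ]
        _ = (ρ g : H →L[ℂ] H) * (z * star (σ g)) := by noncomm_ring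
        _ = (ρ g : H →L[ℂ] H) * (star (σ g) * z) := by rw [hzP _ (star_mem (hσP g))]
        _ = _ := by noncomm_ring
    have hzQ : z * (star T * T) = (star T * T) * z := by
      calc z * (star T * T) = (z * star T) * T := by noncomm_ring
        _ = star T * (z * T) := by rw [hzTs]; noncomm_ring
        _ = (star T * T) * z := by rw [hzT]; noncomm_ring
    have hzV := hV'c z hzQ
    calc z * U = (z * T) * V' := by rw [hU]; noncomm_ring
      _ = T * (z * V') := by rw [hzT]; noncomm_ring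
      _ = U * z := by rw [hzV, hU]; noncomm_ring

end Pool.Agent.N242.KK
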