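import Mathlib
import Pool.Agent.N242.KK.Unit
import Pool.Agent.Helper467.FP.Defs
import Pool.Agent.H759R2.Kad.Inner

/-!
Near inclusions of von Neumann algebras pass to commutants (with the order reversed).
-/

set_option autoImplicit false
set_option linter.unusedSectionVars false

open scoped InnerProductSpace ComplexConjugate
open Filter Topology

noncomputable section

namespace Pool.Agent.N242.KK

open Pool.Agent.H467F

variable {H : Type} [NormedAddCommGroup H] [InnerProductSpace ℂ H] [CompleteSpace H]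

/-- `M` is nearly included in `N`. -/
def NI (ε : ℝ) (M N : VonNeumannAlgebra H) : Prop :=
  ∀ x ∈ M, ∃ y ∈ N, ‖x - y‖ ≤ ε * ‖x‖

theorem NI.mono {ε ε' : ℝ} {M N : VonNeumannAlgebra H} (h : NI ε M N) (h' : ε ≤ ε') :
    NI ε' M N := fun x hx => by
  obtain ⟨y, hy, hxy⟩ := h x hx
  exact ⟨y, hy, hxy.trans (mul_le_mul_of_nonneg_right h' (norm_nonneg _))⟩

/-- the universal constant for inner derivations -/
def KC : ℝ := 5184 * 6 ^ 25 * 8 ^ 77

theorem KC_pos : 0 < KC := by unfold KC; positivity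

theorem ni_comm {ε : ℝ} (hε : 0 ≤ ε) {M N : VonNeumannAlgebra H} (h : NI ε M N) :
    NI (2 * KC * ε) N.commutant M.commutant := by
  intro y' hy'
  have hy'N : ∀ b ∈ N, b * y' = y' * b := by
    intro b hb
    rw [VonNeumannAlgebra.mem_commutant_iff] at hy'
    exact hy' b hb
  let π : Elt M →⋆ₙₐ[ℂ] (H →L[ℂ] H) := (M.toStarSubalgebra.subtype : Elt M →⋆ₐ[ℂ] (H →L[ℂ] H))
  have hπ : ∀ a : Elt M, π a = (a : H →L[ℂ] H) := fun a => rfl
  have hbd : ∀ a : Elt M, ‖(a : H →L[ℂ] H) * y' - y' * (a : H →L[ℂ] H)‖ ≤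
      (2 * ε * ‖y'‖) * ‖a‖ := by
    intro a
    obtain ⟨b, hb, hab⟩ := h (a : H →L[ℂ] H) a.2
    have e : (a : H →L[ℂ] H) * y' - y' * (a : H →L[ℂ] H) =
        ((a : H →L[ℂ] H) - b) * y' - y' * ((a : H →L[ℂ] H) - b) := by
      rw [sub_mul, mul_sub, hy'N b hb]
      abel
    rw [e]
    have hn : ‖(a : H →L[ℂ] H)‖ = ‖a‖ := rfl
    rw [hn] at hab
    calc _ ≤ ‖((a : H →L[ℂ] H) - b) * y'‖ + ‖y' * ((a : H →L[ℂ] H) - b)‖ := norm_sub_le _ _
      _ ≤ (ε * ‖a‖) * ‖y'‖ + ‖y'‖ * (ε * ‖a‖) := by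
        refine add_le_add ((norm_mul_le _ _).trans ?_) ((norm_mul_le _ _).trans ?_)
        · exact mul_le_mul_of_nonneg_right hab (norm_nonneg _)
        · exact mul_le_mul_of_nonneg_left hab (norm_nonneg _)
      _ = (2 * ε * ‖y'‖) * ‖a‖ := by ring
  let δ₀ : Elt M →ₗ[ℂ] (H →L[ℂ] H) :=
    { toFun := fun a => (a : H →L[ℂ] H) * y' - y' * (a : H →L[ℂ] H)
      map_add' := fun a b => by
        show ((a : H →L[ℂ] H) + (b : H →L[ℂ] H)) * y' - y' * ((a : H →L[ℂ] H) + (b : H →L[ℂ] H)) = _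
        rw [add_mul, mul_add]
        abel
      map_smul' := fun c a => by
        show (c • (a : H →L[ℂ] H)) * y' - y' * (c • (a : H →L[ℂ] H)) =
          c • ((a : H →L[ℂ] H) * y' - y' * (a : H →L[ℂ] H))
        rw [smul_mul_assoc, mul_smul_comm, smul_sub] }
  let δ : Elt M →L[ℂ] (H →L[ℂ] H) := δ₀.mkContinuous (2 * ε * ‖y'‖) hbd
  have hδ : ∀ a : Elt M, δ a = (a : H →L[ℂ] H) * y' - y' * (a : H →L[ℂ] H) := fun a => rfl
  have hδn : ‖δ‖ ≤ 2 * ε * ‖y'‖ := LinearMap.mkContinuous_norm_le _ (by positivity) _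
  obtain ⟨T, hT, hTd⟩ := H759R2.Kad.inner_bound (Elt M) H π δ (by
    intro a b
    rw [hδ, hδ, hδ, hπ, hπ]
    show ((a : H →L[ℂ] H) * (b : H →L[ℂ] H)) * y' - y' * ((a : H →L[ℂ] H) * (b : H →L[ℂ] H)) = _
    noncomm_ring)
  refine ⟨y' - T, ?_, ?_⟩
  · rw [VonNeumannAlgebra.mem_commutant_iff]
    intro g hg
    have h1 := hTd ⟨g, hg⟩
    rw [hδ, hπ] at h1
    change g * y' - y' * g = g * T - T * g at h1
    rw [mul_sub, sub_mul]
    rw [sub_eq_sub_iff_add_eq_add] at h1 ⊢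
    have h2 : g * y' + T * g - (g * T + y' * g) = 0 := by rw [h1]; abel
    rw [← sub_eq_zero]
    rw [← h2]
    abel
  · rw [sub_sub_cancel]
    calc ‖T‖ ≤ 5184 * 6 ^ 25 * 8 ^ 77 * ‖δ‖ := hT
      _ ≤ KC * (2 * ε * ‖y'‖) := mul_le_mul_of_nonneg_left hδn KC_pos.le
      _ = 2 * KC * ε * ‖y'‖ := by ring

/-! ### The Kadison-Kastler distance -/

/-- The Kadison-Kastler distance: the Hausdorff distance of the closed unit balls. -/
def kk (M N : VonNeumannAlgebra H) : ℝ :=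
  Metric.hausdorffDist {x : H →L[ℂ] H | x ∈ M ∧ ‖x‖ ≤ 1} {x : H →L[ℂ] H | x ∈ N ∧ ‖x‖ ≤ 1}

theorem kk_comm (M N : VonNeumannAlgebra H) : kk M N = kk N M := Metric.hausdorffDist_comm

theorem ball_bdd (M : VonNeumannAlgebra H) :
    Bornology.IsBounded {x : H →L[ℂ] H | x ∈ M ∧ ‖x‖ ≤ 1} :=
  (Metric.isBounded_closedBall (x := (0 : H →L[ℂ] H)) (r := 1)).subset
    (fun x hx => by rw [mem_closedBall_zero_iff]; exact hx.2)

theorem ball_ne (M : VonNeumannAlgebra H) :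
    {x : H →L[ℂ] H | x ∈ M ∧ ‖x‖ ≤ 1}.Nonempty :=
  ⟨0, zero_mem _, by rw [norm_zero]; exact zero_le_one⟩

theorem ni_of_kk {M N : VonNeumannAlgebra H} {δ : ℝ} (h : kk M N < δ) : NI δ M N := by
  intro x hx
  by_cases hx0 : x = 0
  · exact ⟨0, zero_mem _, by rw [hx0, sub_zero, norm_zero, mul_zero]⟩
  have hn : 0 < ‖x‖ := norm_pos_iff.2 hx0
  have hmem : ((‖x‖ : ℂ)⁻¹ • x) ∈ {x : H →L[ℂ] H | x ∈ M ∧ ‖x‖ ≤ 1} := by
    refine ⟨M.toStarSubalgebra.smul_mem hx _, ?_⟩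
    rw [norm_smul, norm_inv, Complex.norm_real, norm_norm, inv_mul_cancel₀ hn.ne']
  obtain ⟨y, hy, hxy⟩ := Metric.exists_dist_lt_of_hausdorffDist_lt hmem h
    (Metric.hausdorffEDist_ne_top_of_nonempty_of_bounded (ball_ne M) (ball_ne N) (ball_bdd M)
      (ball_bdd N))
  refine ⟨(‖x‖ : ℂ) • y, N.toStarSubalgebra.smul_mem hy.1 _, ?_⟩
  have e : x - (‖x‖ : ℂ) • y = (‖x‖ : ℂ) • ((‖x‖ : ℂ)⁻¹ • x - y) := by
    rw [smul_sub, smul_smul, mul_inv_cancel₀ (by exact_mod_cast hn.ne'), one_smul]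
  rw [e, norm_smul, Complex.norm_real, norm_norm, mul_comm]
  rw [dist_eq_norm] at hxy
  exact mul_le_mul_of_nonneg_right hxy.le hn.le

end Pool.Agent.N242.KK
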