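import Mathlib
import Pool.Agent.N242.KK.Comm

/-!
Conjugation of von Neumann algebras and of II_1 factors by unitaries.
-/

set_option autoImplicit false
set_option linter.unusedSectionVars false

open scoped InnerProductSpace ComplexConjugate
open Filter Topology

noncomputable section

namespace Pool.Agent.N242.KK

open Pool.Agent.H467F

variable {H : Type} [NormedAddCommGroup H] [InnerProductSpace ℂ H] [CompleteSpace H]

theorem uus (u : unitary (H →L[ℂ] H)) : (u : H →L[ℂ] H) * star (u : H →L[ℂ] H) = 1 :=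
  Unitary.mul_star_self_of_mem u.2

theorem usu (u : unitary (H →L[ℂ] H)) : star (u : H →L[ℂ] H) * (u : H →L[ℂ] H) = 1 :=
  Unitary.star_mul_self_of_mem u.2

theorem uus_mul (u : unitary (H →L[ℂ] H)) (x : H →L[ℂ] H) :
    (u : H →L[ℂ] H) * (star (u : H →L[ℂ] H) * x) = x := by rw [← mul_assoc, uus, one_mul]

theorem usu_mul (u : unitary (H →L[ℂ] H)) (x : H →L[ℂ] H) :
    star (u : H →L[ℂ] H) * ((u : H →L[ℂ] H) * x) = x := by rw [← mul_assoc, usu, one_mul]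

/-- conjugation by a unitary -/
def cjMap (u : unitary (H →L[ℂ] H)) : (H →L[ℂ] H) →⋆ₐ[ℂ] (H →L[ℂ] H) where
  toFun x := (u : H →L[ℂ] H) * x * star (u : H →L[ℂ] H)
  map_one' := by rw [mul_one, uus]
  map_mul' x y := by
    calc (u : H →L[ℂ] H) * (x * y) * star (u : H →L[ℂ] H)
        = (u : H →L[ℂ] H) * x * (star (u : H →L[ℂ] H) * ((u : H →L[ℂ] H) * y)) *
          star (u : H →L[ℂ] H) := by rw [usu_mul]; noncomm_ring
      _ = _ := by noncomm_ring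
  map_zero' := by rw [mul_zero, zero_mul]
  map_add' x y := by rw [mul_add, add_mul]
  commutes' c := by
    rw [Algebra.algebraMap_eq_smul_one, mul_smul_comm, smul_mul_assoc, mul_one, uus]
  map_star' x := by rw [star_mul, star_mul, star_star, mul_assoc]

theorem cjMap_apply (u : unitary (H →L[ℂ] H)) (x : H →L[ℂ] H) :
    cjMap u x = (u : H →L[ℂ] H) * x * star (u : H →L[ℂ] H) := rfl

theorem cent_pre (u : unitary (H →L[ℂ] H)) (S : Set (H →L[ℂ] H)) :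
    Set.centralizer ((cjMap u) ⁻¹' S) = (cjMap u) ⁻¹' (Set.centralizer S) := by
  ext x
  constructor
  · intro h
    rw [Set.mem_preimage, Set.mem_centralizer_iff]
    intro s hs
    rw [Set.mem_centralizer_iff] at h
    have h1 := h (star (u : H →L[ℂ] H) * s * (u : H →L[ℂ] H)) (by
      rw [Set.mem_preimage, cjMap_apply]
      have : (u : H →L[ℂ] H) * (star (u : H →L[ℂ] H) * s * (u : H →L[ℂ] H)) *
          star (u : H →L[ℂ] H) = s := by
        rw [mul_assoc (star (u : H →L[ℂ] H)), uus_mul, mul_assoc, uus, mul_one]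
      rw [this]
      exact hs)
    rw [cjMap_apply]
    calc s * ((u : H →L[ℂ] H) * x * star (u : H →L[ℂ] H))
        = (u : H →L[ℂ] H) * (star (u : H →L[ℂ] H) * (s * ((u : H →L[ℂ] H) * x *
          star (u : H →L[ℂ] H)))) := by rw [uus_mul]
      _ = (u : H →L[ℂ] H) * (star (u : H →L[ℂ] H) * s * (u : H →L[ℂ] H) * x) *
          star (u : H →L[ℂ] H) := by noncomm_ring
      _ = (u : H →L[ℂ] H) * (x * (star (u : H →L[ℂ] H) * s * (u : H →L[ℂ] H))) *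
          star (u : H →L[ℂ] H) := by rw [h1]
      _ = (u : H →L[ℂ] H) * x * star (u : H →L[ℂ] H) * s * ((u : H →L[ℂ] H) *
          star (u : H →L[ℂ] H)) := by noncomm_ring
      _ = _ := by rw [uus, mul_one]
  · intro h
    rw [Set.mem_preimage, Set.mem_centralizer_iff] at h
    rw [Set.mem_centralizer_iff]
    intro m hm
    have h1 := h _ hm
    rw [cjMap_apply, cjMap_apply] at h1
    have h2 : (u : H →L[ℂ] H) * (m * x) * star (u : H →L[ℂ] H) =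
        (u : H →L[ℂ] H) * (x * m) * star (u : H →L[ℂ] H) := by
      calc (u : H →L[ℂ] H) * (m * x) * star (u : H →L[ℂ] H)
          = (u : H →L[ℂ] H) * m * (star (u : H →L[ℂ] H) * ((u : H →L[ℂ] H) * x)) *
            star (u : H →L[ℂ] H) := by rw [usu_mul]; noncomm_ring
        _ = ((u : H →L[ℂ] H) * m * star (u : H →L[ℂ] H)) * ((u : H →L[ℂ] H) * x *
            star (u : H →L[ℂ] H)) := by noncomm_ring
        _ = ((u : H →L[ℂ] H) * x * star (u : H →L[ℂ] H)) * ((u : H →L[ℂ] H) * m *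
            star (u : H →L[ℂ] H)) := by rw [h1]
        _ = (u : H →L[ℂ] H) * x * (star (u : H →L[ℂ] H) * ((u : H →L[ℂ] H) * m)) *
            star (u : H →L[ℂ] H) := by noncomm_ring
        _ = _ := by rw [usu_mul]; noncomm_ring
    have h3 : ∀ z : H →L[ℂ] H, star (u : H →L[ℂ] H) * ((u : H →L[ℂ] H) * z *
        star (u : H →L[ℂ] H)) * (u : H →L[ℂ] H) = z := by
      intro z
      rw [mul_assoc (u : H →L[ℂ] H), usu_mul, mul_assoc, usu, mul_one]
    rw [← h3 (m * x), h2, h3]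

/-- The von Neumann algebra `u^* N u`. -/
def cj (u : unitary (H →L[ℂ] H)) (N : VonNeumannAlgebra H) : VonNeumannAlgebra H where
  toStarSubalgebra := N.toStarSubalgebra.comap (cjMap u)
  centralizer_centralizer' := by
    show Set.centralizer (Set.centralizer ((cjMap u) ⁻¹' (N : Set (H →L[ℂ] H)))) =
      (cjMap u) ⁻¹' (N : Set (H →L[ℂ] H))
    rw [cent_pre, cent_pre, VonNeumannAlgebra.centralizer_centralizer]

theorem mem_cj {u : unitary (H →L[ℂ] H)} {N : VonNeumannAlgebra H} {x : H →L[ℂ] H} :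
    x ∈ cj u N ↔ (u : H →L[ℂ] H) * x * star (u : H →L[ℂ] H) ∈ N := Iff.rfl

theorem mem_cj' {u : unitary (H →L[ℂ] H)} {N : VonNeumannAlgebra H} {y : H →L[ℂ] H}
    (hy : y ∈ N) : star (u : H →L[ℂ] H) * y * (u : H →L[ℂ] H) ∈ cj u N := by
  rw [mem_cj]
  rw [mul_assoc (star (u : H →L[ℂ] H)), uus_mul, mul_assoc, uus, mul_one]
  exact hy

theorem mem_cj_comm {u : unitary (H →L[ℂ] H)} {N : VonNeumannAlgebra H} {x : H →L[ℂ] H} :
    x ∈ (cj u N).commutant ↔ (u : H →L[ℂ] H) * x * star (u : H →L[ℂ] H) ∈ N.commutant := by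
  have h := cent_pre u (N : Set (H →L[ℂ] H))
  rw [← SetLike.mem_coe, VonNeumannAlgebra.coe_commutant, ← SetLike.mem_coe,
    VonNeumannAlgebra.coe_commutant]
  constructor
  · intro hx
    have h1 : x ∈ Set.centralizer ((cjMap u) ⁻¹' (N : Set (H →L[ℂ] H))) := hx
    rw [h] at h1
    exact h1
  · intro hx
    have h1 : x ∈ (cjMap u) ⁻¹' (Set.centralizer (N : Set (H →L[ℂ] H))) := hx
    rw [← h] at h1
    exact h1

/-- the isomorphism -/
def cjElt (u : unitary (H →L[ℂ] H)) (N : VonNeumannAlgebra H) : Elt (cj u N) →ₗ[ℂ] Elt N where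
  toFun x := ⟨(u : H →L[ℂ] H) * (x : H →L[ℂ] H) * star (u : H →L[ℂ] H), x.2⟩
  map_add' x y := by
    apply Subtype.ext
    show (u : H →L[ℂ] H) * ((x : H →L[ℂ] H) + (y : H →L[ℂ] H)) * star (u : H →L[ℂ] H) =
      (u : H →L[ℂ] H) * (x : H →L[ℂ] H) * star (u : H →L[ℂ] H) +
      (u : H →L[ℂ] H) * (y : H →L[ℂ] H) * star (u : H →L[ℂ] H)
    rw [mul_add, add_mul]
  map_smul' c x := by
    apply Subtype.ext
    show (u : H →L[ℂ] H) * (c • (x : H →L[ℂ] H)) * star (u : H →L[ℂ] H) =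
      c • ((u : H →L[ℂ] H) * (x : H →L[ℂ] H) * star (u : H →L[ℂ] H))
    rw [mul_smul_comm, smul_mul_assoc]

theorem cjElt_coe (u : unitary (H →L[ℂ] H)) (N : VonNeumannAlgebra H) (x : Elt (cj u N)) :
    (cjElt u N x : H →L[ℂ] H) = (u : H →L[ℂ] H) * (x : H →L[ℂ] H) * star (u : H →L[ℂ] H) := rfl

theorem cjElt_mul (u : unitary (H →L[ℂ] H)) (N : VonNeumannAlgebra H) (x y : Elt (cj u N)) :
    cjElt u N (x * y) = cjElt u N x * cjElt u N y := by
  apply Subtype.ext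
  show (u : H →L[ℂ] H) * ((x : H →L[ℂ] H) * (y : H →L[ℂ] H)) * star (u : H →L[ℂ] H) =
    ((u : H →L[ℂ] H) * (x : H →L[ℂ] H) * star (u : H →L[ℂ] H)) *
      ((u : H →L[ℂ] H) * (y : H →L[ℂ] H) * star (u : H →L[ℂ] H))
  calc _ = (u : H →L[ℂ] H) * (x : H →L[ℂ] H) * (star (u : H →L[ℂ] H) * ((u : H →L[ℂ] H) *
        (y : H →L[ℂ] H))) * star (u : H →L[ℂ] H) := by rw [usu_mul]; noncomm_ring
    _ = _ := by noncomm_ring

theorem cjElt_star (u : unitary (H →L[ℂ] H)) (N : VonNeumannAlgebra H) (x : Elt (cj u N)) :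
    cjElt u N (star x) = star (cjElt u N x) := by
  apply Subtype.ext
  show (u : H →L[ℂ] H) * star (x : H →L[ℂ] H) * star (u : H →L[ℂ] H) =
    star ((u : H →L[ℂ] H) * (x : H →L[ℂ] H) * star (u : H →L[ℂ] H))
  rw [star_mul, star_mul, star_star, mul_assoc]

theorem cjElt_one (u : unitary (H →L[ℂ] H)) (N : VonNeumannAlgebra H) :
    cjElt u N 1 = 1 := by
  apply Subtype.ext
  show (u : H →L[ℂ] H) * 1 * star (u : H →L[ℂ] H) = 1
  rw [mul_one, uus]

theorem cj_cancel (u : unitary (H →L[ℂ] H)) (z : H →L[ℂ] H) :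
    star (u : H →L[ℂ] H) * ((u : H →L[ℂ] H) * z * star (u : H →L[ℂ] H)) * (u : H →L[ℂ] H) = z := by
  rw [mul_assoc (u : H →L[ℂ] H), usu_mul, mul_assoc, usu, mul_one]

theorem cj_cancel' (u : unitary (H →L[ℂ] H)) (z : H →L[ℂ] H) :
    (u : H →L[ℂ] H) * (star (u : H →L[ℂ] H) * z * (u : H →L[ℂ] H)) * star (u : H →L[ℂ] H) = z := by
  rw [mul_assoc (star (u : H →L[ℂ] H)), uus_mul, mul_assoc, uus, mul_one]

theorem cjElt_bij (u : unitary (H →L[ℂ] H)) (N : VonNeumannAlgebra H) :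
    Function.Bijective (cjElt u N) := by
  constructor
  · intro x y h
    have h1 := congrArg (fun z : Elt N => star (u : H →L[ℂ] H) * (z : H →L[ℂ] H) *
      (u : H →L[ℂ] H)) h
    simp only [cjElt_coe, cj_cancel] at h1
    exact Subtype.ext h1
  · intro y
    refine ⟨⟨star (u : H →L[ℂ] H) * (y : H →L[ℂ] H) * (u : H →L[ℂ] H), mem_cj' y.2⟩, ?_⟩
    apply Subtype.ext
    rw [cjElt_coe]
    exact cj_cancel' u _

theorem inner_unit (u : unitary (H →L[ℂ] H)) (x : H →L[ℂ] H) (ξ : H) :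
    ⟪ξ, ((u : H →L[ℂ] H) * x * star (u : H →L[ℂ] H)) ξ⟫_ℂ =
      ⟪star (u : H →L[ℂ] H) ξ, x (star (u : H →L[ℂ] H) ξ)⟫_ℂ := by
  show ⟪ξ, (u : H →L[ℂ] H) (x (star (u : H →L[ℂ] H) ξ))⟫_ℂ = _
  rw [ContinuousLinearMap.star_eq_adjoint, ContinuousLinearMap.adjoint_inner_left]

theorem norm_unit (u : unitary (H →L[ℂ] H)) (ξ : H) : ‖(u : H →L[ℂ] H) ξ‖ = ‖ξ‖ := by
  have h : ‖(u : H →L[ℂ] H) ξ‖ ^ 2 = ‖ξ‖ ^ 2 := by
    rw [← inner_self_eq_norm_sq (𝕜 := ℂ), ← inner_self_eq_norm_sq (𝕜 := ℂ)]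
    congr 1
    rw [← ContinuousLinearMap.adjoint_inner_left, ← ContinuousLinearMap.star_eq_adjoint]
    show ⟪(star (u : H →L[ℂ] H) * (u : H →L[ℂ] H)) ξ, ξ⟫_ℂ = _
    rw [usu]
    rfl
  exact (pow_left_inj₀ (norm_nonneg _) (norm_nonneg _) two_ne_zero).1 h

theorem norm_unit' (u : unitary (H →L[ℂ] H)) (ξ : H) : ‖star (u : H →L[ℂ] H) ξ‖ = ‖ξ‖ :=
  norm_unit (star u) ξ

theorem cj_II {N : VonNeumannAlgebra H} {σ : Elt N →ₗ[ℂ] ℂ} (h : IsIIOneFactor N (σ : Elt N → ℂ))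
    (u : unitary (H →L[ℂ] H)) :
    IsIIOneFactor (cj u N) ((σ ∘ₗ cjElt u N : Elt (cj u N) →ₗ[ℂ] ℂ) : Elt (cj u N) → ℂ) := by
  refine ⟨?_, ?_, ⟨?_, ?_, ?_⟩, ?_⟩
  · intro z hz hc
    obtain ⟨c, hc'⟩ := h.center _ (mem_cj.1 hz) (by
      intro y hy
      have h1 := hc _ (mem_cj' (u := u) hy)
      have h2 := congrArg (fun w : H →L[ℂ] H => (u : H →L[ℂ] H) * w * star (u : H →L[ℂ] H)) h1
      calc (u : H →L[ℂ] H) * z * star (u : H →L[ℂ] H) * y
          = (u : H →L[ℂ] H) * z * star (u : H →L[ℂ] H) * y * ((u : H →L[ℂ] H) *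
            star (u : H →L[ℂ] H)) := by rw [uus, mul_one]
        _ = (u : H →L[ℂ] H) * (z * (star (u : H →L[ℂ] H) * y * (u : H →L[ℂ] H))) *
            star (u : H →L[ℂ] H) := by noncomm_ring
        _ = (u : H →L[ℂ] H) * ((star (u : H →L[ℂ] H) * y * (u : H →L[ℂ] H)) * z) *
            star (u : H →L[ℂ] H) := h2
        _ = ((u : H →L[ℂ] H) * star (u : H →L[ℂ] H)) * y * ((u : H →L[ℂ] H) * z *
            star (u : H →L[ℂ] H)) := by noncomm_ring
        _ = y * ((u : H →L[ℂ] H) * z * star (u : H →L[ℂ] H)) := by rw [uus, one_mul])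
    refine ⟨c, ?_⟩
    rw [← cj_cancel u z, hc', mul_smul_comm, smul_mul_assoc, mul_one, usu]
  · intro hf
    apply h.infinite
    exact Module.Finite.of_surjective (cjElt u N) (cjElt_bij u N).2
  · show σ (cjElt u N 1) = 1
    rw [cjElt_one]
    exact h.trace.one
  · intro x y
    show σ (cjElt u N (x * y)) = σ (cjElt u N (y * x))
    rw [cjElt_mul, cjElt_mul]
    exact h.trace.tracial _ _
  · intro x hx
    have hx' : σ (cjElt u N (star x * x)) = 0 := hx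
    rw [cjElt_mul, cjElt_star] at hx'
    have h1 := h.trace.faithful _ hx'
    exact (cjElt_bij u N).1 (by rw [h1, map_zero])
  · obtain ⟨ξ, hξ, ht⟩ := h.normal
    refine ⟨fun k => star (u : H →L[ℂ] H) (ξ k), ?_, ?_⟩
    · simpa only [norm_unit'] using hξ
    · intro x
      show σ (cjElt u N x) = _
      rw [ht]
      refine tsum_congr fun k => ?_
      rw [cjElt_coe]
      exact inner_unit u _ _

theorem cj_near {u : unitary (H →L[ℂ] H)} {t : ℝ} (hu : ‖(u : H →L[ℂ] H) - 1‖ ≤ t)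
    (y : H →L[ℂ] H) : ‖(u : H →L[ℂ] H) * y * star (u : H →L[ℂ] H) - y‖ ≤ 2 * t * ‖y‖ := by
  by_cases hH : Nontrivial H
  · have hn : ‖star (u : H →L[ℂ] H)‖ ≤ 1 := by
      rw [norm_star]
      exact unitary_norm_le u
    have e : (u : H →L[ℂ] H) * y * star (u : H →L[ℂ] H) - y =
        (((u : H →L[ℂ] H) - 1) * y - y * ((u : H →L[ℂ] H) - 1)) * star (u : H →L[ℂ] H) := by
      have h1 : (((u : H →L[ℂ] H) - 1) * y - y * ((u : H →L[ℂ] H) - 1)) =
          (u : H →L[ℂ] H) * y - y * (u : H →L[ℂ] H) := by noncomm_ring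
      rw [h1, sub_mul, mul_assoc y, uus, mul_one]
    rw [e]
    refine (norm_mul_le _ _).trans ?_
    have h2 : ‖((u : H →L[ℂ] H) - 1) * y - y * ((u : H →L[ℂ] H) - 1)‖ ≤ 2 * t * ‖y‖ := by
      refine (norm_sub_le _ _).trans ?_
      have h3 : ‖((u : H →L[ℂ] H) - 1) * y‖ ≤ t * ‖y‖ :=
        (norm_mul_le _ _).trans (mul_le_mul_of_nonneg_right hu (norm_nonneg _))
      have h4 : ‖y * ((u : H →L[ℂ] H) - 1)‖ ≤ ‖y‖ * t :=
        (norm_mul_le _ _).trans (mul_le_mul_of_nonneg_left hu (norm_nonneg _))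
      linarith
    calc _ ≤ (2 * t * ‖y‖) * 1 :=
          mul_le_mul h2 hn (norm_nonneg _) ((norm_nonneg _).trans h2)
      _ = 2 * t * ‖y‖ := mul_one _
  · have hs : Subsingleton H := not_nontrivial_iff_subsingleton.1 hH
    have : (u : H →L[ℂ] H) * y * star (u : H →L[ℂ] H) - y = 0 := Subsingleton.elim _ _
    rw [this, norm_zero]
    exact mul_nonneg (mul_nonneg two_pos.le ((norm_nonneg _).trans hu)) (norm_nonneg _)

theorem cj_near' {u : unitary (H →L[ℂ] H)} {t : ℝ} (hu : ‖(u : H →L[ℂ] H) - 1‖ ≤ t)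
    (y : H →L[ℂ] H) : ‖star (u : H →L[ℂ] H) * y * (u : H →L[ℂ] H) - y‖ ≤ 2 * t * ‖y‖ := by
  have h : ‖((star u : unitary (H →L[ℂ] H)) : H →L[ℂ] H) - 1‖ ≤ t := by
    rw [Unitary.coe_star]
    have : star (u : H →L[ℂ] H) - 1 = star ((u : H →L[ℂ] H) - 1) := by rw [star_sub, star_one]
    rw [this, norm_star]
    exact hu
  have := cj_near h y
  rwa [Unitary.coe_star, star_star] at this

theorem ni_cj_right {M N : VonNeumannAlgebra H} {ε t : ℝ} (hε1 : ε ≤ 1)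
    {u : unitary (H →L[ℂ] H)} (hu : ‖(u : H →L[ℂ] H) - 1‖ ≤ t) (h : NI ε M N) :
    NI (ε + 4 * t) M (cj u N) := by
  intro x hx
  obtain ⟨y, hy, hxy⟩ := h x hx
  have ht : 0 ≤ t := (norm_nonneg _).trans hu
  refine ⟨star (u : H →L[ℂ] H) * y * (u : H →L[ℂ] H), mem_cj' hy, ?_⟩
  have hyn : ‖y‖ ≤ 2 * ‖x‖ := by
    calc ‖y‖ = ‖x - (x - y)‖ := by rw [sub_sub_cancel]
      _ ≤ ‖x‖ + ‖x - y‖ := norm_sub_le _ _
      _ ≤ ‖x‖ + ε * ‖x‖ := by linarith
      _ ≤ 2 * ‖x‖ := by nlinarith [norm_nonneg x]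
  calc ‖x - star (u : H →L[ℂ] H) * y * (u : H →L[ℂ] H)‖
      = ‖(x - y) - (star (u : H →L[ℂ] H) * y * (u : H →L[ℂ] H) - y)‖ := by congr 1; abel
    _ ≤ ‖x - y‖ + ‖star (u : H →L[ℂ] H) * y * (u : H →L[ℂ] H) - y‖ := norm_sub_le _ _
    _ ≤ ε * ‖x‖ + 2 * t * ‖y‖ := add_le_add hxy (cj_near' hu y)
    _ ≤ (ε + 4 * t) * ‖x‖ := by nlinarith

theorem ni_cj_left {M N : VonNeumannAlgebra H} {ε t : ℝ} (hε : 0 ≤ ε)
    {u : unitary (H →L[ℂ] H)} (hu : ‖(u : H →L[ℂ] H) - 1‖ ≤ t) (h : NI ε N M) :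
    NI (ε + 2 * t) (cj u N) M := by
  intro z hz
  obtain ⟨x, hx, hxy⟩ := h _ (mem_cj.1 hz)
  refine ⟨x, hx, ?_⟩
  have hn : ‖(u : H →L[ℂ] H) * z * star (u : H →L[ℂ] H)‖ ≤ ‖z‖ := by
    have h1 : ‖(u : H →L[ℂ] H)‖ ≤ 1 := unitary_norm_le u
    have h2 : ‖star (u : H →L[ℂ] H)‖ ≤ 1 := by rw [norm_star]; exact h1
    calc _ ≤ ‖(u : H →L[ℂ] H) * z‖ * ‖star (u : H →L[ℂ] H)‖ := norm_mul_le _ _
      _ ≤ (1 * ‖z‖) * 1 := by
        refine mul_le_mul ((norm_mul_le _ _).trans ?_) h2 (norm_nonneg _) (by positivity)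
        exact mul_le_mul_of_nonneg_right h1 (norm_nonneg _)
      _ = ‖z‖ := by ring
  calc ‖z - x‖ = ‖((u : H →L[ℂ] H) * z * star (u : H →L[ℂ] H) - x) -
        ((u : H →L[ℂ] H) * z * star (u : H →L[ℂ] H) - z)‖ := by congr 1; abel
    _ ≤ ‖(u : H →L[ℂ] H) * z * star (u : H →L[ℂ] H) - x‖ +
        ‖(u : H →L[ℂ] H) * z * star (u : H →L[ℂ] H) - z‖ := norm_sub_le _ _
    _ ≤ ε * ‖z‖ + 2 * t * ‖z‖ :=
        add_le_add (hxy.trans (mul_le_mul_of_nonneg_left hn hε)) (cj_near hu z)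
    _ = (ε + 2 * t) * ‖z‖ := by ring

end Pool.Agent.N242.KK
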