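import Mathlib
import Pool.Agent.N242.KK.Conj

/-!
Maximal commuting families of unitaries of a von Neumann algebra, and averages over them.
-/

set_option autoImplicit false
set_option linter.unusedSectionVars false

open scoped InnerProductSpace ComplexConjugate
open Filter Topology

noncomputable section

namespace Pool.Agent.N242.KK

open Pool.Agent.H467F

variable {H : Type} [NormedAddCommGroup H] [InnerProductSpace ℂ H] [CompleteSpace H]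

/-- The range of `ρ` is a maximal commuting family of unitaries of `M`. -/
structure MasaRep {G : Type} [CommGroup G] (M : VonNeumannAlgebra H)
    (ρ : G →* unitary (H →L[ℂ] H)) : Prop where
  mem : ∀ g, (ρ g : H →L[ℂ] H) ∈ M
  max : ∀ u : unitary (H →L[ℂ] H), (u : H →L[ℂ] H) ∈ M →
    (∀ g, (ρ g : H →L[ℂ] H) * (u : H →L[ℂ] H) = (u : H →L[ℂ] H) * (ρ g : H →L[ℂ] H)) →
    ∃ g, ρ g = u

theorem exists_masa (M : VonNeumannAlgebra H) (S : Set (unitary (H →L[ℂ] H)))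
    (hS : ∀ g ∈ S, (g : H →L[ℂ] H) ∈ M) (hc : ∀ g ∈ S, ∀ h ∈ S, g * h = h * g) :
    ∃ (G : Type) (_ : CommGroup G) (ρ : G →* unitary (H →L[ℂ] H)), MasaRep M ρ ∧
      ∀ s ∈ S, ∃ g, ρ g = s := by
  let 𝒮 : Set (Set (unitary (H →L[ℂ] H))) :=
    {T | (∀ g ∈ T, (g : H →L[ℂ] H) ∈ M) ∧ ∀ g ∈ T, ∀ h ∈ T, g * h = h * g}
  obtain ⟨T, hST, hT⟩ := zorn_subset_nonempty 𝒮 (by
    intro c hc1 hc2 _
    refine ⟨⋃₀ c, ⟨?_, ?_⟩, fun s hs => Set.subset_sUnion_of_mem hs⟩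
    · rintro g ⟨s, hs, hg⟩
      exact (hc1 hs).1 g hg
    · rintro g ⟨s, hs, hg⟩ h ⟨t, ht, hh⟩
      rcases hc2.total hs ht with h1 | h1
      · exact (hc1 ht).2 g (h1 hg) h hh
      · exact (hc1 hs).2 g hg h (h1 hh)) S ⟨hS, hc⟩
  have hT1 : T ∈ 𝒮 := hT.prop
  have hmax : ∀ u : unitary (H →L[ℂ] H), (u : H →L[ℂ] H) ∈ M → (∀ g ∈ T, g * u = u * g) →
      u ∈ T := by
    intro u hu hcu
    have h1 : insert u T ∈ 𝒮 := by
      refine ⟨?_, ?_⟩
      · rintro g (rfl | hg)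
        · exact hu
        · exact hT1.1 g hg
      · rintro g (rfl | hg) h (rfl | hh)
        · rfl
        · exact (hcu h hh).symm
        · exact hcu g hg
        · exact hT1.2 g hg h hh
    have h2 := hT.le_of_ge h1 (Set.subset_insert u T)
    exact h2 (Set.mem_insert u T)
  let G : Subgroup (unitary (H →L[ℂ] H)) :=
    { carrier := T
      one_mem' := hmax 1 (one_mem M) (fun g _ => by rw [mul_one, one_mul])
      mul_mem' := fun {a b} ha hb => hmax (a * b) (mul_mem (hT1.1 a ha) (hT1.1 b hb))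
        (fun g hg => by
          rw [← mul_assoc, hT1.2 g hg a ha, mul_assoc, hT1.2 g hg b hb, mul_assoc])
      inv_mem' := fun {a} ha => hmax a⁻¹ (by
          show star (a : H →L[ℂ] H) ∈ M
          exact star_mem (hT1.1 a ha)) (fun g hg => by
          have h1 : Commute g a := hT1.2 g hg a ha
          exact h1.inv_right.eq) }
  let inst : CommGroup G := { (inferInstance : Group G) with
    mul_comm := fun a b => Subtype.ext (hT1.2 a.1 a.2 b.1 b.2) }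
  refine ⟨G, inst, G.subtype, ⟨?_, ?_⟩, ?_⟩
  · intro g
    exact hT1.1 g.1 g.2
  · intro u hu hcu
    exact ⟨⟨u, hmax u hu (fun g hg => Subtype.ext (hcu ⟨g, hg⟩))⟩, rfl⟩
  · intro s hs
    exact ⟨⟨s, hST hs⟩, rfl⟩

section

variable {G : Type} [CommGroup G] {M : VonNeumannAlgebra H} {ρ : G →* unitary (H →L[ℂ] H)}

theorem rho_inv (ρ : G →* unitary (H →L[ℂ] H)) (g : G) :
    (ρ g⁻¹ : H →L[ℂ] H) = star (ρ g : H →L[ℂ] H) := by
  rw [map_inv]
  rfl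

theorem rho_mul (ρ : G →* unitary (H →L[ℂ] H)) (g h : G) :
    (ρ (g * h) : H →L[ℂ] H) = (ρ g : H →L[ℂ] H) * (ρ h : H →L[ℂ] H) := by
  rw [map_mul]
  rfl

/-- The relative commutant, as a star subalgebra. -/
def relc (M : VonNeumannAlgebra H) (ρ : G →* unitary (H →L[ℂ] H)) :
    StarSubalgebra ℂ (H →L[ℂ] H) :=
  M.toStarSubalgebra ⊓ StarSubalgebra.centralizer ℂ (Set.range fun g => (ρ g : H →L[ℂ] H))

theorem mem_relc {x : H →L[ℂ] H} : x ∈ relc M ρ ↔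
    x ∈ M ∧ ∀ g, (ρ g : H →L[ℂ] H) * x = x * (ρ g : H →L[ℂ] H) := by
  unfold relc
  rw [StarSubalgebra.mem_inf, StarSubalgebra.mem_centralizer_iff]
  constructor
  · rintro ⟨h1, h2⟩
    exact ⟨h1, fun g => (h2 _ ⟨g, rfl⟩).1⟩
  · rintro ⟨h1, h2⟩
    refine ⟨h1, ?_⟩
    rintro _ ⟨g, rfl⟩
    refine ⟨h2 g, ?_⟩
    have := h2 g⁻¹
    rw [rho_inv] at this
    exact this

theorem relc_closed : IsClosed (relc M ρ : Set (H →L[ℂ] H)) := by
  have h1 : (relc M ρ : Set (H →L[ℂ] H)) =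
      ((M.toStarSubalgebra : StarSubalgebra ℂ (H →L[ℂ] H)) : Set (H →L[ℂ] H)) ∩
        ⋂ g, {x | (ρ g : H →L[ℂ] H) * x = x * (ρ g : H →L[ℂ] H)} := by
    ext x
    rw [Set.mem_inter_iff, Set.mem_iInter, SetLike.mem_coe, mem_relc]
    rfl
  rw [h1]
  refine (isClosed_elt M).inter (isClosed_iInter fun g => ?_)
  exact isClosed_eq (by fun_prop) (by fun_prop)

theorem MasaRep.span (h : MasaRep M ρ) {x : H →L[ℂ] H} (hx : x ∈ M)
    (hc : ∀ g, (ρ g : H →L[ℂ] H) * x = x * (ρ g : H →L[ℂ] H)) :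
    ∃ (g : Fin 4 → G) (c : Fin 4 → ℂ), x = ∑ i, c i • (ρ (g i) : H →L[ℂ] H) := by
  let inst : CStarAlgebra (relc M ρ) :=
    StarSubalgebra.cstarAlgebra (h_closed := relc_closed) (relc M ρ)
  obtain ⟨u, c, hxu, -⟩ := CStarAlgebra.exists_sum_four_unitary
    (⟨x, mem_relc.2 ⟨hx, hc⟩⟩ : relc M ρ)
  have hu : ∀ i, ∃ g, (ρ g : H →L[ℂ] H) = ((u i : relc M ρ) : H →L[ℂ] H) := by
    intro i
    have h1 : ((u i : relc M ρ) : H →L[ℂ] H) ∈ unitary (H →L[ℂ] H) := by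
      rw [Unitary.mem_iff]
      have h2 := Unitary.star_mul_self_of_mem (u i).2
      have h3 := Unitary.mul_star_self_of_mem (u i).2
      exact ⟨congrArg (fun z : relc M ρ => (z : H →L[ℂ] H)) h2,
        congrArg (fun z : relc M ρ => (z : H →L[ℂ] H)) h3⟩
    have h4 := mem_relc.1 (u i : relc M ρ).2
    obtain ⟨g, hg⟩ := h.max ⟨_, h1⟩ h4.1 h4.2
    exact ⟨g, by rw [hg]⟩
  choose g hg using hu
  refine ⟨g, c, ?_⟩
  have h1 := congrArg (relc M ρ).subtype hxu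
  rw [map_sum] at h1
  refine h1.trans (Finset.sum_congr rfl fun i _ => ?_)
  rw [map_smul, hg]
  rfl

theorem MasaRep.mem_of (h : MasaRep M ρ) {N : VonNeumannAlgebra H}
    (hN : ∀ g, (ρ g : H →L[ℂ] H) ∈ N) {x : H →L[ℂ] H} (hx : x ∈ M)
    (hc : ∀ g, (ρ g : H →L[ℂ] H) * x = x * (ρ g : H →L[ℂ] H)) : x ∈ N := by
  obtain ⟨g, c, hxg⟩ := h.span hx hc
  rw [hxg]
  exact sum_mem fun i _ => N.toStarSubalgebra.smul_mem (hN _) _

/-- conjugation averages -/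
theorem av_conj_comm {m : (G → ℂ) → ℂ} (hm : IsCMean m) (ρ : G →* unitary (H →L[ℂ] H))
    (y : H →L[ℂ] H) (h : G) :
    (ρ h : H →L[ℂ] H) * av m (fun g => star (ρ g : H →L[ℂ] H) * y * (ρ g : H →L[ℂ] H)) =
      av m (fun g => star (ρ g : H →L[ℂ] H) * y * (ρ g : H →L[ℂ] H)) * (ρ h : H →L[ℂ] H) := by
  have hρ : BF (fun g => (ρ g : H →L[ℂ] H)) := ⟨1, fun g => unitary_norm_le _⟩
  have hB : BF (fun g => star (ρ g : H →L[ℂ] H) * y * (ρ g : H →L[ℂ] H)) :=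
    (hρ.star.mul (BF.const y)).mul hρ
  rw [← av_inv hm h hB]
  set T := av m (fun g => star (ρ (h * g) : H →L[ℂ] H) * y * (ρ (h * g) : H →L[ℂ] H)) with hT
  rw [hT, ← av_mul_left hm _ (hB.shift h)]
  have h2 : av m (fun g => star (ρ (h * g) : H →L[ℂ] H) * y * (ρ (h * g) : H →L[ℂ] H)) =
      av m (fun g => star (ρ g : H →L[ℂ] H) * y * (ρ g : H →L[ℂ] H)) := av_inv hm h hB
  rw [h2, ← av_mul_right hm _ hB]
  congr 1
  funext g
  have e1 : (ρ (h * g) : H →L[ℂ] H) = (ρ g : H →L[ℂ] H) * (ρ h : H →L[ℂ] H) := by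
    rw [mul_comm, rho_mul]
  have e2 : star (ρ (h * g) : H →L[ℂ] H) = star (ρ h : H →L[ℂ] H) * star (ρ g : H →L[ℂ] H) := by
    rw [e1, star_mul]
  rw [e2, e1]
  calc (ρ h : H →L[ℂ] H) * (star (ρ h : H →L[ℂ] H) * star (ρ g : H →L[ℂ] H) * y *
        ((ρ g : H →L[ℂ] H) * (ρ h : H →L[ℂ] H)))
      = (ρ h : H →L[ℂ] H) * (star (ρ h : H →L[ℂ] H) * (star (ρ g : H →L[ℂ] H) * y *
        (ρ g : H →L[ℂ] H) * (ρ h : H →L[ℂ] H))) := by noncomm_ring
    _ = _ := uus_mul _ _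

/-- If the maximal commuting family of `M` lies in the close algebra `N`, then its relative
commutant in `N` is contained in `M`. -/
theorem MasaRep.near (h : MasaRep M ρ) {N : VonNeumannAlgebra H}
    (hN : ∀ g, (ρ g : H →L[ℂ] H) ∈ N) {ε : ℝ} (hε1 : ε ≤ 1 / 2) (hNM : NI ε N M)
    {y : H →L[ℂ] H} (hy : y ∈ N)
    (hc : ∀ g, (ρ g : H →L[ℂ] H) * y = y * (ρ g : H →L[ℂ] H)) : y ∈ M := by
  obtain ⟨m, hm⟩ := exists_cmean G
  have hρ : BF (fun g => (ρ g : H →L[ℂ] H)) := ⟨1, fun g => unitary_norm_le _⟩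
  -- one step
  have hstep : ∀ z ∈ N, (∀ g, (ρ g : H →L[ℂ] H) * z = z * (ρ g : H →L[ℂ] H)) →
      ∃ a ∈ relc M ρ, ‖z - a‖ ≤ ε * ‖z‖ := by
    intro z hz hcz
    obtain ⟨x, hx, hzx⟩ := hNM z hz
    have hB : BF (fun g => star (ρ g : H →L[ℂ] H) * x * (ρ g : H →L[ℂ] H)) :=
      (hρ.star.mul (BF.const x)).mul hρ
    refine ⟨av m (fun g => star (ρ g : H →L[ℂ] H) * x * (ρ g : H →L[ℂ] H)),
      mem_relc.2 ⟨?_, fun g => av_conj_comm hm ρ x g⟩, ?_⟩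
    · exact av_mem hm hB M fun g => mul_mem (mul_mem (star_mem (h.mem g)) hx) (h.mem g)
    · have e : z - av m (fun g => star (ρ g : H →L[ℂ] H) * x * (ρ g : H →L[ℂ] H)) =
          av m (fun g => z - star (ρ g : H →L[ℂ] H) * x * (ρ g : H →L[ℂ] H)) := by
        rw [av_sub hm (BF.const z) hB, av_const hm]
      rw [e]
      refine av_norm_le hm fun g => ?_
      have e2 : z - star (ρ g : H →L[ℂ] H) * x * (ρ g : H →L[ℂ] H) =
          star (ρ g : H →L[ℂ] H) * (z - x) * (ρ g : H →L[ℂ] H) := by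
        have e3 : z = star (ρ g : H →L[ℂ] H) * z * (ρ g : H →L[ℂ] H) := by
          rw [mul_assoc, ← hcz, usu_mul]
        rw [mul_sub, sub_mul, ← e3]
      rw [e2]
      have h1 : ‖(ρ g : H →L[ℂ] H)‖ ≤ 1 := unitary_norm_le _
      have h2 : ‖star (ρ g : H →L[ℂ] H)‖ ≤ 1 := by rw [norm_star]; exact h1
      calc _ ≤ ‖star (ρ g : H →L[ℂ] H) * (z - x)‖ * ‖(ρ g : H →L[ℂ] H)‖ := norm_mul_le _ _
        _ ≤ (1 * ‖z - x‖) * 1 := by
          refine mul_le_mul ((norm_mul_le _ _).trans ?_) h1 (norm_nonneg _) (by positivity)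
          exact mul_le_mul_of_nonneg_right h2 (norm_nonneg _)
        _ ≤ ε * ‖z‖ := by linarith
  have hne : (relc M ρ : Set (H →L[ℂ] H)).Nonempty := ⟨0, zero_mem _⟩
  have hd0 : Metric.infDist y (relc M ρ : Set (H →L[ℂ] H)) = 0 := by
    by_contra hd
    set d := Metric.infDist y (relc M ρ : Set (H →L[ℂ] H)) with hdd
    have hd1 : 0 < d := lt_of_le_of_ne Metric.infDist_nonneg (Ne.symm hd)
    obtain ⟨a, ha, hya⟩ := (Metric.infDist_lt_iff (r := 2 * d) hne).1 (by rw [← hdd]; linarith)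
    have ha' := mem_relc.1 ha
    have haN : a ∈ N := h.mem_of hN ha'.1 ha'.2
    obtain ⟨b, hb, hyb⟩ := hstep (y - a) (sub_mem hy haN) (fun g => by
      rw [mul_sub, sub_mul, hc, ha'.2])
    have h1 : d ≤ dist y (a + b) := Metric.infDist_le_dist_of_mem (add_mem ha hb)
    rw [dist_eq_norm] at h1 hya
    have h2 : ‖y - (a + b)‖ ≤ ε * ‖y - a‖ := by
      rw [← sub_sub]
      exact hyb
    have h3 : ε * ‖y - a‖ ≤ 1 / 2 * ‖y - a‖ := mul_le_mul_of_nonneg_right hε1 (norm_nonneg _)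
    linarith
  have h1 : y ∈ closure (relc M ρ : Set (H →L[ℂ] H)) :=
    (Metric.mem_closure_iff_infDist_zero hne).2 hd0
  rw [relc_closed.closure_eq] at h1
  exact (mem_relc.1 h1).1

end

/-! ### Normality and averages -/

section

variable {G : Type} [CommGroup G] {m : (G → ℂ) → ℂ}

theorem cm_const (hm : IsCMean m) (c : ℂ) : m (fun _ => c) = c := by
  have h := hm.smul c (fun _ => 1) ⟨1, fun _ => by simp⟩
  simp only [hm.one, mul_one] at h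
  exact h

theorem CB.add {G : Type} {f g : G → ℂ} (hf : CB f) (hg : CB g) : CB (fun x => f x + g x) := by
  obtain ⟨C, hC⟩ := hf
  obtain ⟨C', hC'⟩ := hg
  exact ⟨C + C', fun x => (norm_add_le _ _).trans (add_le_add (hC x) (hC' x))⟩

theorem CB.sum {G : Type} {ι : Type} (s : Finset ι) (f : ι → G → ℂ) (hf : ∀ i, CB (f i)) :
    CB (fun x => ∑ i ∈ s, f i x) := by
  choose C hC using hf
  exact ⟨∑ i ∈ s, C i, fun x => (norm_sum_le _ _).trans (Finset.sum_le_sum fun i _ => hC i x)⟩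

theorem cm_sum (hm : IsCMean m) {ι : Type} (s : Finset ι) (f : ι → G → ℂ)
    (hf : ∀ i, CB (f i)) : m (fun x => ∑ i ∈ s, f i x) = ∑ i ∈ s, m (f i) := by
  classical
  induction s using Finset.induction_on with
  | empty => simp only [Finset.sum_empty]; exact cm_const hm 0
  | insert a s ha ih =>
    rw [Finset.sum_insert ha, ← ih, ← hm.add _ _ (hf a) (CB.sum s f hf)]
    congr 1
    funext x
    rw [Finset.sum_insert ha]

theorem av_inner' (hm : IsCMean m) {F : G → (H →L[ℂ] H)} (hF : BF F) (v w : H) :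
    ⟪w, av m F v⟫_ℂ = m (fun g => ⟪w, F g v⟫_ℂ) := by
  rw [← inner_conj_symm, av_inner hm hF, ← hm.cnj _ (hF.cb v w)]
  congr 1
  funext g
  exact inner_conj_symm _ _

theorem av_normal (hm : IsCMean m) {F : G → (H →L[ℂ] H)} (hF : BF F) (ξ : ℕ → H)
    (hξ : Summable fun k => ‖ξ k‖ ^ 2) (c : ℂ) (h : ∀ g, ∑' k, ⟪ξ k, F g (ξ k)⟫_ℂ = c) :
    ∑' k, ⟪ξ k, av m F (ξ k)⟫_ℂ = c := by
  obtain ⟨C, hC⟩ := hF
  have hF : BF F := ⟨C, hC⟩
  have hT : ‖av m F‖ ≤ C := av_norm_le hm hC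
  have hC0 : 0 ≤ C := (norm_nonneg _).trans hT
  have hbd : ∀ (T : H →L[ℂ] H), ‖T‖ ≤ C → ∀ k, ‖⟪ξ k, T (ξ k)⟫_ℂ‖ ≤ C * ‖ξ k‖ ^ 2 := by
    intro T hT k
    calc _ ≤ ‖ξ k‖ * ‖T (ξ k)‖ := norm_inner_le_norm _ _
      _ ≤ ‖ξ k‖ * (C * ‖ξ k‖) := by
        refine mul_le_mul_of_nonneg_left ?_ (norm_nonneg _)
        exact (T.le_opNorm _).trans (mul_le_mul_of_nonneg_right hT (norm_nonneg _))
      _ = C * ‖ξ k‖ ^ 2 := by ring
  have hs : ∀ (T : H →L[ℂ] H), ‖T‖ ≤ C → Summable fun k => ⟪ξ k, T (ξ k)⟫_ℂ := fun T hT =>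
    Summable.of_norm_bounded (hξ.mul_left C) (hbd T hT)
  have htail : ∀ (T : H →L[ℂ] H), ‖T‖ ≤ C → ∀ n,
      ‖(∑' k, ⟪ξ k, T (ξ k)⟫_ℂ) - ∑ k ∈ Finset.range n, ⟪ξ k, T (ξ k)⟫_ℂ‖ ≤
        C * ∑' k, ‖ξ (k + n)‖ ^ 2 := by
    intro T hT n
    rw [← (hs T hT).sum_add_tsum_nat_add n, add_sub_cancel_left]
    have hs2 : Summable fun k => C * ‖ξ (k + n)‖ ^ 2 :=
      ((summable_nat_add_iff n).2 hξ).mul_left C
    rw [← tsum_mul_left]
    exact tsum_of_norm_bounded hs2.hasSum fun k => hbd T hT (k + n)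
  have hsT := hs _ hT
  have h0 : Tendsto (fun n => C * ∑' k, ‖ξ (k + n)‖ ^ 2) atTop (𝓝 0) := by
    have := (tendsto_sum_nat_add fun k => ‖ξ k‖ ^ 2).const_mul C
    rwa [mul_zero] at this
  have h1 : ∀ n, ‖c - ∑ k ∈ Finset.range n, ⟪ξ k, av m F (ξ k)⟫_ℂ‖ ≤
      C * ∑' k, ‖ξ (k + n)‖ ^ 2 := by
    intro n
    have hcb : ∀ k, CB (fun g => ⟪ξ k, F g (ξ k)⟫_ℂ) := fun k =>
      ⟨C * ‖ξ k‖ ^ 2, fun g => hbd (F g) (hC g) k⟩
    have e1 : ∑ k ∈ Finset.range n, ⟪ξ k, av m F (ξ k)⟫_ℂ =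
        m (fun g => ∑ k ∈ Finset.range n, ⟪ξ k, F g (ξ k)⟫_ℂ) := by
      rw [cm_sum hm _ _ hcb]
      exact Finset.sum_congr rfl fun k _ => av_inner' hm hF _ _
    have hcb2 : CB (fun g => ∑ k ∈ Finset.range n, ⟪ξ k, F g (ξ k)⟫_ℂ) := CB.sum _ _ hcb
    have e2 : c - m (fun g => ∑ k ∈ Finset.range n, ⟪ξ k, F g (ξ k)⟫_ℂ) =
        m (fun g => c + (-1) * ∑ k ∈ Finset.range n, ⟪ξ k, F g (ξ k)⟫_ℂ) := by
      rw [hm.add (fun _ => c) (fun g => (-1) * ∑ k ∈ Finset.range n, ⟪ξ k, F g (ξ k)⟫_ℂ)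
        ⟨‖c‖, fun _ => le_rfl⟩ (by
          obtain ⟨D, hD⟩ := hcb2
          exact ⟨D, fun g => by rw [norm_mul, norm_neg, norm_one, one_mul]; exact hD g⟩),
        hm.smul _ _ hcb2, cm_const hm]
      ring
    rw [e1, e2]
    refine hm.le _ _ fun g => ?_
    have h2 := htail (F g) (hC g) n
    rw [h g] at h2
    convert h2 using 2
    ring
  have h2 : Tendsto (fun n => ∑ k ∈ Finset.range n, ⟪ξ k, av m F (ξ k)⟫_ℂ) atTop (𝓝 c) := by
    rw [tendsto_iff_norm_sub_tendsto_zero]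
    refine squeeze_zero (fun n => norm_nonneg _) (fun n => ?_) h0
    rw [norm_sub_rev]
    exact h1 n
  exact tendsto_nhds_unique hsT.hasSum.tendsto_sum_nat h2

end

end Pool.Agent.N242.KK
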