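import Mathlib
import Pool.Agent.N242.KK.Masa
import Pool.Agent.H518R5.SC.CMP
import Pool.Agent.H518R5.SC.SPLITz
import Pool.Agent.H518R5.SC.FSC
import Pool.Agent.H518R5.SC.POLC
import Pool.Agent.H518R4.UG.FCT

/-!
The traces of close II_1 factors agree on common projections.
-/

set_option autoImplicit false
set_option linter.unusedSectionVars false

open scoped InnerProductSpace ComplexConjugate
open Filter Topology

noncomputable section

namespace Pool.Agent.N242.KK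

open Pool.Agent.H467F Pool.Agent.H518R4.UG Pool.Agent.H518R5.SC

variable {H : Type} [NormedAddCommGroup H] [InnerProductSpace ℂ H] [CompleteSpace H]

theorem ii_of {M : VonNeumannAlgebra H} {τ : Elt M →ₗ[ℂ] ℂ}
    (h : IsIIOneFactor M (τ : Elt M → ℂ)) : II τ :=
  ⟨p_FCT H M τ h, p_FSC H M, p_POLC H M⟩

theorem prj_coe {M : VonNeumannAlgebra H} {p : Elt M} (hp : IsPrj p) :
    star (p : H →L[ℂ] H) = p ∧ (p : H →L[ℂ] H) * p = p :=
  ⟨congrArg (fun z : Elt M => (z : H →L[ℂ] H)) hp.1,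
    congrArg (fun z : Elt M => (z : H →L[ℂ] H)) hp.2⟩

theorem prj_norm {p : H →L[ℂ] H} (h1 : star p = p) (h2 : p * p = p) : ‖p‖ ≤ 1 := by
  have h : ‖p‖ * ‖p‖ = ‖p‖ := by
    rw [← CStarRing.norm_star_mul_self, h1, h2]
  nlinarith [norm_nonneg p]

/-- Equivalences of projections can be moved to a close von Neumann algebra. -/
theorem lift_sub {M N : VonNeumannAlgebra H} {σ : Elt N →ₗ[ℂ] ℂ} (hσ : II σ)
    {ε η : ℝ} (hε : 0 ≤ ε) (hη : 0 ≤ η) (hc : 3 * ε + 7 * η < 1) (hMN : NI ε M N)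
    {p q s : H →L[ℂ] H} {p' q' : Elt N} (hp' : IsPrj p') (hq' : IsPrj q') (hs : s ∈ M)
    (hsp : star s * s = p) (hpp : p * p = p) (hqs : q * s = s)
    (hp : ‖p - p'‖ ≤ η) (hq : ‖q - q'‖ ≤ η) : (σ p').re ≤ (σ q').re := by
  obtain ⟨y, hy, hsy⟩ := hMN s hs
  have hps : star p = p := by rw [← hsp, star_mul, star_star]
  have hpn : ‖p‖ ≤ 1 := prj_norm hps hpp
  have hsn : ‖s‖ ≤ 1 := by
    have h : ‖s‖ * ‖s‖ ≤ 1 := by
      rw [← CStarRing.norm_star_mul_self, hsp]
      exact hpn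
    nlinarith [norm_nonneg s]
  have hspp : s * p = s := by
    have h1 : star (s * p - s) * (s * p - s) = 0 := by
      rw [star_sub, star_mul, hps]
      calc (p * star s - star s) * (s * p - s)
          = p * (star s * s) * p - p * (star s * s) - (star s * s) * p + star s * s := by
            noncomm_ring
        _ = 0 := by rw [hsp, hpp, hpp]; abel
    have h2 : s * p - s = 0 := by
      have h3 := CStarRing.norm_star_mul_self (x := s * p - s)
      rw [h1, norm_zero] at h3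
      exact norm_eq_zero.1 (mul_self_eq_zero.1 h3.symm)
    exact sub_eq_zero.1 h2
  obtain ⟨hp'1, hp'2⟩ := prj_coe hp'
  obtain ⟨hq'1, hq'2⟩ := prj_coe hq'
  have hp'n := prj_norm hp'1 hp'2
  have hq'n := prj_norm hq'1 hq'2
  let x : Elt N := q' * ⟨y, hy⟩ * p'
  have hxc : (x : H →L[ℂ] H) = (q' : H →L[ℂ] H) * y * (p' : H →L[ℂ] H) := rfl
  have hxs : ‖(x : H →L[ℂ] H) - s‖ ≤ ε + 2 * η := by
    have e : (x : H →L[ℂ] H) - s = -((q' : H →L[ℂ] H) * (s - y) * (p' : H →L[ℂ] H)) -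
        (q - (q' : H →L[ℂ] H)) * (s * (p' : H →L[ℂ] H)) -
        q * s * (p - (p' : H →L[ℂ] H)) := by
      rw [hxc]
      have h1 : q * s * (p - (p' : H →L[ℂ] H)) = s - s * (p' : H →L[ℂ] H) := by
        rw [hqs, mul_sub, hspp]
      have h2 : (q - (q' : H →L[ℂ] H)) * (s * (p' : H →L[ℂ] H)) =
          s * (p' : H →L[ℂ] H) - (q' : H →L[ℂ] H) * s * (p' : H →L[ℂ] H) := by
        rw [sub_mul, ← mul_assoc, hqs, mul_assoc (q' : H →L[ℂ] H)]
      rw [h1, h2]
      noncomm_ring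
    rw [e]
    have t1 : ‖-((q' : H →L[ℂ] H) * (s - y) * (p' : H →L[ℂ] H))‖ ≤ ε := by
      rw [norm_neg]
      calc _ ≤ ‖(q' : H →L[ℂ] H) * (s - y)‖ * ‖(p' : H →L[ℂ] H)‖ := norm_mul_le _ _
        _ ≤ (1 * ‖s - y‖) * 1 := by
          refine mul_le_mul ((norm_mul_le _ _).trans ?_) hp'n (norm_nonneg _) (by positivity)
          exact mul_le_mul_of_nonneg_right hq'n (norm_nonneg _)
        _ ≤ ε := by
          have := mul_le_mul_of_nonneg_left hsn hε
          linarith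
    have t2 : ‖(q - (q' : H →L[ℂ] H)) * (s * (p' : H →L[ℂ] H))‖ ≤ η := by
      calc _ ≤ ‖q - (q' : H →L[ℂ] H)‖ * ‖s * (p' : H →L[ℂ] H)‖ := norm_mul_le _ _
        _ ≤ η * (1 * 1) := by
          refine mul_le_mul hq ((norm_mul_le _ _).trans ?_) (norm_nonneg _) hη
          exact mul_le_mul hsn hp'n (norm_nonneg _) zero_le_one
        _ = η := by ring
    have t3 : ‖q * s * (p - (p' : H →L[ℂ] H))‖ ≤ η := by
      rw [hqs]
      calc _ ≤ ‖s‖ * ‖p - (p' : H →L[ℂ] H)‖ := norm_mul_le _ _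
        _ ≤ 1 * η := mul_le_mul hsn hp (norm_nonneg _) zero_le_one
        _ = η := one_mul _
    calc _ ≤ ‖-((q' : H →L[ℂ] H) * (s - y) * (p' : H →L[ℂ] H)) -
        (q - (q' : H →L[ℂ] H)) * (s * (p' : H →L[ℂ] H))‖ + ‖q * s * (p - (p' : H →L[ℂ] H))‖ :=
          norm_sub_le _ _
      _ ≤ (ε + η) + η := add_le_add ((norm_sub_le _ _).trans (add_le_add t1 t2)) t3
      _ = ε + 2 * η := by ring
  have hxn : ‖(x : H →L[ℂ] H)‖ ≤ 2 := by
    calc ‖(x : H →L[ℂ] H)‖ = ‖((x : H →L[ℂ] H) - s) + s‖ := by rw [sub_add_cancel]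
      _ ≤ (ε + 2 * η) + 1 := (norm_add_le _ _).trans (add_le_add hxs hsn)
      _ ≤ 2 := by linarith
  have hxx : ‖(p' : H →L[ℂ] H) - star (x : H →L[ℂ] H) * (x : H →L[ℂ] H)‖ < 1 := by
    have e : (p' : H →L[ℂ] H) - star (x : H →L[ℂ] H) * (x : H →L[ℂ] H) =
        -(p - (p' : H →L[ℂ] H)) - (star (x : H →L[ℂ] H) * ((x : H →L[ℂ] H) - s) +
          star ((x : H →L[ℂ] H) - s) * s) := by
      rw [← hsp, star_sub]
      noncomm_ring
    rw [e]
    have t1 : ‖star (x : H →L[ℂ] H) * ((x : H →L[ℂ] H) - s)‖ ≤ 2 * (ε + 2 * η) := by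
      refine (norm_mul_le _ _).trans ?_
      rw [norm_star]
      exact mul_le_mul hxn hxs (norm_nonneg _) (by norm_num)
    have t2 : ‖star ((x : H →L[ℂ] H) - s) * s‖ ≤ (ε + 2 * η) * 1 := by
      refine (norm_mul_le _ _).trans ?_
      rw [norm_star]
      exact mul_le_mul hxs hsn (norm_nonneg _) (by positivity)
    calc _ ≤ ‖-(p - (p' : H →L[ℂ] H))‖ + ‖star (x : H →L[ℂ] H) * ((x : H →L[ℂ] H) - s) +
          star ((x : H →L[ℂ] H) - s) * s‖ := norm_sub_le _ _
      _ ≤ η + (2 * (ε + 2 * η) + (ε + 2 * η) * 1) := by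
        refine add_le_add (by rw [norm_neg]; exact hp) ((norm_add_le _ _).trans (add_le_add t1 t2))
      _ < 1 := by linarith
  obtain ⟨v, a, ha1, -, ha3, hv1, hv2, hv3, hv4, hv5, -⟩ := hσ.pol x
  have hxp : x * p' = x := by
    show q' * ⟨y, hy⟩ * p' * p' = q' * ⟨y, hy⟩ * p'
    rw [mul_assoc, hp'.2]
  have hqx : q' * x = x := by
    show q' * (q' * ⟨y, hy⟩ * p') = q' * ⟨y, hy⟩ * p'
    rw [← mul_assoc, ← mul_assoc, hq'.2]
  obtain ⟨hvp, hap⟩ := hv4 p' hp' hxp
  have hqv := hv3 q' hq' hqx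
  have hpvv : p' * (star v * v) = star v * v := by
    have h1 : (star v * v) * p' = star v * v := by rw [mul_assoc, hvp]
    have h2 := congrArg star h1
    rwa [star_mul, hp'.1, hv1.1] at h2
  have hr := SPLITx.sub_prj hp' hv1 hpvv
  have hav : a * (star v * v) = a := by
    have h2 := congrArg star hv5
    rwa [star_mul, ha1, hv1.1] at h2
  have hxr : x * (p' - star v * v) = 0 := by
    rw [← ha3, mul_assoc, mul_sub, hap, hav, sub_self, mul_zero]
  have hpr : p' * (p' - star v * v) = p' - star v * v := by rw [mul_sub, hp'.2, hpvv]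
  have hr0 : p' - star v * v = 0 := by
    have h1 : (p' - star x * x) * (p' - star v * v) = p' - star v * v := by
      rw [sub_mul, mul_assoc, hxr, mul_zero, sub_zero, hpr]
    have h2 : ‖p' - star v * v‖ ≤ ‖p' - star x * x‖ * ‖p' - star v * v‖ := by
      conv_lhs => rw [← h1]
      exact norm_mul_le _ _
    have h3 : ‖p' - star x * x‖ < 1 := hxx
    have h4 : ‖p' - star v * v‖ = 0 := by
      by_contra h5
      have h6 : 0 < ‖p' - star v * v‖ := lt_of_le_of_ne (norm_nonneg _) (Ne.symm h5)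
      nlinarith
    exact norm_eq_zero.1 h4
  have hpe : p' = star v * v := sub_eq_zero.1 hr0
  have htw := hσ.fct.tw
  have hqvv : q' * (v * star v) = v * star v := by rw [← mul_assoc, hqv]
  have h7 := SPLITx.tr_nonneg htw (SPLITx.sub_prj hq' hv2 hqvv)
  rw [map_sub, Complex.sub_re] at h7
  have h8 : σ p' = σ (v * star v) := by
    rw [hpe]
    exact htw.comm _ _
  rw [h8]
  linarith

/-- Comparison of traces of close projections in close factors. -/
theorem tr_mono {M N : VonNeumannAlgebra H} {τ : Elt M →ₗ[ℂ] ℂ} {σ : Elt N →ₗ[ℂ] ℂ} (hτ : II τ)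
    (hσ : II σ) {ε η : ℝ} (hε : 0 ≤ ε) (hη : 0 ≤ η) (hc : 3 * ε + 7 * η < 1) (hMN : NI ε M N)
    {p q : Elt M} {p' q' : Elt N} (hp : IsPrj p) (hq : IsPrj q) (hp' : IsPrj p')
    (hq' : IsPrj q') (h : (τ p).re ≤ (τ q).re)
    (hpp : ‖(p : H →L[ℂ] H) - p'‖ ≤ η) (hqq : ‖(q : H →L[ℂ] H) - q'‖ ≤ η) :
    (σ p').re ≤ (σ q').re := by
  obtain ⟨s, hs1, hs2, -, -⟩ := p_CMP (Elt M) τ hτ q p hq hp h
  exact lift_sub hσ hε hη hc hMN hp' hq' s.2
    (congrArg (fun z : Elt M => (z : H →L[ℂ] H)) hs1) (prj_coe hp).2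
    (congrArg (fun z : Elt M => (z : H →L[ℂ] H)) hs2) hpp hqq

theorem sum_prj {A : Type} [CStarAlgebra A] {n : ℕ} {p : Fin n → A} {e : A} (hp : IsPart p e)
    (S : Finset (Fin n)) : IsPrj (∑ j ∈ S, p j) := by
  classical
  refine ⟨?_, ?_⟩
  · rw [star_sum]
    exact Finset.sum_congr rfl fun j _ => (hp.prj j).1
  · rw [Finset.sum_mul]
    refine Finset.sum_congr rfl fun i hi => ?_
    rw [Finset.mul_sum, Finset.sum_eq_single i]
    · exact (hp.prj i).2
    · intro j _ hj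
      exact hp.ort i j (Ne.symm hj)
    · intro h
      exact absurd hi h

/-- **The traces agree on common projections.** -/
theorem trace_prj {M N : VonNeumannAlgebra H} {τ : Elt M →ₗ[ℂ] ℂ} {σ : Elt N →ₗ[ℂ] ℂ}
    (hM : IsIIOneFactor M (τ : Elt M → ℂ)) (hN : IsIIOneFactor N (σ : Elt N → ℂ)) {ε : ℝ}
    (hε : 0 ≤ ε) (hε1 : ε ≤ 1 / 100000) (hMN : NI ε M N) (e : H →L[ℂ] H) (heM : e ∈ M)
    (heN : e ∈ N) (hes : star e = e) (hee : e * e = e) :
    τ ⟨e, heM⟩ = σ ⟨e, heN⟩ := by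
  have hτ := ii_of hM
  have hσ := ii_of hN
  have hτw := hτ.fct.tw
  have hσw := hσ.fct.tw
  have hnt : Nontrivial H := by
    by_contra hH
    have hs : Subsingleton H := not_nontrivial_iff_subsingleton.1 hH
    have h1 : (1 : Elt M) = 0 := Subtype.ext (Subsingleton.elim _ _)
    have h2 := hτw.one
    rw [h1, map_zero] at h2
    exact zero_ne_one h2
  set eM : Elt M := ⟨e, heM⟩ with heMd
  set eN : Elt N := ⟨e, heN⟩ with heNd
  have hPM : IsPrj eM := ⟨Subtype.ext hes, Subtype.ext hee⟩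
  have hPN : IsPrj eN := ⟨Subtype.ext hes, Subtype.ext hee⟩
  have hkey : ∀ n : ℕ, 0 < n → |(τ eM).re - (σ eN).re| ≤ 1 / (n : ℝ) := by
    intro n hn
    have hnR : (0 : ℝ) < n := by exact_mod_cast hn
    have h1M : IsPrj (1 : Elt M) := ⟨star_one _, mul_one 1⟩
    obtain ⟨p, hp, hpt⟩ := p_SPLIT p_CMP (Elt M) τ hτ 1 h1M n (fun _ => 1 / (n : ℝ)) hn
      (fun _ => by positivity) (by
        rw [Finset.sum_const, Finset.card_univ, Fintype.card_fin, nsmul_eq_mul, hτw.one,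
          Complex.one_re]
        field_simp)
    -- the symmetries
    have hpc : ∀ j, star (p j : H →L[ℂ] H) = p j ∧ (p j : H →L[ℂ] H) * p j = p j :=
      fun j => prj_coe (hp.prj j)
    have hpcc : ∀ i j, (p i : H →L[ℂ] H) * p j = (p j : H →L[ℂ] H) * p i := by
      intro i j
      by_cases hij : i = j
      · rw [hij]
      · have h1 := congrArg (fun z : Elt M => (z : H →L[ℂ] H)) (hp.ort i j hij)
        have h2 := congrArg (fun z : Elt M => (z : H →L[ℂ] H)) (hp.ort j i (Ne.symm hij))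
        exact h1.trans h2.symm
    have hw : ∀ j, (1 - (2 : ℂ) • (p j : H →L[ℂ] H)) ∈ unitary (H →L[ℂ] H) := by
      intro j
      have h1 : (1 - (2 : ℂ) • (p j : H →L[ℂ] H)) * (1 - (2 : ℂ) • (p j : H →L[ℂ] H)) = 1 := by
        simp only [sub_mul, mul_sub, one_mul, mul_one, smul_mul_assoc, mul_smul_comm, (hpc j).2]
        module
      have h2 : star (1 - (2 : ℂ) • (p j : H →L[ℂ] H)) = 1 - (2 : ℂ) • (p j : H →L[ℂ] H) := by
        rw [star_sub, star_one, star_smul, (hpc j).1]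
        congr 2
        exact Complex.conj_ofNat 2
      rw [Unitary.mem_iff, h2]
      exact ⟨h1, h1⟩
    obtain ⟨G, inst, ρ, hρ, hρS⟩ := exists_masa M (Set.range fun j =>
        (⟨1 - (2 : ℂ) • (p j : H →L[ℂ] H), hw j⟩ : unitary (H →L[ℂ] H))) (by
      rintro _ ⟨j, rfl⟩
      exact sub_mem (one_mem M) (M.toStarSubalgebra.smul_mem (p j).2 _)) (by
      rintro _ ⟨i, rfl⟩ _ ⟨j, rfl⟩
      apply Subtype.ext
      show (1 - (2 : ℂ) • (p i : H →L[ℂ] H)) * (1 - (2 : ℂ) • (p j : H →L[ℂ] H)) =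
        (1 - (2 : ℂ) • (p j : H →L[ℂ] H)) * (1 - (2 : ℂ) • (p i : H →L[ℂ] H))
      simp only [sub_mul, mul_sub, one_mul, mul_one, smul_mul_assoc, mul_smul_comm]
      rw [hpcc i j]
      module)
    obtain ⟨u, hu1, hu2, -⟩ := pert N ρ ε hε (by linarith) (by
      intro g
      obtain ⟨y, hy, hy2⟩ := hMN _ (hρ.mem g)
      refine ⟨y, hy, hy2.trans ?_⟩
      have := mul_le_mul_of_nonneg_left (unitary_norm_le (ρ g)) hε
      linarith)
    have hq : ∀ j, (u : H →L[ℂ] H) * (p j : H →L[ℂ] H) * star (u : H →L[ℂ] H) ∈ N := by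
      intro j
      obtain ⟨g, hg⟩ := hρS _ ⟨j, rfl⟩
      have h1 := hu2 g
      rw [hg] at h1
      have h2 : (u : H →L[ℂ] H) * (1 - (2 : ℂ) • (p j : H →L[ℂ] H)) * star (u : H →L[ℂ] H) ∈ N := h1
      have h3 : (u : H →L[ℂ] H) * (p j : H →L[ℂ] H) * star (u : H →L[ℂ] H) =
          (2 : ℂ)⁻¹ • (1 - (u : H →L[ℂ] H) * (1 - (2 : ℂ) • (p j : H →L[ℂ] H)) *
            star (u : H →L[ℂ] H)) := by
        rw [mul_sub, sub_mul, mul_one, uus, sub_sub_cancel, mul_smul_comm, smul_mul_assoc,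
          smul_smul]
        norm_num
      rw [h3]
      exact N.toStarSubalgebra.smul_mem (sub_mem (one_mem N) h2) _
    let q : Fin n → Elt N := fun j => ⟨_, hq j⟩
    have hqc : ∀ S : Finset (Fin n), ((∑ j ∈ S, q j : Elt N) : H →L[ℂ] H) =
        (u : H →L[ℂ] H) * ((∑ j ∈ S, p j : Elt M) : H →L[ℂ] H) * star (u : H →L[ℂ] H) := by
      intro S
      have e1 : ((∑ j ∈ S, q j : Elt N) : H →L[ℂ] H) = ∑ j ∈ S, (q j : H →L[ℂ] H) :=
        map_sum N.toStarSubalgebra.subtype _ _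
      have e2 : ((∑ j ∈ S, p j : Elt M) : H →L[ℂ] H) = ∑ j ∈ S, (p j : H →L[ℂ] H) :=
        map_sum M.toStarSubalgebra.subtype _ _
      rw [e1, e2, Finset.mul_sum, Finset.sum_mul]
    have hcm : ∀ x y : H →L[ℂ] H, ((u : H →L[ℂ] H) * x * star (u : H →L[ℂ] H)) *
        ((u : H →L[ℂ] H) * y * star (u : H →L[ℂ] H)) =
        (u : H →L[ℂ] H) * (x * y) * star (u : H →L[ℂ] H) := fun x y =>
      (map_mul (cjMap u) x y).symm
    have hqP : IsPart q 1 := by
      refine ⟨?_, ?_, ?_⟩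
      · intro j
        refine ⟨Subtype.ext ?_, Subtype.ext ?_⟩
        · show star ((u : H →L[ℂ] H) * (p j : H →L[ℂ] H) * star (u : H →L[ℂ] H)) = _
          rw [star_mul, star_mul, star_star, (hpc j).1, ← mul_assoc]
        · show ((u : H →L[ℂ] H) * (p j : H →L[ℂ] H) * star (u : H →L[ℂ] H)) *
            ((u : H →L[ℂ] H) * (p j : H →L[ℂ] H) * star (u : H →L[ℂ] H)) = _
          rw [hcm, (hpc j).2]
      · intro i j hij
        refine Subtype.ext ?_
        show ((u : H →L[ℂ] H) * (p i : H →L[ℂ] H) * star (u : H →L[ℂ] H)) *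
            ((u : H →L[ℂ] H) * (p j : H →L[ℂ] H) * star (u : H →L[ℂ] H)) = 0
        have h1 : (p i : H →L[ℂ] H) * (p j : H →L[ℂ] H) = 0 :=
          congrArg (fun z : Elt M => (z : H →L[ℂ] H)) (hp.ort i j hij)
        rw [hcm, h1, mul_zero, zero_mul]
      · refine Subtype.ext ?_
        rw [hqc, hp.sum]
        show (u : H →L[ℂ] H) * 1 * star (u : H →L[ℂ] H) = 1
        rw [mul_one, uus]
    have hnear : ∀ S : Finset (Fin n), ‖((∑ j ∈ S, p j : Elt M) : H →L[ℂ] H) -
        ((∑ j ∈ S, q j : Elt N) : H →L[ℂ] H)‖ ≤ 6000 * ε := by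
      intro S
      rw [hqc, norm_sub_rev]
      have h1 := cj_near hu1 ((∑ j ∈ S, p j : Elt M) : H →L[ℂ] H)
      have h2 := prj_coe (sum_prj hp S)
      have h3 := prj_norm h2.1 h2.2
      have h4 : 2 * (3000 * ε) * ‖((∑ j ∈ S, p j : Elt M) : H →L[ℂ] H)‖ ≤ 2 * (3000 * ε) * 1 :=
        mul_le_mul_of_nonneg_left h3 (by positivity)
      linarith
    have hcst : 3 * ε + 7 * (6000 * ε) < 1 := by linarith
    have hη : 0 ≤ 6000 * ε := by positivity
    have hSτ : ∀ S : Finset (Fin n), (τ (∑ j ∈ S, p j)).re = (S.card : ℝ) / n := by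
      intro S
      rw [map_sum, Finset.sum_congr rfl fun j _ => hpt j, Finset.sum_const, nsmul_eq_mul]
      have h1 : ((S.card : ℂ) * ((1 / (n : ℝ) : ℝ) : ℂ)) = (((S.card : ℝ) * (1 / (n : ℝ)) : ℝ) : ℂ) := by
        push_cast
        ring
      rw [h1, Complex.ofReal_re]
      ring
    have hqeq : ∀ i j, (σ (q i)).re ≤ (σ (q j)).re := by
      intro i j
      have h1 := hnear {i}
      have h2 := hnear {j}
      rw [Finset.sum_singleton, Finset.sum_singleton] at h1 h2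
      exact tr_mono hτ hσ hε hη hcst hMN (hp.prj i) (hp.prj j) (hqP.prj i) (hqP.prj j)
        (by rw [hpt, hpt]) h1 h2
    have hSσ : ∀ S : Finset (Fin n), (σ (∑ j ∈ S, q j)).re = (S.card : ℝ) / n := by
      intro S
      have h0 : ∀ j, (σ (q j)).re = 1 / n := by
        intro j
        have h1 : (n : ℝ) * (σ (q j)).re = 1 := by
          have h2 := congrArg σ hqP.sum
          rw [hσw.one, map_sum] at h2
          have h3 := congrArg Complex.re h2
          rw [Complex.re_sum, Complex.one_re,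
            Finset.sum_congr rfl fun i _ => le_antisymm (hqeq i j) (hqeq j i), Finset.sum_const,
            Finset.card_univ, Fintype.card_fin, nsmul_eq_mul] at h3
          exact h3
        field_simp
        linarith
      rw [map_sum, Complex.re_sum, Finset.sum_congr rfl fun j _ => h0 j, Finset.sum_const,
        nsmul_eq_mul]
      ring
    -- the two comparisons
    have hlow : ∀ S : Finset (Fin n), (S.card : ℝ) / n ≤ (τ eM).re →
        (S.card : ℝ) / n ≤ (σ eN).re := by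
      intro S hS
      rw [← hSσ S]
      refine tr_mono hτ hσ hε hη hcst hMN (sum_prj hp S) hPM (sum_prj hqP S) hPN
        (by rw [hSτ]; exact hS) (hnear S) ?_
      show ‖e - e‖ ≤ _
      rw [sub_self, norm_zero]
      exact hη
    have hup : ∀ S : Finset (Fin n), (τ eM).re ≤ (S.card : ℝ) / n →
        (σ eN).re ≤ (S.card : ℝ) / n := by
      intro S hS
      rw [← hSσ S]
      refine tr_mono hτ hσ hε hη hcst hMN hPM (sum_prj hp S) hPN (sum_prj hqP S)
        (by rw [hSτ]; exact hS) ?_ (hnear S)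
      show ‖e - e‖ ≤ _
      rw [sub_self, norm_zero]
      exact hη
    have ht0 := SPLITx.tr_nonneg hτw hPM
    have ht1 := SPLITx.tr_le_one hτw hPM
    have hs0 := SPLITx.tr_nonneg hσw hPN
    have hs1 := SPLITx.tr_le_one hσw hPN
    have hcard : ∀ k : ℕ, k ≤ n → ∃ S : Finset (Fin n), S.card = k := by
      intro k hk
      obtain ⟨S, -, hS⟩ := Finset.exists_subset_card_eq (s := (Finset.univ : Finset (Fin n)))
        (n := k) (by rw [Finset.card_univ, Fintype.card_fin]; exact hk)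
      exact ⟨S, hS⟩
    set k : ℕ := ⌊(τ eM).re * n⌋₊ with hk
    have hk1 : (k : ℝ) ≤ (τ eM).re * n := Nat.floor_le (by positivity)
    have hk2 : (τ eM).re * n < k + 1 := Nat.lt_floor_add_one _
    have hkn : k ≤ n := by
      have h1 : (k : ℝ) ≤ n := by nlinarith
      exact_mod_cast h1
    have hlo : (k : ℝ) / n ≤ (σ eN).re := by
      obtain ⟨S, hS⟩ := hcard k hkn
      have := hlow S (by rw [hS, div_le_iff₀ hnR]; exact hk1)
      rwa [hS] at this
    have hhi : (σ eN).re ≤ (k + 1 : ℝ) / n := by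
      by_cases hk3 : k + 1 ≤ n
      · obtain ⟨S, hS⟩ := hcard (k + 1) hk3
        have := hup S (by rw [hS, le_div_iff₀ hnR]; push_cast; exact hk2.le)
        rw [hS] at this
        push_cast at this
        exact this
      · have h1 : (n : ℝ) ≤ k + 1 := by
          have : n ≤ k + 1 := by omega
          exact_mod_cast this
        refine hs1.trans ?_
        rw [le_div_iff₀ hnR, one_mul]
        exact h1
    have h3 : (k : ℝ) / n ≤ (τ eM).re := by rw [div_le_iff₀ hnR]; exact hk1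
    have h4 : (τ eM).re ≤ (k + 1 : ℝ) / n := by rw [le_div_iff₀ hnR]; exact hk2.le
    have h5 : (k + 1 : ℝ) / n = (k : ℝ) / n + 1 / n := by ring
    rw [abs_le]
    constructor
    · linarith
    · linarith
  have h0 : |(τ eM).re - (σ eN).re| ≤ 0 := by
    refine le_of_forall_pos_le_add fun δ hδ => ?_
    obtain ⟨n, hn⟩ := exists_nat_one_div_lt hδ
    have h1 := hkey (n + 1) (Nat.succ_pos n)
    push_cast at h1
    linarith
  have h1 : (τ eM).re = (σ eN).re := by
    have := abs_nonpos_iff.1 h0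
    linarith
  rw [SPLITx.tr_eq hτw hPM, SPLITx.tr_eq hσw hPN, h1]

end Pool.Agent.N242.KK
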