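import Mathlib
import Pool.Agent.N242.KK.Trace

/-!
The traces of close II_1 factors agree on a common maximal abelian algebra, and a tracial vector of
one of them whose right action of the maximal abelian algebra comes from the commutant of the other
one is tracial for the other one.
-/

set_option autoImplicit false
set_option linter.unusedSectionVars false

open scoped InnerProductSpace ComplexConjugate
open Filter Topology

noncomputable section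

namespace Pool.Agent.N242.KK

open Pool.Agent.H467F Pool.Agent.H518R4.UG Pool.Agent.H518R5.SC

variable {H : Type} [NormedAddCommGroup H] [InnerProductSpace ℂ H] [CompleteSpace H]

theorem normal_bdd {N : VonNeumannAlgebra H} {σ : Elt N →ₗ[ℂ] ℂ}
    (h : IsNormalPositive N (σ : Elt N → ℂ)) : ∃ C : ℝ, 0 ≤ C ∧ ∀ x : Elt N, ‖σ x‖ ≤ C * ‖x‖ := by
  obtain ⟨ξ, hξ, ht⟩ := h
  refine ⟨∑' k, ‖ξ k‖ ^ 2, tsum_nonneg fun k => by positivity, fun x => ?_⟩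
  rw [ht, ← tsum_mul_right]
  refine tsum_of_norm_bounded (hξ.mul_right ‖x‖).hasSum fun k => ?_
  calc _ ≤ ‖ξ k‖ * ‖(x : H →L[ℂ] H) (ξ k)‖ := norm_inner_le_norm _ _
    _ ≤ ‖ξ k‖ * (‖x‖ * ‖ξ k‖) :=
      mul_le_mul_of_nonneg_left ((x : H →L[ℂ] H).le_opNorm _) (norm_nonneg _)
    _ = ‖ξ k‖ ^ 2 * ‖x‖ := by ring

section

variable {M N : VonNeumannAlgebra H} {τ : Elt M →ₗ[ℂ] ℂ} {σ : Elt N →ₗ[ℂ] ℂ}
  (hM : IsIIOneFactor M (τ : Elt M → ℂ)) (hN : IsIIOneFactor N (σ : Elt N → ℂ)) {ε : ℝ}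
  (hε : 0 ≤ ε) (hε1 : ε ≤ 1 / 100000) (hMN : NI ε M N)
  {G : Type} [CommGroup G] {ρ : G →* unitary (H →L[ℂ] H)} (hρ : MasaRep M ρ)
  (hρN : ∀ g, (ρ g : H →L[ℂ] H) ∈ N)

include hM hN hε hε1 hMN hρ hρN

theorem trace_masa_sa (x : H →L[ℂ] H) (hxs : star x = x) (hxM : x ∈ M)
    (hc : ∀ g, (ρ g : H →L[ℂ] H) * x = x * (ρ g : H →L[ℂ] H)) (hxN : x ∈ N) :
    τ ⟨x, hxM⟩ = σ ⟨x, hxN⟩ := by
  obtain ⟨C, hC0, hC⟩ := normal_bdd hM.normal
  obtain ⟨D, hD0, hD⟩ := normal_bdd hN.normal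
  have hkey : ∀ δ : ℝ, 0 < δ → ‖τ ⟨x, hxM⟩ - σ ⟨x, hxN⟩‖ ≤ (C + D) * δ := by
    intro δ hδ
    obtain ⟨n, q, l, hq, hl, hqc⟩ := p_FSC H M 1 ⟨star_one _, mul_one 1⟩ (⟨x, hxM⟩ : Elt M)
      (Subtype.ext hxs) (one_mul _) δ hδ
    have hqρ : ∀ i g, (ρ g : H →L[ℂ] H) * (q i : H →L[ℂ] H) =
        (q i : H →L[ℂ] H) * (ρ g : H →L[ℂ] H) := by
      intro i g
      have h1 := hqc i (⟨(ρ g : H →L[ℂ] H), hρ.mem g⟩ : Elt M)
        (Subtype.ext (hc g).symm) (by rw [one_mul, mul_one])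
      exact (congrArg (fun z : Elt M => (z : H →L[ℂ] H)) h1).symm
    have hqN : ∀ i, (q i : H →L[ℂ] H) ∈ N := fun i => hρ.mem_of hρN (q i).2 (hqρ i)
    have htr : ∀ i, τ (q i) = σ ⟨(q i : H →L[ℂ] H), hqN i⟩ := fun i =>
      trace_prj hM hN hε hε1 hMN (q i) (q i).2 (hqN i) (prj_coe (hq.prj i)).1
        (prj_coe (hq.prj i)).2
    let q' : Fin n → Elt N := fun i => ⟨(q i : H →L[ℂ] H), hqN i⟩
    have e1 : τ (∑ i, (l i : ℂ) • q i) = σ (∑ i, (l i : ℂ) • q' i) := by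
      rw [map_sum, map_sum]
      refine Finset.sum_congr rfl fun i _ => ?_
      rw [map_smul, map_smul, htr]
    have e2 : ((∑ i, (l i : ℂ) • q' i : Elt N) : H →L[ℂ] H) =
        ((∑ i, (l i : ℂ) • q i : Elt M) : H →L[ℂ] H) := by
      have h1 : ((∑ i, (l i : ℂ) • q' i : Elt N) : H →L[ℂ] H) =
          ∑ i, (((l i : ℂ) • q' i : Elt N) : H →L[ℂ] H) := map_sum N.toStarSubalgebra.subtype _ _
      have h2 : ((∑ i, (l i : ℂ) • q i : Elt M) : H →L[ℂ] H) =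
          ∑ i, (((l i : ℂ) • q i : Elt M) : H →L[ℂ] H) := map_sum M.toStarSubalgebra.subtype _ _
      rw [h1, h2]
      rfl
    have e3 : τ ⟨x, hxM⟩ - σ ⟨x, hxN⟩ = τ (⟨x, hxM⟩ - ∑ i, (l i : ℂ) • q i) -
        σ (⟨x, hxN⟩ - ∑ i, (l i : ℂ) • q' i) := by
      rw [map_sub, map_sub, e1]
      ring
    rw [e3]
    have t1 : ‖τ (⟨x, hxM⟩ - ∑ i, (l i : ℂ) • q i)‖ ≤ C * δ :=
      (hC _).trans (mul_le_mul_of_nonneg_left hl hC0)
    have e4 : ‖(⟨x, hxN⟩ - ∑ i, (l i : ℂ) • q' i : Elt N)‖ ≤ δ := by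
      have h1 : ‖(⟨x, hxN⟩ - ∑ i, (l i : ℂ) • q' i : Elt N)‖ =
          ‖x - ((∑ i, (l i : ℂ) • q' i : Elt N) : H →L[ℂ] H)‖ := rfl
      rw [h1, e2]
      exact hl
    have t2 : ‖σ (⟨x, hxN⟩ - ∑ i, (l i : ℂ) • q' i)‖ ≤ D * δ :=
      (hD _).trans (mul_le_mul_of_nonneg_left e4 hD0)
    calc _ ≤ C * δ + D * δ := (norm_sub_le _ _).trans (add_le_add t1 t2)
      _ = (C + D) * δ := by ring
  have h0 : ‖τ ⟨x, hxM⟩ - σ ⟨x, hxN⟩‖ ≤ 0 := by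
    refine le_of_forall_pos_le_add fun δ hδ => ?_
    have h1 : 0 < C + D + 1 := by positivity
    have h2 := hkey (δ / (C + D + 1)) (by positivity)
    have h3 : (C + D) * (δ / (C + D + 1)) ≤ δ := by
      rw [mul_div_assoc', div_le_iff₀ h1]
      nlinarith
    linarith
  exact sub_eq_zero.1 (norm_le_zero_iff.1 h0)

theorem trace_masa (x : H →L[ℂ] H) (hxM : x ∈ M)
    (hc : ∀ g, (ρ g : H →L[ℂ] H) * x = x * (ρ g : H →L[ℂ] H)) (hxN : x ∈ N) :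
    τ ⟨x, hxM⟩ = σ ⟨x, hxN⟩ := by
  have hcs : ∀ g, (ρ g : H →L[ℂ] H) * star x = star x * (ρ g : H →L[ℂ] H) := by
    intro g
    have h1 := congrArg star (hc g⁻¹)
    rw [rho_inv, star_mul, star_mul, star_star] at h1
    exact h1.symm
  have ha := trace_masa_sa hM hN hε hε1 hMN hρ hρN (x + star x)
    (by rw [star_add, star_star, add_comm]) (add_mem hxM (star_mem hxM))
    (fun g => by rw [mul_add, add_mul, hc, hcs]) (add_mem hxN (star_mem hxN))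
  have hb := trace_masa_sa hM hN hε hε1 hMN hρ hρN (Complex.I • (x - star x))
    (by
      rw [star_smul, star_sub, star_star, Complex.star_def, Complex.conj_I, neg_smul,
        ← smul_neg, neg_sub])
    (M.toStarSubalgebra.smul_mem (sub_mem hxM (star_mem hxM)) _)
    (fun g => by rw [mul_smul_comm, smul_mul_assoc, mul_sub, sub_mul, hc, hcs])
    (N.toStarSubalgebra.smul_mem (sub_mem hxN (star_mem hxN)) _)
  have e : x = (2 : ℂ)⁻¹ • (x + star x) + (-Complex.I / 2) • (Complex.I • (x - star x)) := by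
    rw [smul_smul]
    have : -Complex.I / 2 * Complex.I = (2 : ℂ)⁻¹ := by
      have := Complex.I_mul_I
      field_simp
      linear_combination -this
    rw [this, ← smul_add]
    have h2 : x + star x + (x - star x) = (2 : ℂ) • x := by
      rw [two_smul]; abel
    rw [h2, smul_smul, inv_mul_cancel₀ two_ne_zero, one_smul]
  have eM : (⟨x, hxM⟩ : Elt M) = (2 : ℂ)⁻¹ • (⟨x + star x, add_mem hxM (star_mem hxM)⟩ : Elt M) +
      (-Complex.I / 2) • (⟨Complex.I • (x - star x),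
        M.toStarSubalgebra.smul_mem (sub_mem hxM (star_mem hxM)) _⟩ : Elt M) :=
    Subtype.ext e
  have eN : (⟨x, hxN⟩ : Elt N) = (2 : ℂ)⁻¹ • (⟨x + star x, add_mem hxN (star_mem hxN)⟩ : Elt N) +
      (-Complex.I / 2) • (⟨Complex.I • (x - star x),
        N.toStarSubalgebra.smul_mem (sub_mem hxN (star_mem hxN)) _⟩ : Elt N) :=
    Subtype.ext e
  rw [eM, eN, map_add, map_add, map_smul, map_smul, map_smul, map_smul, ha, hb]

/-- **Transfer of tracial vectors.** -/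
theorem vec_transfer {ε' : ℝ} (hε' : ε' ≤ 1 / 2) (hNM : NI ε' N M) {e : H →L[ℂ] H} (heM : e ∈ M)
    (heN : e ∈ N) (hec : ∀ g, (ρ g : H →L[ℂ] H) * e = e * (ρ g : H →L[ℂ] H)) {ξ : H}
    (hξ : ∀ x : Elt M, ⟪ξ, (x : H →L[ℂ] H) ξ⟫_ℂ = τ (x * ⟨e, heM⟩))
    (hb : ∀ g, ∃ b ∈ N.commutant, star b * b = 1 ∧ b ξ = (ρ g : H →L[ℂ] H) ξ) (y : Elt N) :
    ⟪ξ, (y : H →L[ℂ] H) ξ⟫_ℂ = σ (y * ⟨e, heN⟩) := by
  obtain ⟨m, hm⟩ := exists_cmean G
  have hρB : BF (fun g => (ρ g : H →L[ℂ] H)) := ⟨1, fun g => unitary_norm_le _⟩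
  let F : G → (H →L[ℂ] H) := fun g => star (ρ g : H →L[ℂ] H) * (y : H →L[ℂ] H) *
    (ρ g : H →L[ℂ] H)
  have hB : BF F := (hρB.star.mul (BF.const _)).mul hρB
  have haN : av m F ∈ N := av_mem hm hB N fun g =>
    mul_mem (mul_mem (star_mem (hρN g)) y.2) (hρN g)
  have hac : ∀ g, (ρ g : H →L[ℂ] H) * av m F = av m F * (ρ g : H →L[ℂ] H) := fun g =>
    av_conj_comm hm ρ _ g
  have haM : av m F ∈ M := hρ.near hρN hε' hNM haN hac
  -- first step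
  have h1 : ⟪ξ, (av m F) ξ⟫_ℂ = ⟪ξ, (y : H →L[ℂ] H) ξ⟫_ℂ := by
    rw [av_inner' hm hB, ← cm_const hm ⟪ξ, (y : H →L[ℂ] H) ξ⟫_ℂ]
    congr 1
    funext g
    obtain ⟨b, hb1, hb2, hb3⟩ := hb g
    have hby : b * (y : H →L[ℂ] H) = (y : H →L[ℂ] H) * b := by
      rw [VonNeumannAlgebra.mem_commutant_iff] at hb1
      exact (hb1 _ y.2).symm
    show ⟪ξ, star (ρ g : H →L[ℂ] H) ((y : H →L[ℂ] H) ((ρ g : H →L[ℂ] H) ξ))⟫_ℂ = _
    rw [ContinuousLinearMap.star_eq_adjoint, ContinuousLinearMap.adjoint_inner_right, ← hb3]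
    have h2 : (y : H →L[ℂ] H) (b ξ) = b ((y : H →L[ℂ] H) ξ) :=
      (congrArg (fun T : H →L[ℂ] H => T ξ) hby).symm
    rw [h2, ← ContinuousLinearMap.adjoint_inner_right, ← ContinuousLinearMap.star_eq_adjoint]
    have h3 : star b (b ((y : H →L[ℂ] H) ξ)) = (y : H →L[ℂ] H) ξ :=
      congrArg (fun T : H →L[ℂ] H => T ((y : H →L[ℂ] H) ξ)) hb2
    rw [h3]
  -- second step
  have h2 : ⟪ξ, (av m F) ξ⟫_ℂ = τ (⟨av m F, haM⟩ * ⟨e, heM⟩) := hξ ⟨av m F, haM⟩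
  have h3 : τ (⟨av m F, haM⟩ * ⟨e, heM⟩) = σ (⟨av m F, haN⟩ * ⟨e, heN⟩) :=
    trace_masa hM hN hε hε1 hMN hρ hρN (av m F * e) (mul_mem haM heM)
      (fun g => by rw [← mul_assoc, hac, mul_assoc, hec, mul_assoc]) (mul_mem haN heN)
  -- third step
  have h4 : σ (⟨av m F, haN⟩ * ⟨e, heN⟩) = σ (y * ⟨e, heN⟩) := by
    obtain ⟨ζ, hζ, ht⟩ := hN.normal
    rw [ht]
    have e1 : ((⟨av m F, haN⟩ * ⟨e, heN⟩ : Elt N) : H →L[ℂ] H) = av m (fun g => F g * e) :=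
      (av_mul_right hm e hB).symm
    rw [e1]
    refine av_normal hm (hB.mul (BF.const e)) ζ hζ _ fun g => ?_
    have hFN : F g ∈ N := mul_mem (mul_mem (star_mem (hρN g)) y.2) (hρN g)
    have h5 : σ (⟨F g, hFN⟩ * ⟨e, heN⟩) = ∑' k, ⟪ζ k, (F g * e) (ζ k)⟫_ℂ := ht _
    rw [← h5]
    let r : Elt N := ⟨(ρ g : H →L[ℂ] H), hρN g⟩
    have e2 : (⟨F g, hFN⟩ * ⟨e, heN⟩ : Elt N) = star r * ((y * ⟨e, heN⟩) * r) := by
      apply Subtype.ext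
      show star (ρ g : H →L[ℂ] H) * (y : H →L[ℂ] H) * (ρ g : H →L[ℂ] H) * e =
        star (ρ g : H →L[ℂ] H) * (((y : H →L[ℂ] H) * e) * (ρ g : H →L[ℂ] H))
      rw [mul_assoc _ _ e, hec]
      noncomm_ring
    have e3 : r * star r = 1 := Subtype.ext (uus (ρ g))
    rw [e2]
    have h6 := hN.trace.tracial (star r) ((y * ⟨e, heN⟩) * r)
    rw [h6, mul_assoc, e3, mul_one]
  rw [← h1, h2, h3, h4]

end

end Pool.Agent.N242.KK
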