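import Mathlib
import Pool.Agent.N242.KK.Vec

/-!
The right action of unitaries on cyclic modules generated by tracial vectors.
-/

set_option autoImplicit false
set_option linter.unusedSectionVars false

open scoped InnerProductSpace ComplexConjugate
open Filter Topology

noncomputable section

namespace Pool.Agent.N242.KK

open Pool.Agent.H467F Pool.Agent.H518R4.UG Pool.Agent.H518R5.SC

variable {H : Type} [NormedAddCommGroup H] [InnerProductSpace ℂ H] [CompleteSpace H]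

/-- evaluation at a vector -/
def evl (M : VonNeumannAlgebra H) (ξ : H) : Elt M →ₗ[ℂ] H where
  toFun x := (x : H →L[ℂ] H) ξ
  map_add' _ _ := rfl
  map_smul' _ _ := rfl

theorem evl_apply (M : VonNeumannAlgebra H) (ξ : H) (x : Elt M) :
    evl M ξ x = (x : H →L[ℂ] H) ξ := rfl

/-- the cyclic module -/
def cyc (M : VonNeumannAlgebra H) (ξ : H) : Submodule ℂ H :=
  (LinearMap.range (evl M ξ)).topologicalClosure

instance (M : VonNeumannAlgebra H) (ξ : H) : CompleteSpace (cyc M ξ) :=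
  (Submodule.isClosed_topologicalClosure _).completeSpace_coe

theorem mem_cyc (M : VonNeumannAlgebra H) (ξ : H) {x : H →L[ℂ] H} (hx : x ∈ M) :
    x ξ ∈ cyc M ξ :=
  Submodule.le_topologicalClosure _ ⟨⟨x, hx⟩, rfl⟩

theorem self_mem_cyc (M : VonNeumannAlgebra H) (ξ : H) : ξ ∈ cyc M ξ :=
  mem_cyc M ξ (one_mem M)

/-- `ζ` is orthogonal to `M ξ` -/
def Perp (M : VonNeumannAlgebra H) (ξ ζ : H) : Prop :=
  ∀ x ∈ M, ⟪(x : H →L[ℂ] H) ξ, ζ⟫_ℂ = 0

theorem perp_iff (M : VonNeumannAlgebra H) (ξ ζ : H) : Perp M ξ ζ ↔ ζ ∈ (cyc M ξ)ᗮ := by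
  unfold cyc
  rw [Submodule.orthogonal_closure, Submodule.mem_orthogonal]
  constructor
  · rintro h _ ⟨x, rfl⟩
    exact h x x.2
  · intro h x hx
    exact h _ ⟨⟨x, hx⟩, rfl⟩

theorem perp_inv {M : VonNeumannAlgebra H} {ξ ζ : H} (h : Perp M ξ ζ) {y : H →L[ℂ] H}
    (hy : y ∈ M) : Perp M ξ (y ζ) := by
  intro x hx
  have h1 := h (star y * x) (mul_mem (star_mem hy) hx)
  have h2 : (star y * x) ξ = star y (x ξ) := rfl
  rw [h2, ContinuousLinearMap.star_eq_adjoint, ContinuousLinearMap.adjoint_inner_left] at h1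
  exact h1

theorem le_ker {M : VonNeumannAlgebra H} {ξ : H} {T : H →L[ℂ] H} (hT : T ∈ M.commutant)
    (h0 : T ξ = 0) : ∀ ζ ∈ cyc M ξ, T ζ = 0 := by
  have h1 : cyc M ξ ≤ LinearMap.ker (T : H →ₗ[ℂ] H) := by
    refine Submodule.topologicalClosure_minimal _ ?_ T.isClosed_ker
    rintro _ ⟨x, rfl⟩
    rw [LinearMap.mem_ker]
    show T ((x : H →L[ℂ] H) ξ) = 0
    rw [VonNeumannAlgebra.mem_commutant_iff] at hT
    have h2 := congrArg (fun S : H →L[ℂ] H => S ξ) (hT x x.2)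
    have h3 : (x : H →L[ℂ] H) (T ξ) = T ((x : H →L[ℂ] H) ξ) := h2
    rw [← h3, h0, map_zero]
  intro ζ hζ
  exact h1 hζ

/-- operators in the commutant are determined by their values -/
theorem op_zero {M : VonNeumannAlgebra H} {ξ : H} {T : H →L[ℂ] H} (hT : T ∈ M.commutant)
    (h0 : T ξ = 0) (hk : ∀ ζ, Perp M ξ ζ → T ζ = 0) : T = 0 := by
  ext ζ
  have h1 := le_ker hT h0 _ (Submodule.starProjection_apply_mem (cyc M ξ) ζ)
  have h2 := hk (ζ - (cyc M ξ).starProjection ζ)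
    ((perp_iff M ξ _).2 (Submodule.sub_starProjection_mem_orthogonal ζ))
  rw [map_sub, h1, sub_zero] at h2
  exact h2

theorem op_eq {M : VonNeumannAlgebra H} {ξ : H} {S T : H →L[ℂ] H} (hS : S ∈ M.commutant)
    (hT : T ∈ M.commutant) (h0 : S ξ = T ξ) (hk : ∀ ζ, Perp M ξ ζ → S ζ = 0)
    (hk' : ∀ ζ, Perp M ξ ζ → T ζ = 0) : S = T := by
  have h1 : S - T = 0 := op_zero (ξ := ξ) (sub_mem hS hT)
    (by rw [sub_apply, h0, sub_self])
    (fun ζ hζ => by rw [sub_apply, hk ζ hζ, hk' ζ hζ, sub_zero])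
  exact sub_eq_zero.1 h1

theorem ext_op (M : VonNeumannAlgebra H) (ξ η : H)
    (h : ∀ x ∈ M, ‖(x : H →L[ℂ] H) η‖ ≤ ‖(x : H →L[ℂ] H) ξ‖) :
    ∃ v ∈ M.commutant, (v : H →L[ℂ] H) ξ = η ∧ ∀ ζ, Perp M ξ ζ → v ζ = 0 := by
  let e : Elt M →ₗ[ℂ] cyc M ξ := (evl M ξ).codRestrict (cyc M ξ) fun x => mem_cyc M ξ x.2
  have hd : DenseRange e := by
    intro z
    rw [Metric.mem_closure_iff]
    intro ε hε
    have hz : (z : H) ∈ closure ((LinearMap.range (evl M ξ) : Submodule ℂ H) : Set H) := z.2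
    obtain ⟨b, ⟨x, hx⟩, hb⟩ := Metric.mem_closure_iff.1 hz ε hε
    refine ⟨e x, ⟨x, rfl⟩, ?_⟩
    rw [Subtype.dist_eq]
    show dist (z : H) (evl M ξ x) < ε
    rw [hx]
    exact hb
  have hbd : ∃ C : ℝ, ∀ x, ‖evl M η x‖ ≤ C * ‖e x‖ := ⟨1, fun x => by
    rw [one_mul]; exact h x x.2⟩
  let w : cyc M ξ →L[ℂ] H := (evl M η).extendOfNorm e
  have hw : ∀ x : Elt M, w (e x) = (x : H →L[ℂ] H) η := fun x =>
    LinearMap.extendOfNorm_eq hd hbd x
  let v : H →L[ℂ] H := w ∘L (cyc M ξ).orthogonalProjectionOnto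
  have hv : ∀ x ∈ M, v ((x : H →L[ℂ] H) ξ) = (x : H →L[ℂ] H) η := by
    intro x hx
    show w ((cyc M ξ).orthogonalProjectionOnto ((x : H →L[ℂ] H) ξ)) = _
    have h1 : (cyc M ξ).orthogonalProjectionOnto ((x : H →L[ℂ] H) ξ) = e ⟨x, hx⟩ :=
      Submodule.orthogonalProjectionOnto_mem_subspace_eq_self (e ⟨x, hx⟩)
    rw [h1, hw]
  have hp : ∀ ζ, Perp M ξ ζ → v ζ = 0 := by
    intro ζ hζ
    show w ((cyc M ξ).orthogonalProjectionOnto ζ) = 0
    rw [Submodule.orthogonalProjectionOnto_apply_of_mem_orthogonal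
      ((perp_iff M ξ ζ).1 hζ), map_zero]
  refine ⟨v, ?_, hv 1 (one_mem M), hp⟩
  rw [VonNeumannAlgebra.mem_commutant_iff]
  intro y hy
  -- on the cyclic module
  have h1 : cyc M ξ ≤ LinearMap.ker ((y * v - v * y : H →L[ℂ] H) : H →ₗ[ℂ] H) := by
    refine Submodule.topologicalClosure_minimal _ ?_ (y * v - v * y).isClosed_ker
    rintro _ ⟨x, rfl⟩
    rw [LinearMap.mem_ker]
    show y (v ((x : H →L[ℂ] H) ξ)) - v (y ((x : H →L[ℂ] H) ξ)) = 0
    rw [hv x x.2]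
    have h2 := hv (y * (x : H →L[ℂ] H)) (mul_mem hy x.2)
    have h3 : v (y ((x : H →L[ℂ] H) ξ)) = y ((x : H →L[ℂ] H) η) := h2
    rw [h3, sub_self]
  ext ζ
  have h2 : (y * v - v * y) ((cyc M ξ).starProjection ζ) = 0 :=
    h1 (Submodule.starProjection_apply_mem (cyc M ξ) ζ)
  have h3 : Perp M ξ (ζ - (cyc M ξ).starProjection ζ) :=
    (perp_iff M ξ _).2 (Submodule.sub_starProjection_mem_orthogonal ζ)
  have h4 : (y * v - v * y) (ζ - (cyc M ξ).starProjection ζ) = 0 := by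
    show y (v (ζ - (cyc M ξ).starProjection ζ)) - v (y (ζ - (cyc M ξ).starProjection ζ)) = 0
    rw [hp _ h3, hp _ (perp_inv h3 hy), map_zero, sub_zero]
  rw [map_sub, h2, sub_zero] at h4
  exact sub_eq_zero.1 h4

section

variable {M : VonNeumannAlgebra H} {τ : Elt M →ₗ[ℂ] ℂ}
  (hτ : ∀ x y, τ (x * y) = τ (y * x)) {ξ : H} {e : Elt M}
  (hξ : ∀ x : Elt M, ⟪ξ, (x : H →L[ℂ] H) ξ⟫_ℂ = τ (x * e))

include hτ hξ

theorem right_inner {g : H →L[ℂ] H} (hg : g ∈ M) (hgg : g * star g = 1)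
    (hge : g * (e : H →L[ℂ] H) = (e : H →L[ℂ] H) * g) (x : H →L[ℂ] H) (hx : x ∈ M) :
    ⟪g ξ, x (g ξ)⟫_ℂ = ⟪ξ, x ξ⟫_ℂ := by
  have h1 : ⟪g ξ, x (g ξ)⟫_ℂ = ⟪ξ, (star g * x * g) ξ⟫_ℂ := by
    show _ = ⟪ξ, star g (x (g ξ))⟫_ℂ
    rw [ContinuousLinearMap.star_eq_adjoint, ContinuousLinearMap.adjoint_inner_right]
  have h2 := hξ (⟨star g * x * g, mul_mem (mul_mem (star_mem hg) hx) hg⟩ : Elt M)
  have h3 := hξ (⟨x, hx⟩ : Elt M)
  rw [h1]
  refine h2.trans (Eq.trans ?_ h3.symm)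
  let r : Elt M := ⟨g, hg⟩
  have e1 : (⟨star g * x * g, mul_mem (mul_mem (star_mem hg) hx) hg⟩ : Elt M) * e =
      star r * ((⟨x, hx⟩ * e) * r) := by
    apply Subtype.ext
    show star g * x * g * (e : H →L[ℂ] H) = star g * ((x * (e : H →L[ℂ] H)) * g)
    rw [mul_assoc _ g, hge]
    noncomm_ring
  have e2 : r * star r = 1 := Subtype.ext hgg
  rw [e1, hτ, mul_assoc, e2, mul_one]

/-- **The right action.** -/
theorem right_rep {G : Type} [CommGroup G] {ρ : G →* unitary (H →L[ℂ] H)}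
    (hρ : ∀ g, (ρ g : H →L[ℂ] H) ∈ M)
    (hρe : ∀ g, (ρ g : H →L[ℂ] H) * (e : H →L[ℂ] H) = (e : H →L[ℂ] H) * (ρ g : H →L[ℂ] H)) :
    ∃ (φ : G →* unitary (H →L[ℂ] H)) (P : H →L[ℂ] H),
      (∀ g, (φ g : H →L[ℂ] H) ∈ M.commutant) ∧
      (∀ g, (φ g : H →L[ℂ] H) ξ = (ρ g : H →L[ℂ] H) ξ) ∧ star P = P ∧
      (∀ ζ, Perp M ξ ζ → P ζ = 0) ∧
      (∀ g, ((φ g : H →L[ℂ] H) - 1) * P = (φ g : H →L[ℂ] H) - 1) ∧
      (∀ g, P * ((φ g : H →L[ℂ] H) - 1) = (φ g : H →L[ℂ] H) - 1) := by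
  have hin : ∀ g, ∀ x ∈ M, ⟪(ρ g : H →L[ℂ] H) ξ, x ((ρ g : H →L[ℂ] H) ξ)⟫_ℂ = ⟪ξ, x ξ⟫_ℂ :=
    fun g x hx => right_inner hτ hξ (hρ g) (uus (ρ g)) (hρe g) x hx
  have hnorm : ∀ g, ∀ x ∈ M, ‖(x : H →L[ℂ] H) ((ρ g : H →L[ℂ] H) ξ)‖ ≤ ‖(x : H →L[ℂ] H) ξ‖ := by
    intro g x hx
    have h1 := hin g (star x * x) (mul_mem (star_mem hx) hx)
    have h2 : ∀ ζ : H, ⟪ζ, (star x * x) ζ⟫_ℂ = ((‖x ζ‖ ^ 2 : ℝ) : ℂ) := by
      intro ζ
      show ⟪ζ, star x (x ζ)⟫_ℂ = _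
      rw [ContinuousLinearMap.star_eq_adjoint, ContinuousLinearMap.adjoint_inner_right,
        inner_self_eq_norm_sq_to_K]
      push_cast
      rfl
    rw [h2, h2] at h1
    have h3 : ‖x ((ρ g : H →L[ℂ] H) ξ)‖ ^ 2 = ‖x ξ‖ ^ 2 := by exact_mod_cast h1
    exact ((pow_left_inj₀ (norm_nonneg _) (norm_nonneg _) two_ne_zero).1 h3).le
  choose v hvM hvξ hvk using fun g => ext_op M ξ ((ρ g : H →L[ℂ] H) ξ) (hnorm g)
  have hvc : ∀ g, ∀ x ∈ M, ∀ ζ, v g ((x : H →L[ℂ] H) ζ) = x (v g ζ) := by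
    intro g x hx ζ
    have h1 := hvM g
    rw [VonNeumannAlgebra.mem_commutant_iff] at h1
    exact (congrArg (fun S : H →L[ℂ] H => S ζ) (h1 x hx)).symm
  have hv1 : v 1 ξ = ξ := by
    rw [hvξ, map_one]
    rfl
  have hmul : ∀ g h, v g * v h = v (g * h) := by
    intro g h
    refine op_eq (ξ := ξ) (mul_mem (hvM g) (hvM h)) (hvM _) ?_ ?_ (hvk _)
    · show v g (v h ξ) = v (g * h) ξ
      rw [hvξ h, hvc g _ (hρ h), hvξ g, hvξ (g * h), mul_comm g h, rho_mul]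
      rfl
    · intro ζ hζ
      show v g (v h ζ) = 0
      rw [hvk h ζ hζ, map_zero]
  have hss : ∀ g, star (v g) * v g = v 1 := by
    intro g
    refine op_eq (ξ := ξ) (mul_mem (star_mem (hvM g)) (hvM g)) (hvM _) ?_ ?_ (hvk _)
    · show star (v g) (v g ξ) = v 1 ξ
      rw [hv1]
      have h1 : ∀ x ∈ M, ⟪(x : H →L[ℂ] H) ξ, star (v g) (v g ξ) - ξ⟫_ℂ = 0 := by
        intro x hx
        rw [inner_sub_right, ContinuousLinearMap.star_eq_adjoint,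
          ContinuousLinearMap.adjoint_inner_right, hvc g x hx, hvξ g]
        have h2 := hin g (star x) (star_mem hx)
        rw [ContinuousLinearMap.star_eq_adjoint, ContinuousLinearMap.adjoint_inner_right,
          ContinuousLinearMap.adjoint_inner_right] at h2
        rw [h2, sub_self]
      have h2 : ∀ w, Perp M ξ w → ⟪w, star (v g) (v g ξ) - ξ⟫_ℂ = 0 := by
        intro w hw
        have h3 : ⟪w, ξ⟫_ℂ = 0 := by
          rw [← inner_conj_symm]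
          have h4 : ⟪ξ, w⟫_ℂ = 0 := hw 1 (one_mem M)
          rw [h4, map_zero]
        rw [inner_sub_right, ContinuousLinearMap.star_eq_adjoint,
          ContinuousLinearMap.adjoint_inner_right, hvk g w hw, inner_zero_left, h3, sub_zero]
      have h3 := h2 _ h1
      exact sub_eq_zero.1 (inner_self_eq_zero.1 h3)
    · intro ζ hζ
      show star (v g) (v g ζ) = 0
      rw [hvk g ζ hζ, map_zero]
  have hPs : star (v 1) = v 1 := by
    have h1 := hss 1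
    have h2 := congrArg star h1
    rw [star_mul, star_star, h1] at h2
    exact h2.symm
  have hPP : v 1 * v 1 = v 1 := by rw [hmul, mul_one]
  have hvP : ∀ g, v g * v 1 = v g := fun g => by rw [hmul, mul_one]
  have hPv : ∀ g, v 1 * v g = v g := fun g => by rw [hmul, one_mul]
  have hstar : ∀ g, star (v g) = v g⁻¹ := by
    intro g
    calc star (v g) = star (v 1 * v g) := by rw [hPv]
      _ = star (v g) * v 1 := by rw [star_mul, hPs]
      _ = star (v g) * (v g * v g⁻¹) := by rw [hmul, mul_inv_cancel]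
      _ = v 1 * v g⁻¹ := by rw [← mul_assoc, hss]
      _ = v g⁻¹ := hPv _
  let f : G → (H →L[ℂ] H) := fun g => v g + (1 - v 1)
  have hfm : ∀ g h, f g * f h = f (g * h) := by
    intro g h
    show (v g + (1 - v 1)) * (v h + (1 - v 1)) = v (g * h) + (1 - v 1)
    calc (v g + (1 - v 1)) * (v h + (1 - v 1))
        = v g * v h + v g - v g * v 1 + v h - v 1 * v h + (1 - v 1 - v 1 + v 1 * v 1) := by
          noncomm_ring
      _ = v (g * h) + (1 - v 1) := by rw [hmul, hvP, hPv, hPP]; abel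
  have hf1 : f 1 = 1 := by
    show v 1 + (1 - v 1) = 1
    abel
  have hfs : ∀ g, star (f g) = f g⁻¹ := by
    intro g
    show star (v g + (1 - v 1)) = v g⁻¹ + (1 - v 1)
    rw [star_add, star_sub, star_one, hPs, hstar]
  have hfu : ∀ g, f g ∈ unitary (H →L[ℂ] H) := by
    intro g
    rw [Unitary.mem_iff, hfs, hfm, hfm, inv_mul_cancel, mul_inv_cancel, hf1]
    exact ⟨rfl, rfl⟩
  let φ : G →* unitary (H →L[ℂ] H) :=
    { toFun := fun g => ⟨f g, hfu g⟩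
      map_one' := Subtype.ext hf1
      map_mul' := fun g h => Subtype.ext (hfm g h).symm }
  have hφ : ∀ g, (φ g : H →L[ℂ] H) = v g + (1 - v 1) := fun g => rfl
  have hφ1 : ∀ g, (φ g : H →L[ℂ] H) - 1 = v g - v 1 := by
    intro g
    rw [hφ]
    abel
  refine ⟨φ, v 1, ?_, ?_, hPs, hvk 1, ?_, ?_⟩
  · intro g
    rw [hφ]
    exact add_mem (hvM g) (sub_mem (one_mem _) (hvM 1))
  · intro g
    rw [hφ]
    show v g ξ + (ξ - v 1 ξ) = _
    rw [hv1, sub_self, add_zero, hvξ]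
  · intro g
    rw [hφ1, sub_mul, hvP, hPP]
  · intro g
    rw [hφ1, mul_sub, hPv, hPP]

end

/-- A family of tracial vectors generating pairwise orthogonal cyclic modules. -/
structure TrFam {I : Type} (M : VonNeumannAlgebra H) (τ : Elt M → ℂ) (ξ : I → H)
    (e : I → Elt M) : Prop where
  prj : ∀ i, star (e i) = e i ∧ e i * e i = e i
  diag : ∀ i, ∀ x : Elt M, ⟪ξ i, (x : H →L[ℂ] H) (ξ i)⟫_ℂ = τ (x * e i)
  orth : ∀ i j, i ≠ j → ∀ x : Elt M, ⟪ξ i, (x : H →L[ℂ] H) (ξ j)⟫_ℂ = 0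

theorem TrFam.perp {I : Type} {M : VonNeumannAlgebra H} {τ : Elt M → ℂ} {ξ : I → H}
    {e : I → Elt M} (h : TrFam M τ ξ e) {i j : I} (hij : i ≠ j) (y : Elt M) :
    Perp M (ξ i) ((y : H →L[ℂ] H) (ξ j)) := by
  intro x hx
  have h1 := h.orth i j hij (star (⟨x, hx⟩ : Elt M) * y)
  have h2 : ((star (⟨x, hx⟩ : Elt M) * y : Elt M) : H →L[ℂ] H) (ξ j) =
      star x ((y : H →L[ℂ] H) (ξ j)) := rfl
  rw [h2, ContinuousLinearMap.star_eq_adjoint, ContinuousLinearMap.adjoint_inner_right] at h1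
  exact h1

theorem right_fam {n : ℕ} {M : VonNeumannAlgebra H} {τ : Elt M →ₗ[ℂ] ℂ}
    (hτ : ∀ x y, τ (x * y) = τ (y * x)) {ξ : Fin n → H} {e : Fin n → Elt M}
    (hF : TrFam M (τ : Elt M → ℂ) ξ e) (G : Fin n → Type) [∀ i, CommGroup (G i)]
    (ρ : ∀ i, G i →* unitary (H →L[ℂ] H)) (hρ : ∀ i g, (ρ i g : H →L[ℂ] H) ∈ M)
    (hρe : ∀ i g, (ρ i g : H →L[ℂ] H) * (e i : H →L[ℂ] H) =
      (e i : H →L[ℂ] H) * (ρ i g : H →L[ℂ] H)) :
    ∃ Φ : (∀ i, G i) →* unitary (H →L[ℂ] H), (∀ g, (Φ g : H →L[ℂ] H) ∈ M.commutant) ∧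
      (∀ i g, (Φ (Pi.mulSingle i g) : H →L[ℂ] H) (ξ i) = (ρ i g : H →L[ℂ] H) (ξ i)) ∧
      ∀ i j g, i ≠ j → (Φ (Pi.mulSingle i g) : H →L[ℂ] H) (ξ j) = ξ j := by
  choose φ P h1 h2 h3 h4 h5 h6 using fun i =>
    right_rep (M := M) (τ := τ) hτ (hF.diag i) (ρ := ρ i) (hρ i) (hρe i)
  have hPP : ∀ i j, i ≠ j → P i * P j = 0 := by
    intro i j hij
    ext ζ
    show P i (P j ζ) = 0
    refine h4 i _ ?_
    intro x hx
    rw [← ContinuousLinearMap.adjoint_inner_left, ← ContinuousLinearMap.star_eq_adjoint, h3 j]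
    rw [h4 j _ (hF.perp (Ne.symm hij) ⟨x, hx⟩), inner_zero_left]
  have hcc : ∀ i j, i ≠ j → ∀ x y, ((φ i x : H →L[ℂ] H) - 1) * ((φ j y : H →L[ℂ] H) - 1) = 0 := by
    intro i j hij x y
    rw [← h5 i x, ← h6 j y, mul_assoc, ← mul_assoc (P i), hPP i j hij, zero_mul, mul_zero]
  let UM : Subgroup (unitary (H →L[ℂ] H)) :=
    { carrier := {u | (u : H →L[ℂ] H) ∈ M.commutant}
      one_mem' := one_mem M.commutant
      mul_mem' := fun {a b} ha hb => by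
        have h0 : (a : H →L[ℂ] H) ∈ M.commutant := ha
        have h1 : (b : H →L[ℂ] H) ∈ M.commutant := hb
        show (a : H →L[ℂ] H) * (b : H →L[ℂ] H) ∈ M.commutant
        exact mul_mem h0 h1
      inv_mem' := fun {a} ha => by
        have h0 : (a : H →L[ℂ] H) ∈ M.commutant := ha
        show star (a : H →L[ℂ] H) ∈ M.commutant
        exact star_mem h0 }
  let ψ : ∀ i, G i →* UM := fun i => (φ i).codRestrict UM (h1 i)
  have hcomm : Pairwise fun i j => ∀ x y, Commute (ψ i x) (ψ j y) := by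
    intro i j hij x y
    apply Subtype.ext
    apply Subtype.ext
    show (φ i x : H →L[ℂ] H) * (φ j y : H →L[ℂ] H) = (φ j y : H →L[ℂ] H) * (φ i x : H →L[ℂ] H)
    have e1 := hcc i j hij x y
    have e2 := hcc j i (Ne.symm hij) y x
    have e3 : (φ i x : H →L[ℂ] H) * (φ j y : H →L[ℂ] H) =
        ((φ i x : H →L[ℂ] H) - 1) * ((φ j y : H →L[ℂ] H) - 1) + (φ i x : H →L[ℂ] H) +
          (φ j y : H →L[ℂ] H) - 1 := by noncomm_ring
    have e4 : (φ j y : H →L[ℂ] H) * (φ i x : H →L[ℂ] H) =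
        ((φ j y : H →L[ℂ] H) - 1) * ((φ i x : H →L[ℂ] H) - 1) + (φ i x : H →L[ℂ] H) +
          (φ j y : H →L[ℂ] H) - 1 := by noncomm_ring
    rw [e3, e4, e1, e2]
  have hΦ : ∀ i g, (UM.subtype.comp (MonoidHom.noncommPiCoprod ψ hcomm)) (Pi.mulSingle i g) =
      φ i g := by
    intro i g
    rw [MonoidHom.comp_apply, MonoidHom.noncommPiCoprod_mulSingle]
    rfl
  refine ⟨UM.subtype.comp (MonoidHom.noncommPiCoprod ψ hcomm), ?_, ?_, ?_⟩
  · intro g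
    exact (MonoidHom.noncommPiCoprod ψ hcomm g).2
  · intro i g
    rw [hΦ]
    exact h2 i g
  · intro i j g hij
    rw [hΦ]
    have e1 : ((φ i g : H →L[ℂ] H) - 1) (ξ j) = 0 := by
      rw [← h5 i g]
      show ((φ i g : H →L[ℂ] H) - 1) (P i (ξ j)) = 0
      have e2 : P i (ξ j) = 0 := h4 i _ (hF.perp hij 1)
      rw [e2, map_zero]
    rw [sub_apply] at e1
    exact sub_eq_zero.1 e1

end Pool.Agent.N242.KK
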