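import Mathlib
import Pool.Agent.N242.KK.Right

/-!
Tracial orthogonal families can be moved to a close II_1 factor.
-/

set_option autoImplicit false
set_option linter.unusedSectionVars false

open scoped InnerProductSpace ComplexConjugate
open Filter Topology

noncomputable section

namespace Pool.Agent.N242.KK

open Pool.Agent.H467F Pool.Agent.H518R4.UG Pool.Agent.H518R5.SC

variable {H : Type} [NormedAddCommGroup H] [InnerProductSpace ℂ H] [CompleteSpace H]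

theorem one_le_KC : 1 ≤ KC := by unfold KC; norm_num

theorem refl_unitary {p : H →L[ℂ] H} (h1 : star p = p) (h2 : p * p = p) :
    (1 - (2 : ℂ) • p) ∈ unitary (H →L[ℂ] H) := by
  have h3 : (1 - (2 : ℂ) • p) * (1 - (2 : ℂ) • p) = 1 := by
    simp only [sub_mul, mul_sub, one_mul, mul_one, smul_mul_assoc, mul_smul_comm, h2]
    module
  have h4 : star (1 - (2 : ℂ) • p) = 1 - (2 : ℂ) • p := by
    rw [star_sub, star_one, star_smul, h1]
    congr 2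
    exact Complex.conj_ofNat 2
  rw [Unitary.mem_iff, h4]
  exact ⟨h3, h3⟩

theorem comm_refl {p x : H →L[ℂ] H} (h : x * (1 - (2 : ℂ) • p) = (1 - (2 : ℂ) • p) * x) :
    x * p = p * x := by
  have h1 : p = (2 : ℂ)⁻¹ • (1 - (1 - (2 : ℂ) • p)) := by
    rw [sub_sub_cancel, smul_smul]
    norm_num
  rw [h1, mul_smul_comm, smul_mul_assoc, mul_sub, sub_mul, h, mul_one, one_mul]

/-- **Transfer of tracial orthogonal families.** -/
theorem transfer {M N : VonNeumannAlgebra H} {τ : Elt M →ₗ[ℂ] ℂ} {σ : Elt N →ₗ[ℂ] ℂ}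
    (hM : IsIIOneFactor M (τ : Elt M → ℂ)) (hN : IsIIOneFactor N (σ : Elt N → ℂ)) {d : ℝ}
    (hd : 0 ≤ d) (hd1 : KC * d ≤ 1 / 10 ^ 14) (hMN : NI d M N) (hNM : NI d N M) {n : ℕ}
    {ξ : Fin n → H} {e : Fin n → Elt M} (hF : TrFam M (τ : Elt M → ℂ) ξ e) :
    ∃ (η : Fin n → H) (f : Fin n → Elt N), TrFam N (σ : Elt N → ℂ) η f ∧
      ∀ i, σ (f i) = τ (e i) := by
  have hnt : Nontrivial H := by
    by_contra hH
    have hs : Subsingleton H := not_nontrivial_iff_subsingleton.1 hH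
    have h1 : (1 : Elt M) = 0 := Subtype.ext (Subsingleton.elim _ _)
    have h2 := hM.trace.one
    rw [h1, map_zero] at h2
    exact zero_ne_one h2
  have hdK : d ≤ KC * d := by nlinarith [one_le_KC]
  have hK0 : 0 ≤ KC * d := mul_nonneg KC_pos.le hd
  have hτc : ∀ x y, τ (x * y) = τ (y * x) := hM.trace.tracial
  -- maximal commuting families
  have hec : ∀ i, star (e i : H →L[ℂ] H) = e i ∧ (e i : H →L[ℂ] H) * e i = e i := fun i =>
    ⟨congrArg (fun z : Elt M => (z : H →L[ℂ] H)) (hF.prj i).1,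
      congrArg (fun z : Elt M => (z : H →L[ℂ] H)) (hF.prj i).2⟩
  choose G instG ρ hρ hρS using fun i => exists_masa M
    ({(⟨1 - (2 : ℂ) • (e i : H →L[ℂ] H), refl_unitary (hec i).1 (hec i).2⟩ :
      unitary (H →L[ℂ] H))} : Set (unitary (H →L[ℂ] H)))
    (by
      intro g hg
      rw [Set.mem_singleton_iff] at hg
      rw [hg]
      exact sub_mem (one_mem M) (M.toStarSubalgebra.smul_mem (e i).2 _))
    (by
      intro g hg h hh
      rw [Set.mem_singleton_iff] at hg hh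
      rw [hg, hh])
  have hρe : ∀ i g, (ρ i g : H →L[ℂ] H) * (e i : H →L[ℂ] H) =
      (e i : H →L[ℂ] H) * (ρ i g : H →L[ℂ] H) := by
    intro i g
    obtain ⟨g0, hg0⟩ := hρS i _ rfl
    have h1 : (ρ i g : H →L[ℂ] H) * (ρ i g0 : H →L[ℂ] H) =
        (ρ i g0 : H →L[ℂ] H) * (ρ i g : H →L[ℂ] H) := by
      rw [← rho_mul, ← rho_mul, mul_comm]
    rw [hg0] at h1
    exact comm_refl h1
  have hneg : ∀ i, ∃ g, (ρ i g : H →L[ℂ] H) = -1 := by
    intro i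
    have h1 : (-1 : H →L[ℂ] H) ∈ unitary (H →L[ℂ] H) := by
      rw [Unitary.mem_iff, star_neg, star_one, neg_mul_neg, one_mul]
      exact ⟨rfl, rfl⟩
    obtain ⟨g, hg⟩ := (hρ i).max ⟨-1, h1⟩ (neg_mem (one_mem M))
      (fun g => by
        show (ρ i g : H →L[ℂ] H) * (-1) = (-1) * (ρ i g : H →L[ℂ] H)
        rw [mul_neg, neg_mul, mul_one, one_mul])
    exact ⟨g, by rw [hg]⟩
  -- the right action
  obtain ⟨Φ, hΦM, hΦd, hΦo⟩ := right_fam hτc hF G ρ (fun i => (hρ i).mem) hρe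
  have hcomm := ni_comm hd hNM
  obtain ⟨u, hu1, hu2, -⟩ := pert N.commutant Φ (2 * KC * d) (by nlinarith) (by nlinarith) (by
    intro g
    obtain ⟨y, hy, hy2⟩ := hcomm _ (hΦM g)
    refine ⟨y, hy, hy2.trans ?_⟩
    have h1 := unitary_norm_le (Φ g)
    have h2 : 0 ≤ 2 * KC * d := by nlinarith
    have := mul_le_mul_of_nonneg_left h1 h2
    linarith)
  set t1 : ℝ := 3000 * (2 * KC * d) with ht1
  have ht10 : 0 ≤ t1 := by rw [ht1]; nlinarith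
  let N1 : VonNeumannAlgebra H := cj u N
  have hΦN1 : ∀ g, (Φ g : H →L[ℂ] H) ∈ N1.commutant := fun g => mem_cj_comm.2 (hu2 g)
  have hMN1 : NI (d + 4 * t1) M N1 := ni_cj_right (by nlinarith) hu1 hMN
  have hN1M : NI (d + 2 * t1) N1 M := ni_cj_left hd hu1 hNM
  -- the second perturbation
  choose v hv1 hv2 hv3 using fun i => pert N1 (ρ i) (d + 4 * t1) (by linarith)
    (by rw [ht1]; nlinarith) (by
    intro g
    obtain ⟨y, hy, hy2⟩ := hMN1 _ ((hρ i).mem g)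
    refine ⟨y, hy, hy2.trans ?_⟩
    have h1 := unitary_norm_le (ρ i g)
    have h2 : 0 ≤ d + 4 * t1 := by linarith
    have := mul_le_mul_of_nonneg_left h1 h2
    linarith)
  set t2 : ℝ := 3000 * (d + 4 * t1) with ht2
  have ht20 : 0 ≤ t2 := by rw [ht2]; linarith
  -- elements of the right action commute with the `v i`
  have hvΦ : ∀ i g, (Φ g : H →L[ℂ] H) * (v i : H →L[ℂ] H) =
      (v i : H →L[ℂ] H) * (Φ g : H →L[ℂ] H) := by
    intro i g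
    refine hv3 i _ (fun h => ?_) (fun y hy => ?_)
    · have h1 := hΦM g
      rw [VonNeumannAlgebra.mem_commutant_iff] at h1
      exact (h1 _ ((hρ i).mem h)).symm
    · have h1 := hΦN1 g
      rw [VonNeumannAlgebra.mem_commutant_iff] at h1
      exact (h1 _ hy).symm
  -- the algebras `N2 i`
  have hρN2 : ∀ i g, (ρ i g : H →L[ℂ] H) ∈ cj (v i) N1 := fun i g => mem_cj.2 (hv2 i g)
  have hsmall : d + 4 * t1 + 4 * t2 ≤ 1 / 100000 := by
    rw [ht2, ht1]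
    nlinarith
  have hMN2 : ∀ i, NI (d + 4 * t1 + 4 * t2) M (cj (v i) N1) := fun i =>
    ni_cj_right (by rw [ht1]; nlinarith) (hv1 i) hMN1
  have hN2M : ∀ i, NI (d + 2 * t1 + 2 * t2) (cj (v i) N1) M := fun i =>
    ni_cj_left (by linarith) (hv1 i) hN1M
  have hN1 : IsIIOneFactor N1 ((σ ∘ₗ cjElt u N : Elt N1 →ₗ[ℂ] ℂ) : Elt N1 → ℂ) := cj_II hN u
  let σ2 : ∀ i, Elt (cj (v i) N1) →ₗ[ℂ] ℂ := fun i =>
    (σ ∘ₗ cjElt u N : Elt N1 →ₗ[ℂ] ℂ) ∘ₗ cjElt (v i) N1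
  have hN2 : ∀ i, IsIIOneFactor (cj (v i) N1) (σ2 i : Elt (cj (v i) N1) → ℂ) := fun i =>
    cj_II hN1 (v i)
  have heN2 : ∀ i, (e i : H →L[ℂ] H) ∈ cj (v i) N1 := fun i =>
    (hρ i).mem_of (hρN2 i) (e i).2 (hρe i)
  have hvec : ∀ i, ∀ y : Elt (cj (v i) N1), ⟪ξ i, (y : H →L[ℂ] H) (ξ i)⟫_ℂ =
      σ2 i (y * ⟨(e i : H →L[ℂ] H), heN2 i⟩) := by
    intro i y
    refine vec_transfer (ρ := ρ i) hM (hN2 i) (by linarith) hsmall (hMN2 i) (hρ i) (hρN2 i)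
      (ε' := d + 2 * t1 + 2 * t2) (by linarith) (hN2M i) (e i).2 (heN2 i) (hρe i) (hF.diag i) ?_ y
    intro g
    refine ⟨(Φ (Pi.mulSingle i g) : H →L[ℂ] H), ?_, usu _, hΦd i g⟩
    rw [mem_cj_comm]
    rw [← hvΦ i, mul_assoc, uus, mul_one]
    exact hΦN1 _
  -- the final family
  have hfN : ∀ i, (u : H →L[ℂ] H) * ((v i : H →L[ℂ] H) * (e i : H →L[ℂ] H) *
      star (v i : H →L[ℂ] H)) * star (u : H →L[ℂ] H) ∈ N := fun i => heN2 i
  let f : Fin n → Elt N := fun i => ⟨_, hfN i⟩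
  have hσf : ∀ i, σ (f i) = τ (e i) := by
    intro i
    have h1 := hvec i 1
    have h2 := hF.diag i 1
    have h3 : ⟪ξ i, ((1 : Elt (cj (v i) N1)) : H →L[ℂ] H) (ξ i)⟫_ℂ =
      ⟪ξ i, ((1 : Elt M) : H →L[ℂ] H) (ξ i)⟫_ℂ := rfl
    rw [h3, h2, one_mul, one_mul] at h1
    exact h1.symm
  refine ⟨fun i => (u : H →L[ℂ] H) ((v i : H →L[ℂ] H) (ξ i)), f, ⟨?_, ?_, ?_⟩, hσf⟩
  · intro i
    constructor
    · apply Subtype.ext
      show star ((cjMap u) ((cjMap (v i)) (e i : H →L[ℂ] H))) =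
        (cjMap u) ((cjMap (v i)) (e i : H →L[ℂ] H))
      rw [← map_star, ← map_star, (hec i).1]
    · apply Subtype.ext
      show (cjMap u) ((cjMap (v i)) (e i : H →L[ℂ] H)) * (cjMap u) ((cjMap (v i))
        (e i : H →L[ℂ] H)) = (cjMap u) ((cjMap (v i)) (e i : H →L[ℂ] H))
      rw [← map_mul, ← map_mul, (hec i).2]
  · intro i y
    have hy1 : star (u : H →L[ℂ] H) * (y : H →L[ℂ] H) * (u : H →L[ℂ] H) ∈ N1 := mem_cj' y.2
    have hy2 : star (v i : H →L[ℂ] H) * (star (u : H →L[ℂ] H) * (y : H →L[ℂ] H) *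
        (u : H →L[ℂ] H)) * (v i : H →L[ℂ] H) ∈ cj (v i) N1 := mem_cj' hy1
    have h1 := hvec i ⟨_, hy2⟩
    have h2 : ⟪(u : H →L[ℂ] H) ((v i : H →L[ℂ] H) (ξ i)), (y : H →L[ℂ] H)
        ((u : H →L[ℂ] H) ((v i : H →L[ℂ] H) (ξ i)))⟫_ℂ =
        ⟪ξ i, (star (v i : H →L[ℂ] H) * (star (u : H →L[ℂ] H) * (y : H →L[ℂ] H) *
        (u : H →L[ℂ] H)) * (v i : H →L[ℂ] H)) (ξ i)⟫_ℂ := by
      show _ = ⟪ξ i, star (v i : H →L[ℂ] H) (star (u : H →L[ℂ] H) ((y : H →L[ℂ] H)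
        ((u : H →L[ℂ] H) ((v i : H →L[ℂ] H) (ξ i)))))⟫_ℂ
      rw [ContinuousLinearMap.star_eq_adjoint, ContinuousLinearMap.adjoint_inner_right,
        ContinuousLinearMap.star_eq_adjoint, ContinuousLinearMap.adjoint_inner_right]
    rw [h2]
    refine h1.trans ?_
    show σ _ = σ _
    congr 1
    apply Subtype.ext
    show (cjMap u) ((cjMap (v i)) ((star (v i : H →L[ℂ] H) * (star (u : H →L[ℂ] H) *
        (y : H →L[ℂ] H) * (u : H →L[ℂ] H)) * (v i : H →L[ℂ] H)) * (e i : H →L[ℂ] H))) =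
      (y : H →L[ℂ] H) * (cjMap u) ((cjMap (v i)) (e i : H →L[ℂ] H))
    rw [map_mul, map_mul (cjMap u)]
    congr 1
    rw [cjMap_apply (v i), cj_cancel', cjMap_apply, cj_cancel']
  · intro i j hij y
    obtain ⟨g, hg⟩ := hneg i
    set s : H →L[ℂ] H := (Φ (Pi.mulSingle i g) : H →L[ℂ] H) with hs
    have hsi : s (ξ i) = -ξ i := by
      rw [hs, hΦd i g, hg]
      rfl
    have hsj : s (ξ j) = ξ j := hΦo i j g hij
    have hss : star s * s = 1 := usu _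
    have hsN := hΦN1 (Pi.mulSingle i g)
    rw [VonNeumannAlgebra.mem_commutant_iff] at hsN
    have hy1 : star (u : H →L[ℂ] H) * (y : H →L[ℂ] H) * (u : H →L[ℂ] H) ∈ N1 := mem_cj' y.2
    set y1 : H →L[ℂ] H := star (u : H →L[ℂ] H) * (y : H →L[ℂ] H) * (u : H →L[ℂ] H) with hy1d
    have h2 : ⟪(u : H →L[ℂ] H) ((v i : H →L[ℂ] H) (ξ i)), (y : H →L[ℂ] H)
        ((u : H →L[ℂ] H) ((v j : H →L[ℂ] H) (ξ j)))⟫_ℂ =
        ⟪(v i : H →L[ℂ] H) (ξ i), y1 ((v j : H →L[ℂ] H) (ξ j))⟫_ℂ := by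
      show _ = ⟪(v i : H →L[ℂ] H) (ξ i), star (u : H →L[ℂ] H) ((y : H →L[ℂ] H)
        ((u : H →L[ℂ] H) ((v j : H →L[ℂ] H) (ξ j))))⟫_ℂ
      rw [ContinuousLinearMap.star_eq_adjoint, ContinuousLinearMap.adjoint_inner_right]
    have hsv : ∀ k, ∀ ζ : H, s ((v k : H →L[ℂ] H) ζ) = (v k : H →L[ℂ] H) (s ζ) := fun k ζ =>
      congrArg (fun T : H →L[ℂ] H => T ζ) (hvΦ k (Pi.mulSingle i g))
    have hsy : ∀ ζ : H, s (y1 ζ) = y1 (s ζ) := fun ζ =>
      (congrArg (fun T : H →L[ℂ] H => T ζ) (hsN y1 hy1)).symm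
    have hiso : ∀ a b : H, ⟪s a, s b⟫_ℂ = ⟪a, b⟫_ℂ := by
      intro a b
      rw [← ContinuousLinearMap.adjoint_inner_right, ← ContinuousLinearMap.star_eq_adjoint]
      have h3 : star s (s b) = b := congrArg (fun T : H →L[ℂ] H => T b) hss
      rw [h3]
    have h3 : ⟪(v i : H →L[ℂ] H) (ξ i), y1 ((v j : H →L[ℂ] H) (ξ j))⟫_ℂ =
        -⟪(v i : H →L[ℂ] H) (ξ i), y1 ((v j : H →L[ℂ] H) (ξ j))⟫_ℂ := by
      conv_lhs => rw [← hiso]
      rw [hsv, hsi, hsy, hsv, hsj, map_neg, inner_neg_left]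
    rw [h2]
    exact self_eq_neg.1 h3

/-! ### The coupling constant -/

/-- The Murray-von Neumann dimension `dim_M(H)`: the supremum of the numbers `∑ τ(e i)` over the
finite families of vectors `ξ i` and projections `e i` with `⟪ξ i, x ξ i⟫ = τ(x e i)` whose cyclic
modules are pairwise orthogonal. -/
def mvDim (M : VonNeumannAlgebra H) (τ : Elt M → ℂ) : ENNReal :=
  ⨆ (n : ℕ) (ξ : Fin n → H) (e : Fin n → Elt M) (_ : TrFam M τ ξ e),
    ∑ i, ENNReal.ofReal (τ (e i)).re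

theorem mvDim_le {M N : VonNeumannAlgebra H} {τ : Elt M →ₗ[ℂ] ℂ} {σ : Elt N →ₗ[ℂ] ℂ}
    (hM : IsIIOneFactor M (τ : Elt M → ℂ)) (hN : IsIIOneFactor N (σ : Elt N → ℂ)) {d : ℝ}
    (hd : 0 ≤ d) (hd1 : KC * d ≤ 1 / 10 ^ 14) (hMN : NI d M N) (hNM : NI d N M) :
    mvDim M (τ : Elt M → ℂ) ≤ mvDim N (σ : Elt N → ℂ) := by
  refine iSup_le fun n => iSup_le fun ξ => iSup_le fun e => iSup_le fun hF => ?_
  obtain ⟨η, f, hf, hσf⟩ := transfer hM hN hd hd1 hMN hNM hF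
  have h1 : ∑ i, ENNReal.ofReal (τ (e i)).re = ∑ i, ENNReal.ofReal (σ (f i)).re :=
    Finset.sum_congr rfl fun i _ => by rw [hσf]
  rw [h1]
  exact le_iSup_of_le n (le_iSup_of_le η (le_iSup_of_le f (le_iSup_of_le hf le_rfl)))

theorem mvDim_eq {M N : VonNeumannAlgebra H} {τ : Elt M →ₗ[ℂ] ℂ} {σ : Elt N →ₗ[ℂ] ℂ}
    (hM : IsIIOneFactor M (τ : Elt M → ℂ)) (hN : IsIIOneFactor N (σ : Elt N → ℂ))
    (h : kk M N < 1 / (10 ^ 14 * KC)) :
    mvDim M (τ : Elt M → ℂ) = mvDim N (σ : Elt N → ℂ) := by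
  have h0 : 0 ≤ 1 / (10 ^ 14 * KC) := by
    have := KC_pos
    positivity
  have h1 : KC * (1 / (10 ^ 14 * KC)) ≤ 1 / 10 ^ 14 := by
    have := KC_pos
    field_simp
    exact le_rfl
  have hMN : NI (1 / (10 ^ 14 * KC)) M N := ni_of_kk h
  have hNM : NI (1 / (10 ^ 14 * KC)) N M := ni_of_kk (by rw [kk_comm]; exact h)
  exact le_antisymm (mvDim_le hM hN h0 h1 hMN hNM) (mvDim_le hN hM h0 h1 hNM hMN)

end Pool.Agent.N242.KK
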