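import Mathlib
import Pool.Agent.N242.KK.Main

/-!
The Murray-von Neumann dimension is computed by every basis.
-/

set_option autoImplicit false
set_option linter.unusedSectionVars false

open scoped InnerProductSpace ComplexConjugate
open Filter Topology

noncomputable section

namespace Pool.Agent.N242.KK

open Pool.Agent.H467F Pool.Agent.H518R4.UG Pool.Agent.H518R5.SC

variable {H : Type} [NormedAddCommGroup H] [InnerProductSpace ℂ H] [CompleteSpace H]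

/-- the projection onto the cyclic module -/
def pr (M : VonNeumannAlgebra H) (ξ : H) : H →L[ℂ] H := (cyc M ξ).starProjection

theorem pr_mem (M : VonNeumannAlgebra H) (ξ ζ : H) : pr M ξ ζ ∈ cyc M ξ :=
  Submodule.starProjection_apply_mem _ _

theorem pr_inner (M : VonNeumannAlgebra H) (ξ ζ : H) {z : H} (hz : z ∈ cyc M ξ) :
    ⟪z, pr M ξ ζ⟫_ℂ = ⟪z, ζ⟫_ℂ := by
  have h1 : ζ - pr M ξ ζ ∈ (cyc M ξ)ᗮ := Submodule.sub_starProjection_mem_orthogonal ζ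
  have h2 := (Submodule.mem_orthogonal _ _).1 h1 z hz
  rw [inner_sub_right] at h2
  exact (sub_eq_zero.1 h2).symm

theorem pr_norm_sq (M : VonNeumannAlgebra H) (ξ ζ : H) :
    ⟪pr M ξ ζ, ζ⟫_ℂ = ((‖pr M ξ ζ‖ ^ 2 : ℝ) : ℂ) := by
  rw [← pr_inner M ξ ζ (pr_mem M ξ ζ), inner_self_eq_norm_sq_to_K]
  push_cast
  rfl

theorem star_mul_inner (x : H →L[ℂ] H) (ζ : H) :
    ⟪ζ, (star x * x) ζ⟫_ℂ = ((‖x ζ‖ ^ 2 : ℝ) : ℂ) := by
  show ⟪ζ, star x (x ζ)⟫_ℂ = _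
  rw [ContinuousLinearMap.star_eq_adjoint, ContinuousLinearMap.adjoint_inner_right,
    inner_self_eq_norm_sq_to_K]
  push_cast
  rfl

section

variable {M : VonNeumannAlgebra H} {τ : Elt M →ₗ[ℂ] ℂ}

theorem tv_fix {ξ : H} {e : Elt M} (he : star e = e ∧ e * e = e)
    (hξ : ∀ x : Elt M, ⟪ξ, (x : H →L[ℂ] H) ξ⟫_ℂ = τ (x * e)) : (e : H →L[ℂ] H) ξ = ξ := by
  have h1 := hξ (star (1 - e) * (1 - e))
  have h2 : star (1 - e) * (1 - e) * e = 0 := by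
    rw [mul_assoc, sub_mul, one_mul, he.2, sub_self, mul_zero]
  rw [h2, map_zero] at h1
  have h3 : ⟪ξ, ((star (1 - e) * (1 - e) : Elt M) : H →L[ℂ] H) ξ⟫_ℂ =
      ((‖((1 - e : Elt M) : H →L[ℂ] H) ξ‖ ^ 2 : ℝ) : ℂ) :=
    star_mul_inner ((1 - e : Elt M) : H →L[ℂ] H) ξ
  rw [h3] at h1
  have h4 : ‖((1 - e : Elt M) : H →L[ℂ] H) ξ‖ ^ 2 = 0 := by exact_mod_cast h1
  have h5 : ((1 - e : Elt M) : H →L[ℂ] H) ξ = 0 := by
    have := pow_eq_zero_iff (two_ne_zero) |>.1 h4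
    exact norm_eq_zero.1 this
  have h6 : ((1 - e : Elt M) : H →L[ℂ] H) ξ = ξ - (e : H →L[ℂ] H) ξ := rfl
  rw [h6] at h5
  exact (sub_eq_zero.1 h5).symm

theorem tv_norm {ξ : H} {e : Elt M}
    (hξ : ∀ x : Elt M, ⟪ξ, (x : H →L[ℂ] H) ξ⟫_ℂ = τ (x * e)) : (τ e).re = ‖ξ‖ ^ 2 := by
  have h1 := hξ 1
  rw [one_mul] at h1
  have h2 : ⟪ξ, ((1 : Elt M) : H →L[ℂ] H) ξ⟫_ℂ = ⟪ξ, ξ⟫_ℂ := rfl
  rw [h2, inner_self_eq_norm_sq_to_K] at h1
  rw [← h1]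
  norm_cast

/-- The symmetry of the inner products between cyclic modules of tracial vectors. -/
theorem pr_le (hτ : ∀ x y, τ (x * y) = τ (y * x)) {ξ η : H} {e f : Elt M}
    (he : star e = e ∧ e * e = e) (hf : star f = f ∧ f * f = f)
    (hξ : ∀ x : Elt M, ⟪ξ, (x : H →L[ℂ] H) ξ⟫_ℂ = τ (x * e))
    (hη : ∀ x : Elt M, ⟪η, (x : H →L[ℂ] H) η⟫_ℂ = τ (x * f)) :
    ‖pr M ξ η‖ ≤ ‖pr M η ξ‖ := by
  have hfη := tv_fix hf hη
  have heξ := tv_fix he hξ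
  set A : ℝ := ‖pr M η ξ‖ with hA
  have hA0 : 0 ≤ A := norm_nonneg _
  have h1 : ∀ x : Elt M, ‖⟪(x : H →L[ℂ] H) ξ, η⟫_ℂ‖ ≤ A * ‖(x : H →L[ℂ] H) ξ‖ := by
    intro x
    set x' : Elt M := f * x * e with hx'
    have hx'c : ((x' : Elt M) : H →L[ℂ] H) ξ = (f : H →L[ℂ] H) ((x : H →L[ℂ] H) ξ) := by
      show (f : H →L[ℂ] H) ((x : H →L[ℂ] H) ((e : H →L[ℂ] H) ξ)) = _
      rw [heξ]
    have h2 : ⟪(x : H →L[ℂ] H) ξ, η⟫_ℂ = ⟪(x' : H →L[ℂ] H) ξ, η⟫_ℂ := by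
      have hfs : ContinuousLinearMap.adjoint (f : H →L[ℂ] H) = (f : H →L[ℂ] H) :=
        congrArg (fun z : Elt M => (z : H →L[ℂ] H)) hf.1
      have h3 : ⟪(f : H →L[ℂ] H) ((x : H →L[ℂ] H) ξ), η⟫_ℂ =
          ⟪(x : H →L[ℂ] H) ξ, (f : H →L[ℂ] H) η⟫_ℂ := by
        rw [← ContinuousLinearMap.adjoint_inner_left, hfs]
      rw [hx'c, h3, hfη]
    have h3 : ⟪(x' : H →L[ℂ] H) ξ, η⟫_ℂ = ⟪pr M η ξ, (star (x' : H →L[ℂ] H)) η⟫_ℂ := by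
      rw [← inner_conj_symm (pr M η ξ), pr_inner M η ξ (mem_cyc M η (star_mem x'.2)),
        inner_conj_symm, ContinuousLinearMap.star_eq_adjoint,
        ContinuousLinearMap.adjoint_inner_right]
    have h4 : ‖star (x' : H →L[ℂ] H) η‖ = ‖(x' : H →L[ℂ] H) ξ‖ := by
      have h5 := hη (x' * star x')
      have h6 := hξ (star x' * x')
      have e1 : x' * star x' * f = x' * star x' := by
        have : star x' * f = star x' := by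
          rw [hx', star_mul, star_mul, hf.1, mul_assoc, mul_assoc, hf.2]
        rw [mul_assoc, this]
      have e2 : star x' * x' * e = star x' * x' := by
        have : x' * e = x' := by rw [hx', mul_assoc, he.2]
        rw [mul_assoc, this]
      rw [e1, hτ] at h5
      rw [e2, ← h5] at h6
      have h7 : ⟪ξ, ((star x' * x' : Elt M) : H →L[ℂ] H) ξ⟫_ℂ =
          ((‖(x' : H →L[ℂ] H) ξ‖ ^ 2 : ℝ) : ℂ) := star_mul_inner _ _
      have h8 : ⟪η, ((x' * star x' : Elt M) : H →L[ℂ] H) η⟫_ℂ =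
          ((‖star (x' : H →L[ℂ] H) η‖ ^ 2 : ℝ) : ℂ) := by
        have := star_mul_inner (star (x' : H →L[ℂ] H)) η
        rw [star_star] at this
        exact this
      rw [h7, h8] at h6
      have h9 : ‖(x' : H →L[ℂ] H) ξ‖ ^ 2 = ‖star (x' : H →L[ℂ] H) η‖ ^ 2 := by exact_mod_cast h6
      exact ((pow_left_inj₀ (norm_nonneg _) (norm_nonneg _) two_ne_zero).1 h9).symm
    have h5 : ‖(x' : H →L[ℂ] H) ξ‖ ≤ ‖(x : H →L[ℂ] H) ξ‖ := by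
      rw [hx'c]
      have h6 : ‖(f : H →L[ℂ] H)‖ ≤ 1 :=
        prj_norm (congrArg (fun z : Elt M => (z : H →L[ℂ] H)) hf.1)
          (congrArg (fun z : Elt M => (z : H →L[ℂ] H)) hf.2)
      calc _ ≤ ‖(f : H →L[ℂ] H)‖ * ‖(x : H →L[ℂ] H) ξ‖ := ContinuousLinearMap.le_opNorm _ _
        _ ≤ 1 * ‖(x : H →L[ℂ] H) ξ‖ := mul_le_mul_of_nonneg_right h6 (norm_nonneg _)
        _ = _ := one_mul _
    rw [h2, h3]
    calc _ ≤ ‖pr M η ξ‖ * ‖star (x' : H →L[ℂ] H) η‖ := norm_inner_le_norm _ _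
      _ ≤ A * ‖(x : H →L[ℂ] H) ξ‖ := by
        rw [h4]
        exact mul_le_mul_of_nonneg_left h5 hA0
  have h2 : ∀ z ∈ cyc M ξ, ‖⟪z, η⟫_ℂ‖ ≤ A * ‖z‖ := by
    intro z hz
    have hc : IsClosed {z : H | ‖⟪z, η⟫_ℂ‖ ≤ A * ‖z‖} :=
      isClosed_le (by fun_prop) (by fun_prop)
    have hz' : z ∈ closure ((LinearMap.range (evl M ξ) : Submodule ℂ H) : Set H) := hz
    refine closure_minimal ?_ hc hz'
    rintro _ ⟨x, rfl⟩
    exact h1 x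
  have h3 := h2 _ (pr_mem M ξ η)
  rw [pr_norm_sq, Complex.norm_real, Real.norm_eq_abs, abs_of_nonneg (sq_nonneg _)] at h3
  by_contra h4
  rw [not_le] at h4
  have h5 : 0 < ‖pr M ξ η‖ := lt_of_le_of_lt hA0 h4
  nlinarith

theorem pr_symm (hτ : ∀ x y, τ (x * y) = τ (y * x)) {ξ η : H} {e f : Elt M}
    (he : star e = e ∧ e * e = e) (hf : star f = f ∧ f * f = f)
    (hξ : ∀ x : Elt M, ⟪ξ, (x : H →L[ℂ] H) ξ⟫_ℂ = τ (x * e))
    (hη : ∀ x : Elt M, ⟪η, (x : H →L[ℂ] H) η⟫_ℂ = τ (x * f)) :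
    ‖pr M ξ η‖ = ‖pr M η ξ‖ :=
  le_antisymm (pr_le hτ he hf hξ hη) (pr_le hτ hf he hη hξ)

theorem fam_orth {I : Type} {ξ : I → H} {e : I → Elt M} (hF : TrFam M (τ : Elt M → ℂ) ξ e)
    {i j : I} (hij : i ≠ j) {z : H} (hz : z ∈ cyc M (ξ i)) {w : H} (hw : w ∈ cyc M (ξ j)) :
    ⟪z, w⟫_ℂ = 0 := by
  have h1 : cyc M (ξ j) ≤ (cyc M (ξ i))ᗮ := by
    refine Submodule.topologicalClosure_minimal _ ?_ (Submodule.isClosed_orthogonal _)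
    rintro _ ⟨y, rfl⟩
    exact (perp_iff M (ξ i) _).1 (hF.perp hij y)
  exact (Submodule.mem_orthogonal _ _).1 (h1 hw) z hz

theorem fam_sum {I : Type} {ξ : I → H} {e : I → Elt M} (hF : TrFam M (τ : Elt M → ℂ) ξ e)
    (s : Finset I) (ζ : H) :
    ‖∑ i ∈ s, pr M (ξ i) ζ‖ ^ 2 = ∑ i ∈ s, ‖pr M (ξ i) ζ‖ ^ 2 ∧
      ⟪∑ i ∈ s, pr M (ξ i) ζ, ζ⟫_ℂ = ((∑ i ∈ s, ‖pr M (ξ i) ζ‖ ^ 2 : ℝ) : ℂ) := by
  constructor
  · have h1 : ((‖∑ i ∈ s, pr M (ξ i) ζ‖ ^ 2 : ℝ) : ℂ) =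
        ((∑ i ∈ s, ‖pr M (ξ i) ζ‖ ^ 2 : ℝ) : ℂ) := by
      have h2 : ((‖∑ i ∈ s, pr M (ξ i) ζ‖ ^ 2 : ℝ) : ℂ) =
          ⟪∑ i ∈ s, pr M (ξ i) ζ, ∑ i ∈ s, pr M (ξ i) ζ⟫_ℂ := by
        rw [inner_self_eq_norm_sq_to_K]
        push_cast
        rfl
      rw [h2, sum_inner]
      push_cast
      refine Finset.sum_congr rfl fun i hi => ?_
      rw [inner_sum, Finset.sum_eq_single i]
      · rw [inner_self_eq_norm_sq_to_K]
        rfl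
      · intro j _ hj
        exact fam_orth hF (Ne.symm hj) (pr_mem M _ ζ) (pr_mem M _ ζ)
      · intro h
        exact absurd hi h
    exact_mod_cast h1
  · rw [sum_inner]
    push_cast
    refine Finset.sum_congr rfl fun i _ => ?_
    rw [pr_norm_sq]
    push_cast
    rfl

/-- Bessel's inequality -/
theorem fam_bessel {I : Type} {ξ : I → H} {e : I → Elt M} (hF : TrFam M (τ : Elt M → ℂ) ξ e)
    (s : Finset I) (ζ : H) : ∑ i ∈ s, ‖pr M (ξ i) ζ‖ ^ 2 ≤ ‖ζ‖ ^ 2 := by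
  obtain ⟨h1, h2⟩ := fam_sum hF s ζ
  set S : ℝ := ∑ i ∈ s, ‖pr M (ξ i) ζ‖ ^ 2 with hS
  have hS0 : 0 ≤ S := Finset.sum_nonneg fun i _ => sq_nonneg _
  have h3 : S ≤ ‖∑ i ∈ s, pr M (ξ i) ζ‖ * ‖ζ‖ := by
    have h4 := norm_inner_le_norm (𝕜 := ℂ) (∑ i ∈ s, pr M (ξ i) ζ) ζ
    rw [h2, Complex.norm_real, Real.norm_eq_abs, abs_of_nonneg hS0] at h4
    exact h4
  have h5 : S * S ≤ S * ‖ζ‖ ^ 2 := by
    calc S * S ≤ (‖∑ i ∈ s, pr M (ξ i) ζ‖ * ‖ζ‖) * (‖∑ i ∈ s, pr M (ξ i) ζ‖ * ‖ζ‖) :=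
          mul_self_le_mul_self hS0 h3
      _ = ‖∑ i ∈ s, pr M (ξ i) ζ‖ ^ 2 * ‖ζ‖ ^ 2 := by ring
      _ = S * ‖ζ‖ ^ 2 := by rw [h1]
  rcases hS0.lt_or_eq with h6 | h6
  · exact le_of_mul_le_mul_left h5 h6
  · rw [← h6]
    exact sq_nonneg _

/-- Parseval's identity -/
theorem fam_parseval {I : Type} {ξ : I → H} {e : I → Elt M}
    (hF : TrFam M (τ : Elt M → ℂ) ξ e)
    (htot : ∀ ζ : H, (∀ i, ∀ x : Elt M, ⟪(x : H →L[ℂ] H) (ξ i), ζ⟫_ℂ = 0) → ζ = 0) (ζ : H) :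
    HasSum (fun i => ‖pr M (ξ i) ζ‖ ^ 2) (‖ζ‖ ^ 2) := by
  have hOF : OrthogonalFamily ℂ (fun i => cyc M (ξ i)) fun i => (cyc M (ξ i)).subtypeₗᵢ := by
    intro i j hij v w
    exact fam_orth hF hij v.2 w.2
  have hsum : Summable fun i => ‖pr M (ξ i) ζ‖ ^ 2 :=
    summable_of_sum_le (fun i => sq_nonneg _) (fun s => fam_bessel hF s ζ)
  have hs2 : Summable fun i => pr M (ξ i) ζ := by
    have h1 := (hOF.summable_iff_norm_sq_summable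
      (fun i => (⟨pr M (ξ i) ζ, pr_mem M (ξ i) ζ⟩ : cyc M (ξ i)))).2 hsum
    exact h1
  obtain ⟨w, hw⟩ := hs2
  have hζw : ζ - w = 0 := by
    refine htot _ fun j x => ?_
    have h1 : HasSum (fun i => ⟪(x : H →L[ℂ] H) (ξ j), pr M (ξ i) ζ⟫_ℂ)
        ⟪(x : H →L[ℂ] H) (ξ j), w⟫_ℂ := hw.mapL (innerSL ℂ ((x : H →L[ℂ] H) (ξ j)))
    have h2 : HasSum (fun i => ⟪(x : H →L[ℂ] H) (ξ j), pr M (ξ i) ζ⟫_ℂ)
        ⟪(x : H →L[ℂ] H) (ξ j), pr M (ξ j) ζ⟫_ℂ := by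
      refine hasSum_single j fun i hi => ?_
      exact fam_orth hF (Ne.symm hi) (mem_cyc M _ x.2) (pr_mem M _ _)
    rw [inner_sub_right, h1.unique h2, pr_inner M (ξ j) ζ (mem_cyc M _ x.2), sub_self]
  have hζ : ζ = w := sub_eq_zero.1 hζw
  have h3 : HasSum (fun i => ⟪ζ, pr M (ξ i) ζ⟫_ℂ) ⟪ζ, w⟫_ℂ := hw.mapL (innerSL ℂ ζ)
  rw [← hζ] at h3
  have h4 : ∀ i, ⟪ζ, pr M (ξ i) ζ⟫_ℂ = ((‖pr M (ξ i) ζ‖ ^ 2 : ℝ) : ℂ) := by
    intro i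
    rw [← inner_conj_symm, pr_norm_sq, Complex.conj_ofReal]
  have h5 : ⟪ζ, ζ⟫_ℂ = ((‖ζ‖ ^ 2 : ℝ) : ℂ) := by
    rw [inner_self_eq_norm_sq_to_K]
    push_cast
    rfl
  simp only [h4, h5] at h3
  exact Complex.hasSum_ofReal.1 h3

theorem tsum_ofReal_eq {I : Type} {f : I → ℝ} (hf : ∀ i, 0 ≤ f i) {a : ℝ} (h : HasSum f a) :
    ∑' i, ENNReal.ofReal (f i) = ENNReal.ofReal a := by
  rw [← h.tsum_eq, ENNReal.ofReal_tsum_of_nonneg hf h.summable]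

/-- **The dimension is computed by every basis.** -/
theorem mvDim_basis (hM : IsIIOneFactor M (τ : Elt M → ℂ)) {I : Type} {ξ : I → H}
    {e : I → Elt M} (hF : TrFam M (τ : Elt M → ℂ) ξ e)
    (htot : ∀ ζ : H, (∀ i, ∀ x : Elt M, ⟪(x : H →L[ℂ] H) (ξ i), ζ⟫_ℂ = 0) → ζ = 0) :
    mvDim M (τ : Elt M → ℂ) = ∑' i, ENNReal.ofReal (τ (e i)).re := by
  have hτc : ∀ x y, τ (x * y) = τ (y * x) := hM.trace.tracial
  apply le_antisymm
  · refine iSup_le fun n => iSup_le fun η => iSup_le fun f => iSup_le fun hG => ?_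
    have h1 : ∀ j, ENNReal.ofReal (τ (f j)).re =
        ∑' i, ENNReal.ofReal (‖pr M (η j) (ξ i)‖ ^ 2) := by
      intro j
      rw [tv_norm (hG.diag j), ← tsum_ofReal_eq (fun i => sq_nonneg _)
        (fam_parseval hF htot (η j))]
      refine tsum_congr fun i => ?_
      rw [pr_symm hτc (hF.prj i) (hG.prj j) (hF.diag i) (hG.diag j)]
    calc ∑ j, ENNReal.ofReal (τ (f j)).re
        = ∑ j, ∑' i, ENNReal.ofReal (‖pr M (η j) (ξ i)‖ ^ 2) :=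
          Finset.sum_congr rfl fun j _ => h1 j
      _ = ∑' i, ∑ j, ENNReal.ofReal (‖pr M (η j) (ξ i)‖ ^ 2) := by
          rw [Summable.tsum_finsetSum fun j _ => ENNReal.summable]
      _ ≤ ∑' i, ENNReal.ofReal (τ (e i)).re := by
          refine ENNReal.tsum_le_tsum fun i => ?_
          rw [← ENNReal.ofReal_sum_of_nonneg fun j _ => sq_nonneg _, tv_norm (hF.diag i)]
          exact ENNReal.ofReal_le_ofReal (fam_bessel hG Finset.univ (ξ i))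
  · rw [ENNReal.tsum_eq_iSup_sum]
    refine iSup_le fun s => ?_
    let g : Fin s.card → I := fun k => (s.equivFin.symm k : I)
    have hg : Function.Injective g := fun a b h =>
      s.equivFin.symm.injective (Subtype.ext h)
    have hG : TrFam M (τ : Elt M → ℂ) (fun k => ξ (g k)) (fun k => e (g k)) :=
      ⟨fun k => hF.prj _, fun k => hF.diag _, fun k l hkl => hF.orth _ _ (fun h => hkl (hg h))⟩
    have h1 : ∑ i ∈ s, ENNReal.ofReal (τ (e i)).re =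
        ∑ k : Fin s.card, ENNReal.ofReal (τ (e (g k))).re := by
      rw [← Finset.sum_coe_sort s (fun i => ENNReal.ofReal (τ (e i)).re)]
      exact (Equiv.sum_comp s.equivFin.symm
        (fun i : s => ENNReal.ofReal (τ (e (i : I))).re)).symm
    rw [h1]
    exact le_iSup_of_le s.card (le_iSup_of_le _ (le_iSup_of_le _ (le_iSup_of_le hG le_rfl)))

end

end Pool.Agent.N242.KK
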